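import Pool.Agent.L5helper74.IM.Spm
import Pool.Agent.TH369.MU.SN
import Pool.Agent.TH369.MU.RK2

/-!
# Almost everywhere statements for a resolvent family

Ports to resolvent families of the files QA, SN, QL, RK1, RK2 of the project MU of helper369 (written
there by helper369, helper986, helper113, helper247 and others) on bounded operators.
-/

set_option autoImplicit false

open MeasureTheory Filter Topology
open scoped InnerProductSpace

namespace Pool.Agent.L5helper74.IM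

open Pool.Agent.TH369.MU (ep zk)

variable {X : Type} [NormedAddCommGroup X] [InnerProductSpace ℂ X]

theorem qk_ae {R : ℂ → X →L[ℂ] X} (hR : Sy R) (φ : X) (m : Measure ℝ) (hm : SpM R φ m) :
    ∀ᵐ E : ℝ, Tendsto (fun k => qk R E k φ ^ 2) atTop
      (𝓝 (Real.pi * (m.rnDeriv volume E).toReal)) := by
  obtain ⟨hfin, hF⟩ := hm
  filter_upwards [Pool.Agent.TH369.MU.poisson_ae m] with E hE
  refine hE.congr fun k => ?_
  rw [qk_sq hR E k φ]
  unfold Fk
  rw [hF _ (zk_im_ne E k)]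
  have h1 := integral_im (Pool.Agent.TH369.MU.QA.integrable_inv m E k)
  simp only [RCLike.im_to_complex] at h1
  rw [← h1]
  congr 1
  funext x
  exact (Pool.Agent.TH369.MU.QA.im_inv x E k).symm

theorem sing_iff {R : ℂ → X →L[ℂ] X} (hR : Sy R) (φ : X) (m : Measure ℝ)
    (hm : SpM R φ m) (A : Set ℝ) (hA : MeasurableSet A) :
    (m.restrict A) ⟂ₘ (volume : Measure ℝ) ↔
      ∀ᵐ E : ℝ, E ∈ A → Tendsto (fun k => qk R E k φ) atTop (𝓝 0) := by
  have hfin : IsFiniteMeasure m := hm.1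
  have h1 := qk_ae hR φ m hm
  have h2 := Measure.rnDeriv_restrict m (volume : Measure ℝ) hA
  have h3 : ∀ᵐ E : ℝ, m.rnDeriv volume E < ⊤ := Measure.rnDeriv_lt_top m volume
  have key : ∀ᵐ E : ℝ, ((m.restrict A).rnDeriv volume E = 0 ↔
      (E ∈ A → Tendsto (fun k => qk R E k φ) atTop (𝓝 0))) := by
    filter_upwards [h1, h2, h3] with E e1 e2 e3
    rw [e2, Pool.Agent.TH369.MU.SN.sq_zero _ (fun k => qk_nonneg R E k φ)]
    by_cases hE : E ∈ A
    · rw [Set.indicator_of_mem hE]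
      constructor
      · intro h _
        rw [h] at e1
        simpa using e1
      · intro h
        have h4 := tendsto_nhds_unique e1 (h hE)
        have h5 : (m.rnDeriv volume E).toReal = 0 := by
          rcases mul_eq_zero.1 h4 with h6 | h6
          · exact absurd h6 Real.pi_ne_zero
          · exact h6
        rcases (ENNReal.toReal_eq_zero_iff _).1 h5 with h6 | h6
        · exact h6
        · exact absurd h6 e3.ne
    · rw [Set.indicator_of_notMem hE]
      exact ⟨fun _ h => absurd h hE, fun _ => rfl⟩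
  rw [← Measure.rnDeriv_eq_zero]
  constructor
  · intro h
    filter_upwards [h, key] with E e1 e2
    exact e2.1 e1
  · intro h
    filter_upwards [h, key] with E e1 e2
    exact e2.2 e1

variable [CompleteSpace X]

theorem qk_lim {R : ℂ → X →L[ℂ] X} (hR : Sy R) (g : ℕ → X) (C : ℝ)
    (hg : ∀ m, ‖g m‖ ≤ C * (1 / 2) ^ m) :
    ∀ᵐ E : ℝ, ∀ δ > 0, ∃ M, ∀ m ≥ M, ∀ᶠ k in atTop, qk R E k (g m) ≤ δ := by
  choose μ hμ hmass using fun m => spm_exists hR (g m)
  have h1 : ∀ᵐ E : ℝ, ∀ m, Tendsto (fun k => qk R E k (g m) ^ 2) atTop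
      (𝓝 (Real.pi * ((μ m).rnDeriv volume E).toReal)) :=
    ae_all_iff.2 fun m => qk_ae hR (g m) (μ m) (hμ m)
  have hC0 : 0 ≤ C := by
    have := (norm_nonneg _).trans (hg 0)
    simpa using this
  have h2 : ∑' m, ∫⁻ E, (μ m).rnDeriv volume E ≠ ⊤ := by
    have h3 : ∑' m, ∫⁻ E, (μ m).rnDeriv volume E ≤
        ∑' m : ℕ, ENNReal.ofReal (C ^ 2 * (1 / 4) ^ m) := by
      refine ENNReal.tsum_le_tsum fun m => ?_
      refine Measure.lintegral_rnDeriv_le.trans ?_
      refine (hmass m).trans ?_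
      apply ENNReal.ofReal_le_ofReal
      calc ‖g m‖ ^ 2 ≤ (C * (1 / 2) ^ m) ^ 2 :=
            pow_le_pow_left₀ (norm_nonneg _) (hg m) 2
        _ = C ^ 2 * (1 / 4) ^ m := by
            rw [mul_pow, ← pow_mul, mul_comm m 2, pow_mul]
            norm_num
    refine ne_top_of_le_ne_top ?_ h3
    have hs : Summable fun m : ℕ => C ^ 2 * (1 / 4 : ℝ) ^ m :=
      (summable_geometric_of_lt_one (by norm_num) (by norm_num)).mul_left _
    rw [← ENNReal.ofReal_tsum_of_nonneg (fun m => by positivity) hs]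
    exact ENNReal.ofReal_ne_top
  have h4 : ∀ᵐ E : ℝ, ∑' m, (μ m).rnDeriv volume E < ⊤ := by
    refine ae_lt_top ?_ ?_
    · exact Measurable.tsum fun m => Measure.measurable_rnDeriv _ _
    · rw [lintegral_tsum fun m => (Measure.measurable_rnDeriv _ _).aemeasurable]
      exact h2
  filter_upwards [h1, h4] with E hE1 hE2
  intro δ hδ
  have h5 : Tendsto (fun m => (μ m).rnDeriv volume E) atTop (𝓝 0) :=
    ENNReal.tendsto_atTop_zero_of_tsum_ne_top hE2.ne
  have h6 : Tendsto (fun m => Real.pi * ((μ m).rnDeriv volume E).toReal) atTop (𝓝 0) := by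
    have := ((ENNReal.tendsto_toReal ENNReal.zero_ne_top).comp h5).const_mul Real.pi
    simpa using this
  have h7 : ∀ᶠ m in atTop, Real.pi * ((μ m).rnDeriv volume E).toReal < δ ^ 2 :=
    h6.eventually (gt_mem_nhds (by positivity))
  obtain ⟨M, hM⟩ := eventually_atTop.1 h7
  refine ⟨M, fun m hm => ?_⟩
  filter_upwards [(hE1 m).eventually (gt_mem_nhds (hM m hm))] with k hk
  exact (abs_le_of_sq_le_sq' hk.le hδ.le).2

theorem bdd_ae {R : ℂ → X →L[ℂ] X} (hR : Sy R) (φ : X) :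
    ∀ᵐ E : ℝ, ∃ B : ℝ, ∀ k, qk R E k φ ≤ B := by
  obtain ⟨m, hm, _⟩ := spm_exists hR φ
  filter_upwards [qk_ae hR φ m hm] with E hE
  obtain ⟨B, hB⟩ := hE.bddAbove_range
  refine ⟨B + 1, fun k => ?_⟩
  have h1 : qk R E k φ ^ 2 ≤ B := hB ⟨k, rfl⟩
  nlinarith [sq_nonneg (qk R E k φ - 1), qk_nonneg R E k φ]

omit [CompleteSpace X] in
/-- an element of the cyclic space is like a combination of the generators at the energy `E` -/
theorem cyc_rep {R : ℂ → X →L[ℂ] X} (hR : Sy R) (E : ℝ) {n : ℕ} (f : Fin n → X) (v : X)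
    (hv : v ∈ cyc R f) :
    ∃ s : Fin n → ℂ, Tendsto (fun k => qk R E k (v - ∑ i, s i • f i)) atTop (𝓝 0) := by
  classical
  unfold cyc at hv
  induction hv using Submodule.span_induction with
  | mem x hx =>
    obtain ⟨i, w, hw, rfl⟩ := hx
    refine ⟨Pi.single i (((E : ℂ) - w)⁻¹), ?_⟩
    rw [Finset.sum_eq_single i]
    · rw [Pi.single_eq_same]
      exact qk_cyc hR E w hw (f i)
    · intro j _ hj
      rw [Pi.single_eq_of_ne hj, zero_smul]
    · intro h; exact absurd (Finset.mem_univ i) h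
  | zero =>
    refine ⟨0, ?_⟩
    simp [qk]
  | add x y _ _ hx hy =>
    obtain ⟨p, hp⟩ := hx
    obtain ⟨q, hq⟩ := hy
    refine ⟨p + q, ?_⟩
    have h := hp.add hq
    rw [add_zero] at h
    refine squeeze_zero (fun k => qk_nonneg _ _ _ _) (fun k => ?_) h
    have e : x + y - ∑ i, (p + q) i • f i = (x - ∑ i, p i • f i) + (y - ∑ i, q i • f i) := by
      simp only [Pi.add_apply, add_smul, Finset.sum_add_distrib]
      abel
    rw [e]
    exact qk_add _ _ _ _ _
  | smul a x _ hx =>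
    obtain ⟨p, hp⟩ := hx
    refine ⟨a • p, ?_⟩
    have h := hp.const_mul ‖a‖
    rw [mul_zero] at h
    refine h.congr fun k => ?_
    rw [← qk_smul, smul_sub, Finset.smul_sum]
    simp only [Pi.smul_apply, smul_assoc]

omit [CompleteSpace X] in
theorem rank_alg {R : ℂ → X →L[ℂ] X} (hR : Sy R) (E : ℝ) (n : ℕ) (f : Fin n → X)
    (g : Fin (n + 1) → X) (hg : ∀ j, g j ∈ cyc R f) :
    ∃ a : Fin (n + 1) → ℂ, ∑ j, ‖a j‖ ^ 2 = 1 ∧
      Tendsto (fun k => qk R E k (∑ j, a j • g j)) atTop (𝓝 0) := by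
  choose s hs using fun j => cyc_rep hR E f (g j) (hg j)
  obtain ⟨a, ha1, ha0⟩ := Pool.Agent.TH369.MU.RK1.exists_coeff n (fun i j => s j i)
  refine ⟨a, ha1, ?_⟩
  have e : ∑ j, a j • g j = ∑ j, a j • (g j - ∑ i, s j i • f i) := by
    simp only [smul_sub, Finset.sum_sub_distrib]
    have h0 : ∑ j, a j • ∑ i, s j i • f i = 0 := by
      simp only [Finset.smul_sum, smul_smul]
      rw [Finset.sum_comm]
      refine Finset.sum_eq_zero fun i _ => ?_
      rw [← Finset.sum_smul, ha0 i, zero_smul]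
    rw [h0, sub_zero]
  rw [e]
  have h6 : Tendsto (fun k => ∑ j, ‖a j‖ * qk R E k (g j - ∑ i, s j i • f i)) atTop
      (𝓝 (∑ j : Fin (n + 1), ‖a j‖ * 0)) :=
    tendsto_finsetSum _ (fun j _ => (hs j).const_mul _)
  simp only [mul_zero, Finset.sum_const_zero] at h6
  exact squeeze_zero (fun k => qk_nonneg _ _ _ _) (fun k => qk_sum _ _ _ _ _ _) h6

open Pool.Agent.TH369.MU.RK2 in
theorem rank_ae {R : ℂ → X →L[ℂ] X} (hR : Sy R) (n : ℕ) (f : Fin n → X)
    (g : Fin (n + 1) → X) (hg : ∀ j, g j ∈ (cyc R f).topologicalClosure) :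
    ∀ᵐ E : ℝ, ∃ a : Fin (n + 1) → ℂ, ∑ j, ‖a j‖ ^ 2 = 1 ∧
      Tendsto (fun k => qk R E k (∑ j, a j • g j)) atTop (𝓝 0) := by
  choose h hh hn using fun (j : Fin (n + 1)) (m : ℕ) => approx (cyc R f) (g j) (hg j) m
  have A2 : ∀ᵐ E : ℝ, ∀ j : Fin (n + 1), ∃ B : ℝ, ∀ k, qk R E k (g j) ≤ B := by
    rw [ae_all_iff]
    intro j
    exact bdd_ae hR _
  have A3 : ∀ᵐ E : ℝ, ∀ j : Fin (n + 1), ∀ δ > 0, ∃ M, ∀ m ≥ M, ∀ᶠ k in atTop,
      qk R E k (g j - h j m) ≤ δ := by
    rw [ae_all_iff]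
    intro j
    exact qk_lim hR (fun m => g j - h j m) 1 (hn j)
  filter_upwards [A2, A3] with E h2 h3
  choose B hB using h2
  choose a ha hat using fun m : ℕ => rank_alg hR E n f (fun j => h j m) (fun j => hh j m)
  obtain ⟨a0, ha0, ψ, hψ, hlim⟩ := (sphere_compact n).tendsto_subseq ha
  refine ⟨a0, ha0, ?_⟩
  refine tendsto_order.2 ⟨fun b hb => Eventually.of_forall fun k => hb.trans_le (qk_nonneg R E k _),
    fun b hb => ?_⟩
  -- the choice of m
  have hn0 : (0 : ℝ) < (n : ℝ) + 1 := by positivity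
  choose M hM using fun j => h3 j (b / (4 * ((n : ℝ) + 1))) (by positivity)
  have C1 : ∀ᶠ s in atTop, ∀ j, M j ≤ ψ s := by
    rw [eventually_all]
    intro j
    exact hψ.tendsto_atTop.eventually_ge_atTop (M j)
  have C2 : Tendsto (fun s => ∑ j, ‖a0 j - a (ψ s) j‖ * B j) atTop (𝓝 0) := by
    have : Tendsto (fun s => ∑ j, ‖a0 j - a (ψ s) j‖ * B j) atTop
        (𝓝 (∑ j, ‖a0 j - a0 j‖ * B j)) := by
      refine tendsto_finsetSum _ fun j _ => ?_
      refine Tendsto.mul_const _ ?_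
      refine (tendsto_const_nhds.sub ?_).norm
      exact (tendsto_pi_nhds.1 hlim) j
    simpa using this
  have C3 := C2.eventually (gt_mem_nhds (show (0 : ℝ) < b / 4 by positivity))
  obtain ⟨s, hs1, hs2⟩ := (C1.and C3).exists
  have D1 : ∀ᶠ k in atTop, ∀ j, qk R E k (g j - h j (ψ s)) ≤ b / (4 * ((n : ℝ) + 1)) := by
    rw [eventually_all]
    intro j
    exact hM j (ψ s) (hs1 j)
  have D2 := (hat (ψ s)).eventually (gt_mem_nhds (show (0 : ℝ) < b / 4 by positivity))
  filter_upwards [D1, D2] with k k1 k2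
  have e : ∑ j, a0 j • g j = ∑ j, (a0 j - a (ψ s) j) • g j +
      (∑ j, a (ψ s) j • (g j - h j (ψ s)) + ∑ j, a (ψ s) j • h j (ψ s)) := by
    rw [← Finset.sum_add_distrib, ← Finset.sum_add_distrib]
    refine Finset.sum_congr rfl fun j _ => ?_
    rw [sub_smul, smul_sub]
    abel
  rw [e]
  have E1 : qk R E k (∑ j, (a0 j - a (ψ s) j) • g j) ≤ ∑ j, ‖a0 j - a (ψ s) j‖ * B j :=
    (qk_sum R E k _ _ _).trans
      (Finset.sum_le_sum fun j _ => mul_le_mul_of_nonneg_left (hB j k) (norm_nonneg _))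
  have E2 : qk R E k (∑ j, a (ψ s) j • (g j - h j (ψ s))) ≤ b / 4 := by
    refine (qk_sum R E k _ _ _).trans ?_
    calc ∑ j, ‖a (ψ s) j‖ * qk R E k (g j - h j (ψ s))
        ≤ ∑ j : Fin (n + 1), 1 * (b / (4 * ((n : ℝ) + 1))) :=
          Finset.sum_le_sum fun j _ =>
            mul_le_mul (le_one (ha (ψ s)) j) (k1 j) (qk_nonneg R E k _) (by norm_num)
      _ = b / 4 := by
          rw [Finset.sum_const, Finset.card_univ, Fintype.card_fin, nsmul_eq_mul]
          push_cast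
          field_simp
  have E3 := qk_add R E k (∑ j, (a0 j - a (ψ s) j) • g j)
    (∑ j, a (ψ s) j • (g j - h j (ψ s)) + ∑ j, a (ψ s) j • h j (ψ s))
  have E4 := qk_add R E k (∑ j, a (ψ s) j • (g j - h j (ψ s))) (∑ j, a (ψ s) j • h j (ψ s))
  linarith

end Pool.Agent.L5helper74.IM
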