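import Pool.Agent.L5helper74.IM.Gr

/-! Gershgorin estimate for `n` sites with almost diagonal imaginary part. -/

set_option autoImplicit false

open MeasureTheory Filter Topology
open scoped InnerProductSpace

namespace Pool.Agent.L5helper74.IM

open Pool.Agent.TH369.AN (Zd L2 dl ee inner_dl norm_dl dl_apply iid)
open Pool.Agent.TH369.MU (ep zk)

variable {d : ℕ}

namespace GE

lemma ep_pos (k : ℕ) : 0 < ep k := by
  unfold ep
  positivity

lemma qk_sq {X : Type} [NormedAddCommGroup X] [InnerProductSpace ℂ X] (T : ℂ → X →L[ℂ] X)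
    (E : ℝ) (k : ℕ) (φ : X) : qk T E k φ ^ 2 = ep k * ‖T (zk E k) φ‖ ^ 2 := by
  unfold qk
  rw [mul_pow, Real.sq_sqrt (ep_pos k).le]

lemma qk_sum (σ : ℝ) (ω : Zd d → ℝ) (E : ℝ) (n : ℕ) (x : Fin n → Zd d) (k : ℕ) (a : Fin n → ℂ) :
    qk (RV (fun x => σ * ω x)) E k (∑ i, a i • dl (x i)) ^ 2 =
      ∑ i, ∑ j, ((starRingEnd ℂ) (a i) * a j).re * (Gk σ ω E k (x i) (x j)).im := by
  rw [qk_sq]
  set R := RV (fun x => σ * ω x) (zk E k) with hR
  have h1 : ((ep k * ‖R (∑ i, a i • dl (x i))‖ ^ 2 : ℝ) : ℂ) =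
      ∑ i, ∑ j, ((starRingEnd ℂ) (a i) * a j) * ((Gk σ ω E k (x i) (x j)).im : ℂ) := by
    rw [Complex.ofReal_mul, Complex.ofReal_pow]
    have h2 : ((‖R (∑ i, a i • dl (x i))‖ : ℝ) : ℂ) ^ 2 =
        ⟪R (∑ i, a i • dl (x i)), R (∑ i, a i • dl (x i))⟫_ℂ := by
      rw [inner_self_eq_norm_sq_to_K]
      rfl
    rw [h2, map_sum, sum_inner, Finset.mul_sum]
    refine Finset.sum_congr rfl fun i _ => ?_
    rw [inner_sum, Finset.mul_sum]
    refine Finset.sum_congr rfl fun j _ => ?_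
    rw [map_smul, map_smul, inner_smul_left, inner_smul_right, ← gk_inner σ ω E k (x i) (x j)]
    ring
  have h3 := congrArg Complex.re h1
  rw [Complex.ofReal_re, Complex.re_sum] at h3
  rw [h3]
  refine Finset.sum_congr rfl fun i _ => ?_
  rw [Complex.re_sum]
  refine Finset.sum_congr rfl fun j _ => ?_
  rw [Complex.mul_re, Complex.ofReal_re, Complex.ofReal_im, mul_zero, sub_zero]

end GE

theorem gersh (σ : ℝ) (ω : Zd d → ℝ) (E : ℝ) (n : ℕ) (x : Fin n → Zd d) (m : ℕ)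
    (h : ∀ᶠ k in atTop, (∀ i, ep m ≤ (Gk σ ω E k (x i) (x i)).im) ∧
      ∀ i j, i ≠ j → ‖Gk σ ω E k (x i) (x j)‖ ≤ ep m / (2 * ((n : ℝ) + 1)))
    (a : Fin n → ℂ) (ha : ∑ i, ‖a i‖ ^ 2 = 1) :
    ∀ᶠ k in atTop, ep m / 2 ≤ qk (RV (fun x => σ * ω x)) E k (∑ i, a i • dl (x i)) ^ 2 := by
  filter_upwards [h] with k hk
  rw [GE.qk_sum]
  have hm := GE.ep_pos m
  set δ : ℝ := ep m / (2 * ((n : ℝ) + 1)) with hδ
  have hn : (0 : ℝ) < (n : ℝ) + 1 := by positivity
  have hδ0 : 0 ≤ δ := by positivity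
  have key : ∀ i j, (if i = j then ‖a i‖ ^ 2 * ep m else 0) - ‖a i‖ * ‖a j‖ * δ ≤
      ((starRingEnd ℂ) (a i) * a j).re * (Gk σ ω E k (x i) (x j)).im := by
    intro i j
    by_cases hij : i = j
    · subst hij
      rw [if_pos rfl]
      have e1 : ((starRingEnd ℂ) (a i) * a i).re = ‖a i‖ ^ 2 := by
        rw [← Complex.normSq_eq_conj_mul_self, Complex.ofReal_re, Complex.normSq_eq_norm_sq]
      rw [e1]
      have e2 := mul_le_mul_of_nonneg_left (hk.1 i) (sq_nonneg ‖a i‖)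
      have e3 : 0 ≤ ‖a i‖ * ‖a i‖ * δ := by positivity
      linarith
    · rw [if_neg hij, zero_sub]
      have e1 : |((starRingEnd ℂ) (a i) * a j).re| ≤ ‖a i‖ * ‖a j‖ := by
        refine (Complex.abs_re_le_norm _).trans ?_
        rw [norm_mul, Complex.norm_conj]
      have e2 : |(Gk σ ω E k (x i) (x j)).im| ≤ δ :=
        (Complex.abs_im_le_norm _).trans (hk.2 i j hij)
      have e3 := mul_le_mul e1 e2 (abs_nonneg _) (by positivity)
      rw [← abs_mul] at e3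
      linarith [neg_abs_le (((starRingEnd ℂ) (a i) * a j).re * (Gk σ ω E k (x i) (x j)).im)]
  have hsum := Finset.sum_le_sum fun i (_ : i ∈ Finset.univ) =>
    Finset.sum_le_sum fun j (_ : j ∈ Finset.univ) => key i j
  have e1 : ∑ i, ∑ j, ((if i = j then ‖a i‖ ^ 2 * ep m else 0) - ‖a i‖ * ‖a j‖ * δ) =
      ep m - (∑ i, ‖a i‖) ^ 2 * δ := by
    simp only [Finset.sum_sub_distrib, Finset.sum_ite_eq, Finset.mem_univ, if_true]
    rw [← Finset.sum_mul, ha, one_mul, sq, Finset.sum_mul_sum, Finset.sum_mul]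
    simp only [Finset.sum_mul]
  have e2 : (∑ i, ‖a i‖) ^ 2 ≤ n := by
    have := sq_sum_le_card_mul_sum_sq (s := (Finset.univ : Finset (Fin n))) (f := fun i => ‖a i‖)
    rw [ha, Finset.card_univ, Fintype.card_fin, mul_one] at this
    exact this
  have e3 : (∑ i, ‖a i‖) ^ 2 * δ ≤ ep m / 2 := by
    refine (mul_le_mul_of_nonneg_right e2 hδ0).trans ?_
    rw [hδ]
    rw [mul_div_assoc', div_le_div_iff₀ (by positivity) (by norm_num)]
    nlinarith [hm]
  rw [e1] at hsum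
  linarith

end Pool.Agent.L5helper74.IM
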