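import Pool.Agent.L5helper74.IM.Sa
import Pool.Agent.L5helper74.IM.Ge

/-!
# Deterministic conclusion for the sites
(job MU-F1 of helper369, written by helper556)
-/

set_option autoImplicit false
open MeasureTheory Filter Topology
open scoped InnerProductSpace
namespace Pool.Agent.L5helper74.IM
open Pool.Agent.TH369.AN (Zd L2 dl ee inner_dl norm_dl dl_apply iid)
open Pool.Agent.TH369.MU (ep zk)
variable {d : ℕ}

namespace F1

/-- orthogonal decomposition with respect to the closed cyclic space -/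
lemma decomp {X : Type} [NormedAddCommGroup X] [InnerProductSpace ℂ X] [CompleteSpace X]
    (T : ℂ → X →L[ℂ] X) (n : ℕ) (f : Fin n → X) (v : X) :
    ∃ h g : X, v = h + g ∧ h ∈ (cyc T f).topologicalClosure ∧
      ∀ (i : Fin n) (w : ℂ), w.im ≠ 0 → ⟪g, T w (f i)⟫_ℂ = 0 := by
  have : CompleteSpace (cyc T f).topologicalClosure :=
    (Submodule.isClosed_topologicalClosure (cyc T f)).completeSpace_coe
  obtain ⟨h, hh, g, hg, hv⟩ := (cyc T f).topologicalClosure.exists_add_mem_mem_orthogonal v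
  refine ⟨h, g, hv, hh, fun i w hw => ?_⟩
  rw [Submodule.mem_orthogonal'] at hg
  exact hg _ (Submodule.le_topologicalClosure _ (Submodule.subset_span ⟨i, w, hw, rfl⟩))

lemma ep_pos (k : ℕ) : 0 < ep k := by
  unfold ep
  positivity

end F1

theorem sites (σ : ℝ) (ω : Zd d → ℝ) (hS : ∀ᵐ E : ℝ, Star σ E ω) (n : ℕ)
    (f : Fin n → L2 d) (A : Set ℝ) (hA : MeasurableSet A)
    (h : ∀ g : L2 d, (∀ (i : Fin n) (w : ℂ), w.im ≠ 0 → ⟪g, RV (fun x => σ * ω x) w (f i)⟫_ℂ = 0) →
      ∀ m : Measure ℝ, SpM (RV (fun x => σ * ω x)) g m → (m.restrict A) ⟂ₘ volume)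
    (x : Zd d) : ∀ᵐ E : ℝ, E ∈ A →
      Tendsto (fun k => qk (RV (fun x => σ * ω x)) E k (dl x)) atTop (𝓝 0) := by
  have hT := rv_sy (fun x => σ * ω x)
  choose hh gg hv hmem hort using fun y : Zd d => F1.decomp (RV (fun x => σ * ω x)) n f (dl y)
  have h1 : ∀ᵐ E : ℝ, ∀ y : Zd d, E ∈ A →
      Tendsto (fun k => qk (RV (fun x => σ * ω x)) E k (gg y)) atTop (𝓝 0) := by
    rw [ae_all_iff]
    intro y
    obtain ⟨m, hm, -⟩ := spm_exists hT (gg y)
    exact (sing_iff hT (gg y) m hm A hA).1 (h (gg y) (hort y) m hm)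
  have h2 : ∀ᵐ E : ℝ, ∀ y : Fin (n + 1) → Zd d, ∃ a : Fin (n + 1) → ℂ, ∑ j, ‖a j‖ ^ 2 = 1 ∧
      Tendsto (fun k => qk (RV (fun x => σ * ω x)) E k (∑ j, a j • hh (y j)))
        atTop (𝓝 0) := by
    rw [ae_all_iff]
    intro y
    exact rank_ae hT n f (fun j => hh (y j)) (fun j => hmem (y j))
  have h3 : ∀ᵐ E : ℝ, ∃ l : ℝ,
      Tendsto (fun k => qk (RV (fun x => σ * ω x)) E k (dl x) ^ 2) atTop (𝓝 l) := by
    obtain ⟨m, hm, -⟩ := spm_exists hT (dl x)
    filter_upwards [qk_ae hT (dl x) m hm] with E hE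
    exact ⟨_, hE⟩
  filter_upwards [h1, h2, h3, hS] with E e1 e2 e3 e4 hEA
  obtain ⟨l, hl⟩ := e3
  have him : ∀ k, (Gk σ ω E k x x).im = qk (RV (fun x => σ * ω x)) E k (dl x) ^ 2 :=
    fun k => (qk_sq hT E k (dl x)).symm
  have hl0 : 0 ≤ l := ge_of_tendsto' hl (fun k => sq_nonneg _)
  have hkap : kap σ E x ω = ENNReal.ofReal l := by
    unfold kap
    simp_rw [him]
    exact ((ENNReal.continuous_ofReal.tendsto l).comp hl).liminf_eq
  by_cases hpos : ∃ y : Zd d, 0 < kap σ E y ω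
  · exfalso
    obtain ⟨y, m, hy⟩ := e4 hpos (n + 1)
    obtain ⟨a, ha, hlim⟩ := e2 y
    have hg := gersh σ ω E (n + 1) y m hy a ha
    have hlim2 : Tendsto (fun k => qk (RV (fun x => σ * ω x)) E k (∑ j, a j • dl (y j)))
        atTop (𝓝 0) := by
      refine squeeze_zero (g := fun k => qk (RV (fun x => σ * ω x)) E k
        (∑ j, a j • hh (y j)) + ∑ j, ‖a j‖ * qk (RV (fun x => σ * ω x)) E k (gg (y j)))
        (fun k => qk_nonneg _ _ _ _) (fun k => ?_) ?_
      · have h5 : ∑ j, a j • dl (y j) = ∑ j, a j • hh (y j) + ∑ j, a j • gg (y j) := by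
          rw [← Finset.sum_add_distrib]
          exact Finset.sum_congr rfl (fun j _ => by rw [← smul_add, ← hv])
        rw [h5]
        exact (qk_add _ _ _ _ _).trans (add_le_add le_rfl
          (qk_sum _ E k Finset.univ a (fun j => gg (y j))))
      · have h6 : Tendsto (fun k => ∑ j, ‖a j‖ * qk (RV (fun x => σ * ω x)) E k (gg (y j)))
            atTop (𝓝 (∑ j : Fin (n + 1), ‖a j‖ * 0)) :=
          tendsto_finsetSum _ (fun j _ => (e1 (y j) hEA).const_mul _)
        simpa using hlim.add h6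
    have hlim3 := hlim2.pow 2
    have h7 : (0 : ℝ) ^ 2 < ep m / 2 := by
      have := F1.ep_pos m
      norm_num
      exact this
    obtain ⟨k, hk1, hk2⟩ := (hg.and (hlim3.eventually (gt_mem_nhds h7))).exists
    exact absurd hk1 (not_le.2 hk2)
  · push Not at hpos
    have h8 := hpos x
    rw [hkap] at h8
    have h9 : l = 0 := le_antisymm (by simpa using h8) hl0
    rw [h9] at hl
    have h10 := (Real.continuous_sqrt.tendsto 0).comp hl
    rw [Real.sqrt_zero] at h10
    refine h10.congr (fun k => ?_)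
    exact Real.sqrt_sq (qk_nonneg _ _ _ _)

end Pool.Agent.L5helper74.IM
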