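import Pool.Agent.L5helper74.IM.Gr
import Pool.Agent.TH369.MU.F2

/-!
# Job MU-F2 of helper369 (written by helper767): from the sites to all vectors
-/

set_option autoImplicit false

open MeasureTheory Filter Topology
open scoped InnerProductSpace

namespace Pool.Agent.L5helper74.IM

open Pool.Agent.TH369.AN (Zd L2 dl ee inner_dl norm_dl dl_apply iid)
open Pool.Agent.TH369.MU (ep zk)

variable {d : ℕ}



theorem all_vectors (σ : ℝ) (ω : Zd d → ℝ) (A : Set ℝ) (hA : MeasurableSet A)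
    (h : ∀ x : Zd d, ∀ᵐ E : ℝ, E ∈ A →
      Tendsto (fun k => qk (RV (fun x => σ * ω x)) E k (dl x)) atTop (𝓝 0))
    (g : L2 d) : ∀ᵐ E : ℝ, E ∈ A →
      Tendsto (fun k => qk (RV (fun x => σ * ω x)) E k g) atTop (𝓝 0) := by
  have _ := hA
  choose s hs using fun m : ℕ => Pool.Agent.TH369.MU.F2.approx g ((1 / 2 : ℝ) ^ m) (by positivity)
  have h1 := qk_lim (rv_sy (fun x => σ * ω x))
    (fun m => g - ∑ x ∈ s m, (g : Zd d → ℂ) x • dl x) 1 (fun m => by
      rw [one_mul]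
      exact hs m)
  filter_upwards [h1, ae_all_iff.2 h] with E h2 h3 hE
  rw [Metric.tendsto_atTop]
  intro δ hδ
  obtain ⟨M, hM⟩ := h2 (δ / 2) (by positivity)
  have h4 := hM M le_rfl
  have h5 : Tendsto (fun k => ∑ x ∈ s M, ‖(g : Zd d → ℂ) x‖ *
      qk (RV (fun x => σ * ω x)) E k (dl x)) atTop (𝓝 0) := by
    have h6 := tendsto_finsetSum (s M) (fun x (_ : x ∈ s M) =>
      (h3 x hE).const_mul ‖(g : Zd d → ℂ) x‖)
    simpa using h6
  have h7 : ∀ᶠ k in atTop, ∑ x ∈ s M, ‖(g : Zd d → ℂ) x‖ *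
      qk (RV (fun x => σ * ω x)) E k (dl x) < δ / 2 :=
    h5.eventually_lt_const (by positivity)
  obtain ⟨N, hN⟩ := eventually_atTop.1 (h4.and h7)
  refine ⟨N, fun k hk => ?_⟩
  obtain ⟨h8, h9⟩ := hN k hk
  rw [Real.dist_eq, sub_zero, abs_of_nonneg (qk_nonneg _ _ _ _)]
  have h10 : g = (g - ∑ x ∈ s M, (g : Zd d → ℂ) x • dl x) +
      ∑ x ∈ s M, (g : Zd d → ℂ) x • dl x := by
    rw [sub_add_cancel]
  have h11 := qk_add (RV (fun x => σ * ω x)) E k
    (g - ∑ x ∈ s M, (g : Zd d → ℂ) x • dl x) (∑ x ∈ s M, (g : Zd d → ℂ) x • dl x)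
  rw [← h10] at h11
  have h12 := qk_sum (RV (fun x => σ * ω x)) E k (s M) (fun x => (g : Zd d → ℂ) x) dl
  linarith

end Pool.Agent.L5helper74.IM
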