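import Pool.Agent.L5helper74.IM.F1
import Pool.Agent.L5helper74.IM.F2

/-!
# Finitely many vectors never generate the absolutely continuous part; passage to functions
-/

set_option autoImplicit false

open MeasureTheory Filter Topology
open scoped InnerProductSpace

namespace Pool.Agent.L5helper74.IM

open Pool.Agent.TH369.AN (Zd L2 dl ee inner_dl norm_dl dl_apply iid)
open Pool.Agent.TH369.MU (ep zk)

variable {d : ℕ}

theorem fin_mult (hd : 0 < d) (σ : ℝ) (μ : Measure ℝ) [IsProbabilityMeasure μ]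
    (hσ : σ ≠ 0) (hnd : ∀ x : ℝ, μ {x} ≠ 1) :
    ∀ᵐ ω ∂(iid d μ), ∀ (n : ℕ) (f : Fin n → L2 d) (A : Set ℝ), MeasurableSet A →
      (∀ g : L2 d, (∀ (i : Fin n) (w : ℂ), w.im ≠ 0 →
          ⟪g, RV (fun x => σ * ω x) w (f i)⟫_ℂ = 0) →
        ∀ m : Measure ℝ, SpM (RV (fun x => σ * ω x)) g m → (m.restrict A) ⟂ₘ volume) →
      ∀ (g : L2 d) (m : Measure ℝ), SpM (RV (fun x => σ * ω x)) g m →
        (m.restrict A) ⟂ₘ volume := by
  filter_upwards [star_ae hd σ μ hσ hnd] with ω hω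
  intro n f A hA h g m hm
  exact (sing_iff (rv_sy _) g m hm A hA).2
    (all_vectors σ ω A hA (sites σ ω hω n f A hA h) g)

/-- square summable functions -/
def Sq (u : Zd d → ℂ) : Prop := Summable fun x => ‖u x‖ ^ 2

theorem mem_l2 {u : Zd d → ℂ} (hu : Sq u) : Memℓp u 2 := by
  rw [memℓp_gen_iff (by norm_num)]
  simpa [Sq] using hu

theorem l2_mem (u : L2 d) : Sq (u : Zd d → ℂ) := by
  have h := (lp.memℓp u).summable (by simp)
  simpa [Sq] using h

/-- the operator on functions -/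
noncomputable def HV (V : Zd d → ℝ) (u : Zd d → ℂ) (x : Zd d) : ℂ :=
  ∑ i : Fin d, (u (x + Pi.single i 1) + u (x - Pi.single i 1)) + (V x : ℂ) * u x

/-- spectral measure, on functions -/
def IsSpec (A : (Zd d → ℂ) → Zd d → ℂ) (g : Zd d → ℂ) (m : Measure ℝ) : Prop :=
  IsFiniteMeasure m ∧ ∀ z : ℂ, z.im ≠ 0 → ∃ u : Zd d → ℂ, Sq u ∧
    (∀ x, A u x - z * u x = g x) ∧
    ∫ t : ℝ, ((t : ℂ) - z)⁻¹ ∂m = ∑' x, (starRingEnd ℂ) (g x) * u x

theorem sol_fun {V : Zd d → ℝ} {z : ℂ} {u g : L2 d} :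
    IsSol V z u g ↔ ∀ x, HV V (u : Zd d → ℂ) x - z * (u : Zd d → ℂ) x = (g : Zd d → ℂ) x := by
  unfold IsSol HV
  simp only [Ad_apply]
  rfl

theorem inner_fun (g u : L2 d) :
    ⟪g, u⟫_ℂ = ∑' x, (starRingEnd ℂ) ((g : Zd d → ℂ) x) * (u : Zd d → ℂ) x := by
  rw [lp.inner_eq_tsum]
  refine tsum_congr fun x => ?_
  rw [RCLike.inner_apply, mul_comm]

theorem spec_iff (V : Zd d → ℝ) (g : Zd d → ℂ) (G : L2 d) (hG : ∀ x, G x = g x)
    (m : Measure ℝ) : IsSpec (HV V) g m ↔ SpM (RV V) G m := by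
  constructor
  · rintro ⟨h1, h2⟩
    refine ⟨h1, fun z hz => ?_⟩
    obtain ⟨u, hu, hu1, hu2⟩ := h2 z hz
    let w : L2 d := ⟨u, mem_l2 hu⟩
    have hw : IsSol V z w G := sol_fun.2 fun x => by
      rw [hG x]
      exact hu1 x
    rw [hu2, ← rv_uniq hz hw, inner_fun]
    refine tsum_congr fun x => ?_
    rw [hG x]
  · rintro ⟨h1, h2⟩
    refine ⟨h1, fun z hz => ⟨fun x => (RV V z G : Zd d → ℂ) x, l2_mem _, fun x => ?_, ?_⟩⟩
    · rw [← hG x]
      exact sol_fun.1 (rv_sol V z hz G) x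
    · rw [← h2 z hz, inner_fun]
      refine tsum_congr fun x => ?_
      rw [hG x]

end Pool.Agent.L5helper74.IM
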