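import Pool.Agent.L5helper74.IM.Gr
set_option autoImplicit false
open MeasureTheory Filter Topology
open scoped InnerProductSpace
namespace Pool.Agent.L5helper74.IM
open Pool.Agent.TH369.AN (Zd L2 dl ee inner_dl norm_dl dl_apply iid)
open Pool.Agent.TH369.MU (ep zk)
variable {d : ℕ}

namespace GA

theorem meas_im (σ : ℝ) (k : ℕ) (x : Zd d) :
    Measurable fun p : (Zd d → ℝ) × ℝ => (Gk σ p.1 p.2 k x x).im :=
  Complex.measurable_im.comp (gk_meas2 σ k x x)

theorem meas_kap (σ : ℝ) (x : Zd d) :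
    Measurable fun p : (Zd d → ℝ) × ℝ => kap σ p.2 x p.1 := by
  unfold kap
  exact Measurable.liminf fun k => (meas_im σ k x).ennreal_ofReal

theorem meas_good (σ : ℝ) :
    MeasurableSet {p : (Zd d → ℝ) × ℝ | Good σ p.2 p.1} := by
  have h0 : {p : (Zd d → ℝ) × ℝ | Good σ p.2 p.1} = ⋂ x : Zd d,
      {p : (Zd d → ℝ) × ℝ | ∃ l : ℝ, Tendsto (fun k => (Gk σ p.1 p.2 k x x).im) atTop (𝓝 l)} ∩
      ({p : (Zd d → ℝ) × ℝ | 0 < kap σ p.2 x p.1}ᶜ ∪
        {p : (Zd d → ℝ) × ℝ | ∃ L : ℂ, Tendsto (fun k => Gk σ p.1 p.2 k x x) atTop (𝓝 L)}) := by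
    ext p
    simp only [Good, Set.mem_ofPred_eq, Set.mem_iInter, Set.mem_inter_iff, Set.mem_union,
      Set.mem_compl_iff, imp_iff_not_or]
  rw [h0]
  refine MeasurableSet.iInter fun x => ?_
  refine (measurableSet_exists_tendsto fun k => meas_im σ k x).inter ?_
  refine MeasurableSet.union ?_ (measurableSet_exists_tendsto fun k => gk_meas2 σ k x x)
  exact (measurableSet_lt measurable_const (meas_kap σ x)).compl

end GA

theorem good_ae (σ : ℝ) (μ : Measure ℝ) [IsProbabilityMeasure μ] :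
    ∀ᵐ E : ℝ, ∀ᵐ ω ∂(iid d μ), Good σ E ω := by
  have : IsProbabilityMeasure (iid d μ) := by unfold iid; infer_instance
  exact (Measure.ae_ae_comm (μ := iid d μ) (ν := (volume : Measure ℝ))
    (p := fun ω E => Good σ E ω) (GA.meas_good σ)).1
    (Eventually.of_forall fun ω => good_fixed σ ω)

end Pool.Agent.L5helper74.IM
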