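import Pool.Agent.L5helper74.IM.Lat
import Pool.Agent.L5helper74.IM.Abs
import Pool.Agent.TH369.MU.RP
import Pool.Agent.TH369.MU.W3
import Pool.Agent.TH369.MU.SY
import Pool.Agent.TH369.MU.MJ

/-!
# Green's function of `Δ + s ω`
-/

set_option autoImplicit false

open MeasureTheory Filter Topology
open scoped InnerProductSpace

namespace Pool.Agent.L5helper74.IM

open Pool.Agent.TH369.AN (Zd L2 dl ee inner_dl norm_dl dl_apply)
open Pool.Agent.TH369.MU (ep zk)

variable {d : ℕ}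

/-! ### continuity of the resolvent in the potential -/

theorem sol_fin (V : Zd d → ℝ) (z : ℂ) (F : Finset (Zd d)) (c : Zd d → ℂ) :
    IsSol V z (∑ x ∈ F, c x • dl x)
      (Ad d (∑ x ∈ F, c x • dl x) + ∑ x ∈ F, ((V x : ℂ) * c x) • dl x
        - z • ∑ x ∈ F, c x • dl x) := by
  intro y
  rw [lp.coeFn_sub, lp.coeFn_add, lp.coeFn_smul, Pi.sub_apply, Pi.add_apply, Pi.smul_apply,
    smul_eq_mul, Pool.Agent.TH369.AN.OP.coe_sum F (fun x => c x • (dl x : L2 d)) y,
    Pool.Agent.TH369.AN.OP.coe_sum F (fun x => ((V x : ℂ) * c x) • (dl x : L2 d)) y]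
  congr 2
  rw [Finset.mul_sum]
  refine Finset.sum_congr rfl fun x _ => ?_
  rw [lp.coeFn_smul, lp.coeFn_smul, Pi.smul_apply, Pi.smul_apply, smul_eq_mul, smul_eq_mul,
    dl_apply]
  by_cases h : y = x
  · rw [h]
    ring
  · rw [if_neg h]
    ring

theorem hasSum_dl (u : L2 d) : HasSum (fun x : Zd d => (u : Zd d → ℂ) x • dl x) u := by
  have h2 := lp.hasSum_single (p := 2) (by norm_num) u
  have h0 : (fun x : Zd d => (u : Zd d → ℂ) x • dl x) =
      fun x : Zd d => lp.single 2 x ((u : Zd d → ℂ) x) := by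
    funext x
    unfold dl
    rw [← lp.single_smul, smul_eq_mul, mul_one]
  rw [h0]
  exact h2

/-- the resolvent is strongly continuous in the potential, with the product topology -/
theorem rv_cont (z : ℂ) (hz : z.im ≠ 0) (g : L2 d) :
    Continuous fun V : Zd d → ℝ => RV V z g := by
  rw [continuous_iff_continuousAt]
  intro V
  rw [ContinuousAt, Metric.tendsto_nhds]
  intro ε hε
  have hz0 : 0 < |z.im| := abs_pos.2 hz
  obtain ⟨u, hu⟩ : ∃ u, u = RV V z g := ⟨_, rfl⟩
  have hsol : IsSol V z u g := by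
    rw [hu]
    exact rv_sol V z hz g
  obtain ⟨p, hp⟩ : ∃ p : L2 d, p = g + z • u - Ad d u := ⟨_, rfl⟩
  have hpx : ∀ x, (p : Zd d → ℂ) x = (V x : ℂ) * (u : Zd d → ℂ) x := by
    intro x
    rw [hp, lp.coeFn_sub, lp.coeFn_add, lp.coeFn_smul, Pi.sub_apply, Pi.add_apply, Pi.smul_apply,
      smul_eq_mul, ← hsol x]
    ring
  -- finite truncations
  have t1 : Tendsto (fun F : Finset (Zd d) => ∑ x ∈ F, (u : Zd d → ℂ) x • dl x) atTop (𝓝 u) :=
    hasSum_dl u
  have t2 : Tendsto (fun F : Finset (Zd d) => ∑ x ∈ F, ((V x : ℂ) * (u : Zd d → ℂ) x) • dl x)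
      atTop (𝓝 p) := by
    have h := hasSum_dl p
    simp only [hpx] at h
    exact h
  have t3 : Tendsto (fun F : Finset (Zd d) => Ad d (∑ x ∈ F, (u : Zd d → ℂ) x • dl x) +
      ∑ x ∈ F, ((V x : ℂ) * (u : Zd d → ℂ) x) • dl x - z • ∑ x ∈ F, (u : Zd d → ℂ) x • dl x) atTop
      (𝓝 (Ad d u + p - z • u)) :=
    ((((Ad d).continuous.tendsto u).comp t1).add t2).sub (t1.const_smul z)
  have e3 : Ad d u + p - z • u = g := by
    rw [hp]
    abel
  rw [e3] at t3
  obtain ⟨η, hη⟩ : ∃ η, η = ε * |z.im| / 4 := ⟨_, rfl⟩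
  have hη0 : 0 < η := by
    rw [hη]
    positivity
  obtain ⟨F, hF⟩ := (Metric.tendsto_nhds.1 t3 η hη0).exists
  rw [dist_eq_norm] at hF
  -- the potentials near `V`
  have t4 : Tendsto (fun W : Zd d → ℝ => ‖(∑ x ∈ F, ((W x : ℂ) * (u : Zd d → ℂ) x) • dl x) -
      ∑ x ∈ F, ((V x : ℂ) * (u : Zd d → ℂ) x) • dl x‖) (𝓝 V) (𝓝 0) := by
    have h : Continuous fun W : Zd d → ℝ => ‖(∑ x ∈ F, ((W x : ℂ) * (u : Zd d → ℂ) x) • dl x) -
      ∑ x ∈ F, ((V x : ℂ) * (u : Zd d → ℂ) x) • dl x‖ := by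
      refine Continuous.norm (Continuous.sub ?_ continuous_const)
      refine continuous_finsetSum _ fun x _ => ?_
      have h5 : Continuous fun W : Zd d → ℝ => (W x : ℂ) :=
        Complex.continuous_ofReal.comp (continuous_apply x)
      exact (h5.mul continuous_const).smul continuous_const
    have h1 := h.tendsto V
    rw [sub_self, norm_zero] at h1
    exact h1
  filter_upwards [t4.eventually_lt_const hη0] with W hW
  obtain ⟨w, hw⟩ : ∃ w : L2 d, w = ∑ x ∈ F, (u : Zd d → ℂ) x • dl x := ⟨_, rfl⟩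
  have sV := sol_fin V z F (fun x => (u : Zd d → ℂ) x)
  have sW := sol_fin W z F (fun x => (u : Zd d → ℂ) x)
  rw [← hw] at sV sW hF
  obtain ⟨a, ha⟩ : ∃ a : L2 d, a = ∑ x ∈ F, ((V x : ℂ) * (u : Zd d → ℂ) x) • dl x := ⟨_, rfl⟩
  obtain ⟨b, hb⟩ : ∃ b : L2 d, b = ∑ x ∈ F, ((W x : ℂ) * (u : Zd d → ℂ) x) • dl x := ⟨_, rfl⟩
  rw [← ha] at sV hF hW
  rw [← hb] at sW hW
  have b1 : RV V z g - w = RV V z (g - (Ad d w + a - z • w)) :=
    rv_uniq hz (sol_sub (rv_sol V z hz g) sV)
  have b2 : RV W z g - w = RV W z (g - (Ad d w + b - z • w)) :=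
    rv_uniq hz (sol_sub (rv_sol W z hz g) sW)
  have n1 : ‖RV V z g - w‖ ≤ η / |z.im| := by
    rw [b1]
    refine (sy_norm (rv_sy V) z hz _).trans ?_
    refine div_le_div_of_nonneg_right ?_ (abs_nonneg _)
    rw [norm_sub_rev]
    exact hF.le
  have n2 : ‖RV W z g - w‖ ≤ (η + η) / |z.im| := by
    rw [b2]
    refine (sy_norm (rv_sy W) z hz _).trans ?_
    refine div_le_div_of_nonneg_right ?_ (abs_nonneg _)
    have e : g - (Ad d w + b - z • w) = (g - (Ad d w + a - z • w)) + (a - b) := by abel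
    rw [e]
    refine (norm_add_le _ _).trans (add_le_add ?_ ?_)
    · rw [norm_sub_rev]
      exact hF.le
    · rw [norm_sub_rev]
      exact hW.le
  rw [dist_eq_norm]
  have e : RV W z g - RV V z g = (RV W z g - w) - (RV V z g - w) := by abel
  rw [e]
  refine lt_of_le_of_lt (norm_sub_le _ _) ?_
  refine lt_of_le_of_lt (add_le_add n2 n1) ?_
  rw [← add_div, div_lt_iff₀ hz0, hη]
  have : 0 < ε * |z.im| := by positivity
  linarith

/-! ### the rank one perturbation -/

theorem rv_update (V : Zd d → ℝ) (z : ℂ) (hz : z.im ≠ 0) (y : Zd d) (t : ℝ) (g : L2 d) :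
    RV (Function.update V y t) z g = RV V z g -
      (((t - V y : ℝ) : ℂ) * (RV (Function.update V y t) z g : Zd d → ℂ) y) • RV V z (dl y) := by
  obtain ⟨u, hu⟩ : ∃ u, u = RV (Function.update V y t) z g := ⟨_, rfl⟩
  have hsol : IsSol (Function.update V y t) z u g := by
    rw [hu]
    exact rv_sol _ z hz g
  rw [← hu]
  rw [← map_smul, ← map_sub]
  refine rv_uniq hz fun x => ?_
  rw [lp.coeFn_sub, lp.coeFn_smul, Pi.sub_apply, Pi.smul_apply, smul_eq_mul, dl_apply]
  have h := hsol x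
  by_cases hx : x = y
  · rw [hx] at h ⊢
    rw [Function.update_self] at h
    rw [if_pos rfl, ← h]
    push_cast
    ring
  · rw [Function.update_of_ne hx] at h
    rw [if_neg hx, h]
    ring

/-! ### symmetry -/

theorem star_Ad (u : L2 d) : Ad d (star u) = star (Ad d u) := by
  refine lp.ext (funext fun x => ?_)
  rw [Pool.Agent.TH369.MU.SY.star_apply, Ad_apply, Ad_apply, star_sum]
  refine Finset.sum_congr rfl fun i _ => ?_
  rw [star_add, Pool.Agent.TH369.MU.SY.star_apply, Pool.Agent.TH369.MU.SY.star_apply]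

theorem sol_star {V : Zd d → ℝ} {z : ℂ} {u g : L2 d} (h : IsSol V z u g) :
    IsSol V ((starRingEnd ℂ) z) (star u) (star g) := by
  intro x
  have h1 := congrArg star (h x)
  rw [star_Ad, Pool.Agent.TH369.MU.SY.star_apply, Pool.Agent.TH369.MU.SY.star_apply,
    Pool.Agent.TH369.MU.SY.star_apply, ← h1, star_sub, star_add, star_mul', star_mul']
  have h2 : star ((V x : ℝ) : ℂ) = (V x : ℂ) := Complex.conj_ofReal _
  rw [h2]
  rfl

theorem rv_symm (V : Zd d → ℝ) (z : ℂ) (hz : z.im ≠ 0) (x y : Zd d) :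
    ⟪dl x, RV V z (dl y)⟫_ℂ = ⟪dl y, RV V z (dl x)⟫_ℂ := by
  have h1 := rv_sol V z hz (dl y)
  have h2 := sol_star (rv_sol V z hz (dl x))
  rw [Pool.Agent.TH369.MU.SY.star_dl] at h2
  have h3 := sol_symm h2 h1
  rw [inner_add_left, inner_add_right, inner_smul_left, inner_smul_right, Complex.conj_conj] at h3
  have h4 : ⟪dl x, RV V z (dl y)⟫_ℂ = ⟪star (RV V z (dl x)), (dl y : L2 d)⟫_ℂ := by
    linear_combination h3
  rw [h4, ← inner_conj_symm, inner_dl, inner_dl, Pool.Agent.TH369.MU.SY.star_apply]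
  exact Complex.conj_conj _

/-! ### Green's function -/

/-- Green's function of `Δ + s ω` at `z_k` -/
noncomputable def Gk (s : ℝ) (ω : Zd d → ℝ) (E : ℝ) (k : ℕ) (x y : Zd d) : ℂ :=
  ⟪dl x, RV (fun x => s * ω x) (zk E k) (dl y)⟫_ℂ

/-- `π` times the density at `E` of the spectral measure of the site `x` -/
noncomputable def kap (s E : ℝ) (x : Zd d) (ω : Zd d → ℝ) : ENNReal :=
  liminf (fun k => ENNReal.ofReal (Gk s ω E k x x).im) atTop

/-- boundary values exist at `E` -/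
def Good (s E : ℝ) (ω : Zd d → ℝ) : Prop := ∀ x : Zd d,
  (∃ l : ℝ, Tendsto (fun k => (Gk s ω E k x x).im) atTop (𝓝 l)) ∧
  (0 < kap s E x ω → ∃ L : ℂ, Tendsto (fun k => Gk s ω E k x x) atTop (𝓝 L))

/-- if the density is positive somewhere then it is positive and almost diagonal on `n` sites -/
def Star (s E : ℝ) (ω : Zd d → ℝ) : Prop := (∃ x : Zd d, 0 < kap s E x ω) → ∀ n : ℕ,
  ∃ (x : Fin n → Zd d) (m : ℕ), ∀ᶠ k in atTop,
    (∀ i, ep m ≤ (Gk s ω E k (x i) (x i)).im) ∧
    ∀ i j, i ≠ j → ‖Gk s ω E k (x i) (x j)‖ ≤ ep m / (2 * ((n : ℝ) + 1))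

theorem gk_symm (s : ℝ) (ω : Zd d → ℝ) (E : ℝ) (k : ℕ) (x y : Zd d) :
    Gk s ω E k x y = Gk s ω E k y x := rv_symm _ _ (zk_im_ne E k) x y

theorem gk_inner (s : ℝ) (ω : Zd d → ℝ) (E : ℝ) (k : ℕ) (x y : Zd d) :
    (ep k : ℂ) * ⟪RV (fun x => s * ω x) (zk E k) (dl x),
      RV (fun x => s * ω x) (zk E k) (dl y)⟫_ℂ = ((Gk s ω E k x y).im : ℂ) := by
  rw [inner_rz (rv_sy _)]
  have h := gk_symm s ω E k y x
  unfold Gk at h
  rw [h]
  change (Gk s ω E k x y - (starRingEnd ℂ) (Gk s ω E k x y)) / (2 * Complex.I) = _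
  rw [Complex.sub_conj]
  have : (2 : ℂ) * Complex.I ≠ 0 := mul_ne_zero two_ne_zero Complex.I_ne_zero
  field_simp
  push_cast
  ring

theorem gk_pos (s : ℝ) (ω : Zd d → ℝ) (E : ℝ) (k : ℕ) (x : Zd d) : 0 < (Gk s ω E k x x).im := by
  have h := sy_im (rv_sy (fun x => s * ω x)) (zk E k) (zk_im_ne E k) (dl x)
  have hne : RV (fun x => s * ω x) (zk E k) (dl x) ≠ 0 := by
    intro h0
    have h1 := rv_sol (fun x => s * ω x) (zk E k) (zk_im_ne E k) (dl x) x
    rw [h0, map_zero, lp.coeFn_zero, Pi.zero_apply, mul_zero, mul_zero, add_zero, sub_zero,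
      dl_apply, if_pos rfl] at h1
    exact zero_ne_one h1
  have h2 : (Gk s ω E k x x).im = (zk E k).im * ‖RV (fun x => s * ω x) (zk E k) (dl x)‖ ^ 2 := h
  rw [h2, zk_im]
  have := ep_pos k
  have := norm_pos_iff.2 hne
  positivity

theorem gk_update (s : ℝ) (ω : Zd d → ℝ) (E : ℝ) (k : ℕ) (x y : Zd d) (t : ℝ) :
    (Gk s (Function.update ω y t) E k x x - Gk s ω E k x x) *
      (1 + ((s * (t - ω y) : ℝ) : ℂ) * Gk s ω E k y y) =
      -(((s * (t - ω y) : ℝ) : ℂ) * Gk s ω E k x y ^ 2) := by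
  have hz := zk_im_ne E k
  have hup : (fun x => s * Function.update ω y t x) =
      Function.update (fun x => s * ω x) y (s * t) := by
    funext v
    by_cases h : v = y
    · rw [h, Function.update_self, Function.update_self]
    · rw [Function.update_of_ne h, Function.update_of_ne h]
  have r1 := rv_update (fun x => s * ω x) (zk E k) hz y (s * t) (dl x)
  rw [← hup] at r1
  have hs := gk_symm s ω E k x y
  unfold Gk at hs ⊢
  have q1 := congrArg (fun u => ⟪dl x, u⟫_ℂ) r1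
  have q2 := congrArg (fun u => ⟪dl y, u⟫_ℂ) r1
  simp only [inner_sub_right, inner_smul_right] at q1 q2
  rw [← inner_dl y] at q1 q2
  rw [← hs] at q2
  have e : (((s * t - s * ω y : ℝ)) : ℂ) = ((s * (t - ω y) : ℝ) : ℂ) := by
    congr 1
    ring
  rw [e] at q1 q2
  generalize ((s * (t - ω y) : ℝ) : ℂ) = τ at *
  linear_combination (1 + τ * ⟪dl y, RV (fun x => s * ω x) (zk E k) (dl y)⟫_ℂ) * q1 -
    (τ * ⟪dl x, RV (fun x => s * ω x) (zk E k) (dl y)⟫_ℂ) * q2

theorem gk_shift (s : ℝ) (ω : Zd d → ℝ) (E : ℝ) (k : ℕ) (a x y : Zd d) :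
    Gk s (Pool.Agent.TH369.MU.sh a ω) E k x y = Gk s ω E k (x + a) (y + a) := by
  have hz := zk_im_ne E k
  unfold Gk
  rw [inner_dl, inner_dl]
  obtain ⟨v, hv⟩ : ∃ v, v = RV (fun x => s * ω x) (zk E k) (dl (y + a)) := ⟨_, rfl⟩
  have hv1 : IsSol (fun x => s * ω x) (zk E k) v (dl (y + a)) := by
    rw [hv]
    exact rv_sol _ _ hz _
  obtain ⟨S, hS, -⟩ := Pool.Agent.TH369.AN.OP.exists_W (Equiv.addRight a) (fun _ : Zd d => (1 : ℂ))
    1 zero_le_one (fun _ => by simp)
  have hS' : ∀ (u : L2 d) (x : Zd d), (S u : Zd d → ℂ) x = (u : Zd d → ℂ) (x + a) := by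
    intro u x
    rw [hS, one_mul]
    rfl
  have hw : S v = RV (fun x => s * Pool.Agent.TH369.MU.sh a ω x) (zk E k) (dl y) := by
    refine rv_uniq hz fun x => ?_
    have h1 := hv1 (x + a)
    rw [Ad_apply, dl_apply] at h1
    rw [Ad_apply, dl_apply]
    simp only [hS']
    have e1 : ∀ i : Fin d, x + ee i + a = x + a + ee i := fun i => by abel
    have e2 : ∀ i : Fin d, x - ee i + a = x + a - ee i := fun i => by abel
    simp only [e1, e2]
    simp only [add_left_inj] at h1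
    exact h1
  rw [← hv, ← hw, hS']

theorem gk_ccont (s : ℝ) (E : ℝ) (k : ℕ) (x y : Zd d) :
    Continuous fun ω : Zd d → ℝ => Gk s ω E k x y := by
  unfold Gk
  refine Continuous.inner continuous_const ?_
  have h : Continuous fun ω : Zd d → ℝ => fun x => s * ω x :=
    continuous_pi fun x => continuous_const.mul (continuous_apply x)
  exact (rv_cont (zk E k) (zk_im_ne E k) (dl y)).comp h

theorem gk_meas (s : ℝ) (E : ℝ) (k : ℕ) (x y : Zd d) :
    Measurable fun ω : Zd d → ℝ => Gk s ω E k x y := (gk_ccont s E k x y).measurable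

theorem gk_meas2 (s : ℝ) (k : ℕ) (x y : Zd d) :
    Measurable fun p : (Zd d → ℝ) × ℝ => Gk s p.1 p.2 k x y := by
  refine Pool.Agent.TH369.MU.MJ.cara (fun (ω : Zd d → ℝ) (E : ℝ) => Gk s ω E k x y)
    (fun ω => ?_) (fun E => gk_meas s E k x y)
  rw [continuous_iff_continuousAt]
  intro E
  have h1 := sy_cont (rv_sy (fun x => s * ω x)) (dl x) (dl y) (zk E k) (zk_im_ne E k)
  have h2 : ContinuousAt (fun E : ℝ => zk E k) E := by
    unfold zk
    fun_prop
  exact ContinuousAt.comp (f := fun E : ℝ => zk E k) h1 h2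

/-! ### boundary values exist -/

theorem good_fixed (s : ℝ) (ω : Zd d → ℝ) : ∀ᵐ E : ℝ, Good s E ω := by
  have hR := rv_sy (fun x => s * ω x)
  have key : ∀ x : Zd d, ∀ᵐ E : ℝ,
      (∃ l : ℝ, Tendsto (fun k => (Gk s ω E k x x).im) atTop (𝓝 l)) ∧
      (0 < kap s E x ω → ∃ L : ℂ, Tendsto (fun k => Gk s ω E k x x) atTop (𝓝 L)) := by
    intro x
    obtain ⟨m, hm, -⟩ := spm_exists hR (dl x)
    have hR1 := rv_sy (Function.update (fun x => s * ω x) x (s * ω x + 1))
    have hR2 := rv_sy (Function.update (fun x => s * ω x) x (s * ω x + -1))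
    obtain ⟨m1, hm1, -⟩ := spm_exists hR1 (dl x)
    obtain ⟨m2, hm2, -⟩ := spm_exists hR2 (dl x)
    have := hm.1
    filter_upwards [qk_ae hR (dl x) m hm, Pool.Agent.TH369.MU.liminf_ae m,
      qk_ae hR1 (dl x) m1 hm1, qk_ae hR2 (dl x) m2 hm2] with E h0 hE h1 h2
    have h3 : Tendsto (fun k => (Gk s ω E k x x).im) atTop
        (𝓝 (Real.pi * (m.rnDeriv volume E).toReal)) := by
      refine h0.congr fun k => ?_
      rw [qk_sq hR]
      rfl
    refine ⟨⟨_, h3⟩, fun hk => ?_⟩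
    have h4 : kap s E x ω = ENNReal.ofReal (Real.pi * (m.rnDeriv volume E).toReal) :=
      ((ENNReal.continuous_ofReal.tendsto _).comp h3).liminf_eq
    rw [h4, ENNReal.ofReal_pos] at hk
    obtain ⟨C, hC⟩ := hE
    have hpos := fun k => gk_pos s ω E k x
    -- rank one identities
    have key1 : ∀ (t : ℝ) (k : ℕ),
        ⟪dl x, RV (Function.update (fun x => s * ω x) x (s * ω x + t)) (zk E k) (dl x)⟫_ℂ *
          (1 + (t : ℂ) * Gk s ω E k x x) = Gk s ω E k x x := by
      intro t k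
      have r1 := rv_update (fun x => s * ω x) (zk E k) (zk_im_ne E k) x (s * ω x + t) (dl x)
      have q1 := congrArg (fun u => ⟪dl x, u⟫_ℂ) r1
      simp only [inner_sub_right, inner_smul_right] at q1
      rw [← inner_dl x (RV (Function.update (fun x => s * ω x) x (s * ω x + t)) (zk E k)
        (dl x)), add_sub_cancel_left] at q1
      unfold Gk
      linear_combination q1
    have e1 : ∀ k, qk (RV (Function.update (fun x => s * ω x) x (s * ω x + 1))) E k (dl x) ^ 2 =
        (Gk s ω E k x x / (1 + Gk s ω E k x x)).im := by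
      intro k
      rw [qk_sq hR1]
      have h5 := key1 1 k
      rw [Complex.ofReal_one, one_mul] at h5
      have h6 : 1 + Gk s ω E k x x ≠ 0 := by
        intro h
        have h7 := congrArg Complex.im h
        simp only [Complex.add_im, Complex.one_im, zero_add, Complex.zero_im] at h7
        exact (hpos k).ne' h7
      have h8 : Fk (RV (Function.update (fun x => s * ω x) x (s * ω x + 1))) E k (dl x) =
          Gk s ω E k x x / (1 + Gk s ω E k x x) := eq_div_of_mul_eq h6 h5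
      rw [h8]
    have e2 : ∀ k, qk (RV (Function.update (fun x => s * ω x) x (s * ω x + -1))) E k (dl x) ^ 2 =
        (Gk s ω E k x x / (1 - Gk s ω E k x x)).im := by
      intro k
      rw [qk_sq hR2]
      have h5 := key1 (-1) k
      rw [Complex.ofReal_neg, Complex.ofReal_one, neg_one_mul, ← sub_eq_add_neg] at h5
      have h6 : 1 - Gk s ω E k x x ≠ 0 := by
        intro h
        have h7 := congrArg Complex.im h
        simp only [Complex.sub_im, Complex.one_im, zero_sub, Complex.zero_im] at h7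
        exact (hpos k).ne' (neg_eq_zero.1 h7)
      have h8 : Fk (RV (Function.update (fun x => s * ω x) x (s * ω x + -1))) E k (dl x) =
          Gk s ω E k x x / (1 - Gk s ω E k x x) := eq_div_of_mul_eq h6 h5
      rw [h8]
    simp only [e1] at h1
    simp only [e2] at h2
    refine Pool.Agent.TH369.MU.re_conv (fun k => Gk s ω E k x x) hpos _ _ _ C hk h3 h1 h2 ?_
    refine hC.mono fun k hk => ?_
    rw [← hm.2 (zk E k) (zk_im_ne E k)] at hk
    exact hk
  have := ae_all_iff.2 key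
  filter_upwards [this] with E hE
  exact hE

end Pool.Agent.L5helper74.IM
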