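import Pool.Agent.L5helper74.IM.Res
import Pool.Agent.TH369.AN.OP
import Pool.Agent.TH369.AN.RES

/-!
# The resolvent of `Δ + V` on `ℓ²(ℤ^d)`, `(Δψ)(x) = ∑_{|y-x|=1} ψ(y)`, for an arbitrary real
(unbounded) potential `V`
-/

set_option autoImplicit false

open MeasureTheory Filter Topology
open scoped InnerProductSpace

namespace Pool.Agent.L5helper74.IM

open Pool.Agent.TH369.AN (Zd L2 dl ee TT Rz)

variable {d : ℕ}

/-- the adjacency operator -/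
noncomputable def Ad (d : ℕ) : L2 d →L[ℂ] L2 d :=
  (2 * d : ℂ) • 1 - TT ∅ 0 (fun _ => 0)

theorem Ad_apply (u : L2 d) (x : Zd d) :
    (Ad d u : Zd d → ℂ) x =
      ∑ i : Fin d, ((u : Zd d → ℂ) (x + ee i) + (u : Zd d → ℂ) (x - ee i)) := by
  have h : Ad d u = (2 * d : ℂ) • u - TT ∅ 0 (fun _ => 0) u := rfl
  rw [h, lp.coeFn_sub, Pi.sub_apply, lp.coeFn_smul, Pi.smul_apply, smul_eq_mul,
    Pool.Agent.TH369.AN.TT_apply]
  simp [Pool.Agent.TH369.AN.act, Pool.Agent.TH369.AN.cl]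

theorem Ad_symm (u v : L2 d) : ⟪Ad d u, v⟫_ℂ = ⟪u, Ad d v⟫_ℂ := by
  have h := ContinuousLinearMap.isSelfAdjoint_iff_isSymmetric.mp
    (Pool.Agent.TH369.AN.TT_sa (∅ : Finset (Zd d)) 0 (fun _ => 0)) u v
  have h1 : ∀ w : L2 d, Ad d w = (2 * d : ℂ) • w - TT ∅ 0 (fun _ => 0) w := fun _ => rfl
  have h' : ⟪TT ∅ 0 (fun _ => 0) u, v⟫_ℂ = ⟪u, TT ∅ 0 (fun _ => 0) v⟫_ℂ := h
  have h2 : (starRingEnd ℂ) (2 * d : ℂ) = 2 * d := by
    rw [map_mul, Complex.conj_natCast, Complex.conj_ofNat]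
  rw [h1, h1, inner_sub_left, inner_sub_right, inner_smul_left, inner_smul_right, h', h2]

theorem Ad_sa : IsSelfAdjoint (Ad d) :=
  ContinuousLinearMap.isSelfAdjoint_iff_isSymmetric.mpr fun u v => Ad_symm u v

/-- `(Δ + V - z) u = g` -/
def IsSol (V : Zd d → ℝ) (z : ℂ) (u g : L2 d) : Prop :=
  ∀ x, (Ad d u : Zd d → ℂ) x + (V x : ℂ) * (u : Zd d → ℂ) x - z * (u : Zd d → ℂ) x =
    (g : Zd d → ℂ) x

theorem sol_sub {V : Zd d → ℝ} {z : ℂ} {u v g h : L2 d} (h1 : IsSol V z u g) (h2 : IsSol V z v h) :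
    IsSol V z (u - v) (g - h) := by
  intro x
  rw [map_sub, lp.coeFn_sub, lp.coeFn_sub, lp.coeFn_sub, Pi.sub_apply, Pi.sub_apply, Pi.sub_apply,
    ← h1 x, ← h2 x]
  ring

theorem sol_symm {V : Zd d → ℝ} {z w : ℂ} {u v g h : L2 d} (h1 : IsSol V z u g)
    (h2 : IsSol V w v h) : ⟪g + z • u, v⟫_ℂ = ⟪u, h + w • v⟫_ℂ := by
  obtain ⟨p, hp⟩ : ∃ p : L2 d, p = g + z • u - Ad d u := ⟨_, rfl⟩
  obtain ⟨q, hq⟩ : ∃ q : L2 d, q = h + w • v - Ad d v := ⟨_, rfl⟩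
  have hpx : ∀ x, (p : Zd d → ℂ) x = (V x : ℂ) * (u : Zd d → ℂ) x := by
    intro x
    rw [hp, lp.coeFn_sub, lp.coeFn_add, lp.coeFn_smul, Pi.sub_apply, Pi.add_apply, Pi.smul_apply,
      smul_eq_mul, ← h1 x]
    ring
  have hqx : ∀ x, (q : Zd d → ℂ) x = (V x : ℂ) * (v : Zd d → ℂ) x := by
    intro x
    rw [hq, lp.coeFn_sub, lp.coeFn_add, lp.coeFn_smul, Pi.sub_apply, Pi.add_apply, Pi.smul_apply,
      smul_eq_mul, ← h2 x]
    ring
  have e1 : g + z • u = Ad d u + p := by rw [hp]; abel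
  have e2 : h + w • v = Ad d v + q := by rw [hq]; abel
  rw [e1, e2, inner_add_left, inner_add_right, Ad_symm]
  congr 1
  rw [lp.inner_eq_tsum, lp.inner_eq_tsum]
  refine tsum_congr fun x => ?_
  rw [hpx, hqx, RCLike.inner_apply, RCLike.inner_apply, map_mul, Complex.conj_ofReal]
  ring

theorem sol_zero {V : Zd d → ℝ} {z : ℂ} (hz : z.im ≠ 0) {u : L2 d} (h : IsSol V z u 0) :
    u = 0 := by
  have h1 := sol_symm h h
  rw [zero_add, inner_smul_left, inner_smul_right, inner_self_eq_norm_sq_to_K] at h1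
  have h2 : (z - (starRingEnd ℂ) z) * ((‖u‖ : ℝ) : ℂ) ^ 2 = 0 := by
    have h3 : (starRingEnd ℂ) z * ((‖u‖ : ℝ) : ℂ) ^ 2 = z * ((‖u‖ : ℝ) : ℂ) ^ 2 := h1
    linear_combination -h3
  rcases mul_eq_zero.1 h2 with h3 | h3
  · rw [Complex.sub_conj] at h3
    exfalso
    apply hz
    have h4 := congrArg Complex.im h3
    rw [Complex.im_ofReal_mul, Complex.I_im, mul_one, Complex.zero_im] at h4
    linarith
  · have h4 : ‖u‖ = 0 := by
      have := pow_eq_zero_iff (two_ne_zero) |>.1 h3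
      exact_mod_cast this
    exact norm_eq_zero.1 h4

theorem sol_uniq {V : Zd d → ℝ} {z : ℂ} (hz : z.im ≠ 0) {u v g : L2 d} (h1 : IsSol V z u g)
    (h2 : IsSol V z v g) : u = v := by
  have h := sol_sub h1 h2
  rw [sub_self] at h
  exact sub_eq_zero.1 (sol_zero hz h)

namespace Ex

/-- strict contraction -/
theorem contr (z j : ℂ) (hj : j ^ 2 = -1) (hjc : (starRingEnd ℂ) j = -j)
    (hy : 0 < (j * (starRingEnd ℂ) z).re) (hzj : (z + j).im ≠ 0) :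
    ∃ q : ℝ, q < 1 ∧ ∀ v : L2 d, ‖v + (2 * j) • Rz (Ad d) (z + j) v‖ ≤ q * ‖v‖ := by
  obtain ⟨y, hyd⟩ : ∃ y, y = (j * (starRingEnd ℂ) z).re := ⟨_, rfl⟩
  rw [← hyd] at hy
  obtain ⟨D, hD⟩ : ∃ D : ℝ, D = ‖Ad d‖ + ‖z + j‖ := ⟨_, rfl⟩
  have hzj0 : 0 < ‖z + j‖ := by
    rw [norm_pos_iff]
    intro h
    rw [h] at hzj
    exact hzj Complex.zero_im
  have hD0 : 0 < D := by
    rw [hD]
    have := norm_nonneg (Ad d)
    linarith
  refine ⟨Real.sqrt (1 - 4 * y / D ^ 2), ?_, fun v => ?_⟩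
  · rw [Real.sqrt_lt' one_pos]
    have : 0 < 4 * y / D ^ 2 := by positivity
    linarith
  · obtain ⟨b, hb⟩ : ∃ b, b = Rz (Ad d) (z + j) v := ⟨_, rfl⟩
    have hv : Ad d b - (z + j) • b = v := by
      rw [hb]
      exact Pool.Agent.TH369.AN.rz_eq (Ad d) Ad_sa (z + j) hzj v
    rw [← hb]
    have h1 : ‖v‖ ≤ D * ‖b‖ := by
      rw [← hv, hD, add_mul]
      refine (norm_sub_le _ _).trans (add_le_add ((Ad d).le_opNorm b) ?_)
      rw [norm_smul]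
    -- the norm identity
    have h2 : ‖v + (2 * j) • b‖ ^ 2 = ‖v‖ ^ 2 - 4 * y * ‖b‖ ^ 2 := by
      have hr : (⟪Ad d b, b⟫_ℂ).im = 0 := by
        have h3 : (starRingEnd ℂ) ⟪Ad d b, b⟫_ℂ = ⟪Ad d b, b⟫_ℂ := by
          rw [inner_conj_symm, Ad_symm]
        exact Complex.conj_eq_iff_im.1 h3
      have h4 := norm_add_sq (𝕜 := ℂ) v ((2 * j) • b)
      have h5 : ‖(2 * j) • b‖ ^ 2 = 4 * ‖b‖ ^ 2 := by
        rw [norm_smul, mul_pow, norm_mul, mul_pow]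
        have h6 : ‖j‖ ^ 2 = 1 := by
          rw [← norm_pow, hj, norm_neg, norm_one]
        rw [h6]
        norm_num
      have h6 : RCLike.re ⟪v, (2 * j) • b⟫_ℂ = -2 * y * ‖b‖ ^ 2 - 2 * ‖b‖ ^ 2 := by
        have h7 : ⟪v, (2 * j) • b⟫_ℂ = 2 * j * ⟪Ad d b, b⟫_ℂ -
            2 * (j * (starRingEnd ℂ) z) * ((‖b‖ : ℝ) : ℂ) ^ 2 + 2 * j ^ 2 * ((‖b‖ : ℝ) : ℂ) ^ 2 := by
          rw [inner_smul_right]
          conv_lhs => rw [← hv]
          rw [inner_sub_left, inner_smul_left, inner_self_eq_norm_sq_to_K, map_add, hjc]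
          show 2 * j * (⟪Ad d b, b⟫_ℂ - ((starRingEnd ℂ) z + -j) * ((‖b‖ : ℝ) : ℂ) ^ 2) = _
          ring
        have hjr : j.re = 0 := by
          have := congrArg Complex.re hjc
          rw [Complex.conj_re, Complex.neg_re] at this
          linarith
        rw [h7, hj]
        show (2 * j * ⟪Ad d b, b⟫_ℂ - 2 * (j * (starRingEnd ℂ) z) * ((‖b‖ : ℝ) : ℂ) ^ 2 +
          2 * (-1) * ((‖b‖ : ℝ) : ℂ) ^ 2).re = _
        have e1 : (2 * j * ⟪Ad d b, b⟫_ℂ).re = 0 := by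
          rw [mul_assoc, Complex.mul_re, Complex.mul_re, Complex.mul_im, hr, hjr]
          simp
        have e2 : (2 * (j * (starRingEnd ℂ) z) * ((‖b‖ : ℝ) : ℂ) ^ 2).re = 2 * y * ‖b‖ ^ 2 := by
          have : 2 * (j * (starRingEnd ℂ) z) * ((‖b‖ : ℝ) : ℂ) ^ 2 =
              ((2 * ‖b‖ ^ 2 : ℝ) : ℂ) * (j * (starRingEnd ℂ) z) := by
            push_cast
            ring
          rw [this, Complex.re_ofReal_mul, ← hyd]
          ring
        have e3 : (2 * (-1) * ((‖b‖ : ℝ) : ℂ) ^ 2).re = -2 * ‖b‖ ^ 2 := by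
          have : (2 * (-1) * ((‖b‖ : ℝ) : ℂ) ^ 2) = ((-2 * ‖b‖ ^ 2 : ℝ) : ℂ) := by
            push_cast
            ring
          rw [this, Complex.ofReal_re]
        rw [Complex.add_re, Complex.sub_re, e1, e2, e3]
        ring
      rw [h5, h6] at h4
      rw [h4]
      ring
    have h3 : ‖v‖ ^ 2 / D ^ 2 ≤ ‖b‖ ^ 2 := by
      rw [div_le_iff₀ (by positivity)]
      calc ‖v‖ ^ 2 ≤ (D * ‖b‖) ^ 2 := pow_le_pow_left₀ (norm_nonneg _) h1 2
        _ = ‖b‖ ^ 2 * D ^ 2 := by ring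
    have h4 : ‖v + (2 * j) • b‖ ^ 2 ≤ (1 - 4 * y / D ^ 2) * ‖v‖ ^ 2 := by
      rw [h2]
      have := mul_le_mul_of_nonneg_left h3 (by positivity : 0 ≤ 4 * y)
      have e : (1 - 4 * y / D ^ 2) * ‖v‖ ^ 2 = ‖v‖ ^ 2 - 4 * y * (‖v‖ ^ 2 / D ^ 2) := by ring
      rw [e]
      linarith
    rcases le_or_gt 0 (1 - 4 * y / D ^ 2) with h5 | h5
    · have h6 : ‖v + (2 * j) • b‖ ^ 2 ≤ (Real.sqrt (1 - 4 * y / D ^ 2) * ‖v‖) ^ 2 := by
        rw [mul_pow, Real.sq_sqrt h5]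
        exact h4
      exact (pow_le_pow_iff_left₀ (norm_nonneg _) (by positivity) two_ne_zero).1 h6
    · have h6 : ‖v + (2 * j) • b‖ ^ 2 ≤ 0 := by
        refine h4.trans ?_
        exact mul_nonpos_of_nonpos_of_nonneg h5.le (by positivity)
      have h7 : ‖v + (2 * j) • b‖ = 0 := by
        have := pow_eq_zero_iff (two_ne_zero) |>.1 (le_antisymm h6 (sq_nonneg _))
        exact this
      rw [h7]
      positivity

theorem exists_j (z : ℂ) (hz : z.im ≠ 0) :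
    ∃ j : ℂ, j ^ 2 = -1 ∧ (starRingEnd ℂ) j = -j ∧ 0 < (j * (starRingEnd ℂ) z).re ∧
      (z + j).im ≠ 0 := by
  rcases lt_or_gt_of_ne hz with h | h
  · refine ⟨-Complex.I, by rw [neg_sq, Complex.I_sq], by rw [map_neg, Complex.conj_I], ?_, ?_⟩
    · rw [Complex.mul_re]
      simp
      exact h
    · rw [Complex.add_im, Complex.neg_im, Complex.I_im]
      linarith
  · refine ⟨Complex.I, Complex.I_sq, Complex.conj_I, ?_, ?_⟩
    · rw [Complex.mul_re]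
      simp
      exact h
    · rw [Complex.add_im, Complex.I_im]
      linarith

theorem ex (V : Zd d → ℝ) (z : ℂ) (hz : z.im ≠ 0) :
    ∃ R : L2 d →L[ℂ] L2 d, ∀ g, IsSol V z (R g) g := by
  obtain ⟨j, hj, hjc, hy, hzj⟩ := exists_j z hz
  obtain ⟨q, hq, hM⟩ := contr (d := d) z j hj hjc hy hzj
  have hjr : j.re = 0 := by
    have := congrArg Complex.re hjc
    rw [Complex.conj_re, Complex.neg_re] at this
    linarith
  have hVj : ∀ x, (V x : ℂ) - j ≠ 0 := by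
    intro x h
    have h1 : j = (V x : ℂ) := (sub_eq_zero.1 h).symm
    have h2 := hj
    rw [h1, ← Complex.ofReal_pow] at h2
    have h3 := congrArg Complex.re h2
    rw [Complex.ofReal_re, Complex.neg_re, Complex.one_re] at h3
    have := sq_nonneg (V x)
    linarith
  obtain ⟨C, hC, hC1⟩ := Pool.Agent.TH369.AN.OP.exists_W (Equiv.refl (Zd d))
    (fun x => ((V x : ℂ) + j) / ((V x : ℂ) - j)) 1 zero_le_one (by
      intro x
      have h1 : ‖(V x : ℂ) + j‖ = ‖(V x : ℂ) - j‖ := by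
        rw [← Complex.norm_conj ((V x : ℂ) + j), map_add, Complex.conj_ofReal, hjc, sub_eq_add_neg]
      rw [norm_div, h1, div_self (norm_ne_zero_iff.2 (hVj x))])
  obtain ⟨B, hB⟩ : ∃ B : L2 d →L[ℂ] L2 d, B = Rz (Ad d) (z + j) := ⟨_, rfl⟩
  have hBe : ∀ v, Ad d (B v) - (z + j) • B v = v := by
    intro v
    rw [hB]
    exact Pool.Agent.TH369.AN.rz_eq (Ad d) Ad_sa (z + j) hzj v
  obtain ⟨M, hMd⟩ : ∃ M : L2 d →L[ℂ] L2 d, M = 1 + (2 * j) • B := ⟨_, rfl⟩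
  have hMa : ∀ v, M v = v + (2 * j) • B v := by
    intro v
    rw [hMd]
    rfl
  have hq0 : 0 ≤ max q 0 := le_max_right _ _
  have hMn : ‖M * C‖ ≤ max q 0 := by
    refine ContinuousLinearMap.opNorm_le_bound _ hq0 fun v => ?_
    show ‖M (C v)‖ ≤ _
    rw [hMa, hB]
    refine (hM (C v)).trans ?_
    have h1 : ‖C v‖ ≤ ‖v‖ := by
      refine (C.le_opNorm v).trans ?_
      exact mul_le_of_le_one_left (norm_nonneg _) hC1
    calc q * ‖C v‖ ≤ max q 0 * ‖C v‖ := mul_le_mul_of_nonneg_right (le_max_left _ _) (norm_nonneg _)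
      _ ≤ max q 0 * ‖v‖ := mul_le_mul_of_nonneg_left h1 hq0
  have hMn1 : ‖M * C‖ < 1 := hMn.trans_lt (max_lt hq one_pos)
  obtain ⟨P, hP⟩ : ∃ P : L2 d →L[ℂ] L2 d, (1 - M * C) * P = 1 :=
    ⟨((Units.oneSub (M * C) hMn1)⁻¹ : (L2 d →L[ℂ] L2 d)ˣ), by
      rw [← Units.val_oneSub (M * C) hMn1]
      exact Units.mul_inv _⟩
  refine ⟨(1 - C) * P * B, fun g => ?_⟩
  obtain ⟨p, hp⟩ : ∃ p, p = P (B g) := ⟨_, rfl⟩
  obtain ⟨c, hc⟩ : ∃ c, c = C p := ⟨_, rfl⟩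
  have hu : ((1 - C) * P * B) g = p - c := by
    rw [hc, hp]
    rfl
  have hpe : p - (c + (2 * j) • B c) = B g := by
    have h1 := congrArg (fun A : L2 d →L[ℂ] L2 d => A (B g)) hP
    have h2 : ((1 - M * C) * P) (B g) = P (B g) - M (C (P (B g))) := rfl
    have h3 : P (B g) - M (C (P (B g))) = B g := by
      rw [← h2]
      exact h1
    rw [← hp, hMa, ← hc] at h3
    exact h3
  rw [hu]
  have hvec : Ad d (p - c) - z • (p - c) - j • (p + c) = g := by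
    have h1 := hBe g
    have h2 := hBe c
    have h3 : p = B g + (c + (2 * j) • B c) := by rw [← hpe]; abel
    have h4 : Ad d p = Ad d (B g) + (Ad d c + (2 * j) • Ad d (B c)) := by
      conv_lhs => rw [h3]
      rw [map_add, map_add, map_smul]
    have h5 : Ad d (B g) = g + (z + j) • B g := sub_eq_iff_eq_add.1 h1
    have h6 : Ad d (B c) = c + (z + j) • B c := sub_eq_iff_eq_add.1 h2
    rw [map_sub, h4, h5, h6, h3]
    module
  intro x
  have h1 := congrArg (fun w : L2 d => (w : Zd d → ℂ) x) hvec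
  simp only [lp.coeFn_sub, lp.coeFn_smul, lp.coeFn_add, Pi.sub_apply, Pi.smul_apply, Pi.add_apply,
    smul_eq_mul] at h1
  have hcx : (c : Zd d → ℂ) x = ((V x : ℂ) + j) / ((V x : ℂ) - j) * (p : Zd d → ℂ) x := by
    rw [hc, hC]
    rfl
  have h2 : (V x : ℂ) * ((p : Zd d → ℂ) x - (c : Zd d → ℂ) x) =
      -(j * ((p : Zd d → ℂ) x + (c : Zd d → ℂ) x)) := by
    rw [hcx]
    have := hVj x
    field_simp
    ring
  rw [lp.coeFn_sub, Pi.sub_apply, h2, ← h1]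
  ring

end Ex

open Classical in
/-- the resolvent `(Δ + V - z)⁻¹` -/
noncomputable def RV (V : Zd d → ℝ) (z : ℂ) : L2 d →L[ℂ] L2 d :=
  if h : ∃ R : L2 d →L[ℂ] L2 d, ∀ g, IsSol V z (R g) g then h.choose else 0

theorem rv_sol (V : Zd d → ℝ) (z : ℂ) (hz : z.im ≠ 0) (g : L2 d) : IsSol V z (RV V z g) g := by
  unfold RV
  rw [dif_pos (Ex.ex V z hz)]
  exact (Ex.ex V z hz).choose_spec g

theorem rv_uniq {V : Zd d → ℝ} {z : ℂ} (hz : z.im ≠ 0) {u g : L2 d} (h : IsSol V z u g) :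
    u = RV V z g := sol_uniq hz h (rv_sol V z hz g)

theorem rv_sy (V : Zd d → ℝ) : Sy (RV V) := fun z w hz hw φ ψ =>
  sol_symm (rv_sol V z hz φ) (rv_sol V w hw ψ)

end Pool.Agent.L5helper74.IM
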