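import Pool.Agent.L5helper74.IM.Ge

/-!
# Vectors of zero density at an energy, and their change under a rank one perturbation
-/

set_option autoImplicit false

open MeasureTheory Filter Topology
open scoped InnerProductSpace

namespace Pool.Agent.L5helper74.IM

open Pool.Agent.TH369.AN (Zd L2 dl ee inner_dl norm_dl dl_apply iid)
open Pool.Agent.TH369.MU (ep zk)

section abs

variable {X : Type} [NormedAddCommGroup X] [InnerProductSpace ℂ X]

/-- the vector has zero density at the energy `E` -/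
def Nul (R : ℂ → X →L[ℂ] X) (E : ℝ) (ψ : X) : Prop := Tendsto (fun k => qk R E k ψ) atTop (𝓝 0)

/-- Gram matrix entry -/
noncomputable def gr (R : ℂ → X →L[ℂ] X) (E : ℝ) (k : ℕ) (φ ψ : X) : ℂ :=
  (ep k : ℂ) * ⟪R (zk E k) φ, R (zk E k) ψ⟫_ℂ

/-- the Gram matrix entry converges -/
def Cv (R : ℂ → X →L[ℂ] X) (E : ℝ) (φ ψ : X) : Prop :=
  ∃ a : ℂ, Tendsto (fun k => gr R E k φ ψ) atTop (𝓝 a)

variable {R : ℂ → X →L[ℂ] X} {E : ℝ}

theorem nul_add {φ ψ : X} (h1 : Nul R E φ) (h2 : Nul R E ψ) : Nul R E (φ + ψ) := by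
  have h := h1.add h2
  rw [add_zero] at h
  exact squeeze_zero (fun k => qk_nonneg _ _ _ _) (fun k => qk_add _ _ _ _ _) h

theorem nul_smul (a : ℂ) {ψ : X} (h : Nul R E ψ) : Nul R E (a • ψ) := by
  have h1 := h.const_mul ‖a‖
  rw [mul_zero] at h1
  refine h1.congr fun k => ?_
  rw [qk_smul]

theorem nul_sub {φ ψ : X} (h1 : Nul R E φ) (h2 : Nul R E ψ) : Nul R E (φ - ψ) := by
  have h := nul_add h1 (nul_smul (-1) h2)
  rw [neg_one_smul, ← sub_eq_add_neg] at h
  exact h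

theorem nul_zero : Nul R E (0 : X) := by
  have h : (fun k => qk R E k (0 : X)) = fun _ => (0 : ℝ) := by
    funext k
    simp [qk]
  unfold Nul
  rw [h]
  exact tendsto_const_nhds

theorem nul_sum {ι : Type} (F : Finset ι) (f : ι → X) (h : ∀ i ∈ F, Nul R E (f i)) :
    Nul R E (∑ i ∈ F, f i) := by
  classical
  induction F using Finset.induction_on with
  | empty => simpa using nul_zero
  | insert i s hi ih =>
    rw [Finset.sum_insert hi]
    exact nul_add (h i (Finset.mem_insert_self _ _))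
      (ih fun j hj => h j (Finset.mem_insert_of_mem hj))

theorem nul_of_smul {a : ℂ} (ha : a ≠ 0) {ψ : X} (h : Nul R E (a • ψ)) : Nul R E ψ := by
  have h1 := nul_smul a⁻¹ h
  rw [smul_smul, inv_mul_cancel₀ ha, one_smul] at h1
  exact h1

theorem gr_self (R : ℂ → X →L[ℂ] X) (E : ℝ) (k : ℕ) (φ : X) :
    gr R E k φ φ = ((qk R E k φ ^ 2 : ℝ) : ℂ) := by
  unfold gr qk
  rw [inner_self_eq_norm_sq_to_K, mul_pow, Real.sq_sqrt (ep_pos k).le]
  push_cast
  rfl

theorem gr_le (R : ℂ → X →L[ℂ] X) (E : ℝ) (k : ℕ) (φ ψ : X) :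
    ‖gr R E k φ ψ‖ ≤ qk R E k φ * qk R E k ψ := by
  unfold gr qk
  rw [norm_mul, Complex.norm_real, Real.norm_eq_abs, abs_of_pos (ep_pos k)]
  have h := norm_inner_le_norm (𝕜 := ℂ) (R (zk E k) φ) (R (zk E k) ψ)
  have h1 := Real.mul_self_sqrt (ep_pos k).le
  calc ep k * ‖⟪R (zk E k) φ, R (zk E k) ψ⟫_ℂ‖
      ≤ ep k * (‖R (zk E k) φ‖ * ‖R (zk E k) ψ‖) := mul_le_mul_of_nonneg_left h (ep_pos k).le
    _ = Real.sqrt (ep k) * Real.sqrt (ep k) * (‖R (zk E k) φ‖ * ‖R (zk E k) ψ‖) := by rw [h1]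
    _ = _ := by ring

theorem gr_add_right (R : ℂ → X →L[ℂ] X) (E : ℝ) (k : ℕ) (φ ψ χ : X) :
    gr R E k φ (ψ + χ) = gr R E k φ ψ + gr R E k φ χ := by
  unfold gr
  rw [map_add, inner_add_right, mul_add]

theorem gr_add_left (R : ℂ → X →L[ℂ] X) (E : ℝ) (k : ℕ) (φ ψ χ : X) :
    gr R E k (φ + ψ) χ = gr R E k φ χ + gr R E k ψ χ := by
  unfold gr
  rw [map_add, inner_add_left, mul_add]

theorem gr_smul_right (R : ℂ → X →L[ℂ] X) (E : ℝ) (k : ℕ) (a : ℂ) (φ ψ : X) :
    gr R E k φ (a • ψ) = a * gr R E k φ ψ := by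
  unfold gr
  rw [map_smul, inner_smul_right]
  ring

theorem gr_smul_left (R : ℂ → X →L[ℂ] X) (E : ℝ) (k : ℕ) (a : ℂ) (φ ψ : X) :
    gr R E k (a • φ) ψ = (starRingEnd ℂ) a * gr R E k φ ψ := by
  unfold gr
  rw [map_smul, inner_smul_left]
  ring

theorem cv_add_right {φ ψ χ : X} (h1 : Cv R E φ ψ) (h2 : Cv R E φ χ) : Cv R E φ (ψ + χ) := by
  obtain ⟨a, ha⟩ := h1
  obtain ⟨b, hb⟩ := h2
  exact ⟨a + b, (ha.add hb).congr fun k => (gr_add_right _ _ _ _ _ _).symm⟩

theorem cv_smul_right (c : ℂ) {φ ψ : X} (h1 : Cv R E φ ψ) : Cv R E φ (c • ψ) := by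
  obtain ⟨a, ha⟩ := h1
  exact ⟨c * a, (ha.const_mul c).congr fun k => (gr_smul_right _ _ _ _ _ _).symm⟩

theorem cv_symm {φ ψ : X} (h1 : Cv R E φ ψ) : Cv R E ψ φ := by
  obtain ⟨a, ha⟩ := h1
  refine ⟨(starRingEnd ℂ) a, ((Complex.continuous_conj.tendsto a).comp ha).congr fun k => ?_⟩
  simp only [Function.comp]
  unfold gr
  rw [map_mul, Complex.conj_ofReal, inner_conj_symm]

theorem cv_zero_right {φ : X} : Cv R E φ 0 := by
  refine ⟨0, ?_⟩
  have h : (fun k => gr R E k φ 0) = fun _ => (0 : ℂ) := by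
    funext k
    simp [gr]
  rw [h]
  exact tendsto_const_nhds

theorem cv_sum_right {ι : Type} (F : Finset ι) (c : ι → ℂ) (f : ι → X) {φ : X}
    (h : ∀ i ∈ F, Cv R E φ (f i)) : Cv R E φ (∑ i ∈ F, c i • f i) := by
  classical
  induction F using Finset.induction_on with
  | empty => simpa using cv_zero_right
  | insert i s hi ih =>
    rw [Finset.sum_insert hi]
    exact cv_add_right (cv_smul_right _ (h i (Finset.mem_insert_self _ _)))
      (ih fun j hj => h j (Finset.mem_insert_of_mem hj))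

/-- a vector of zero density is orthogonal to all vectors -/
theorem nul_gr {φ ψ : X} (h : Nul R E ψ) (hφ : Cv R E φ φ) :
    Tendsto (fun k => gr R E k φ ψ) atTop (𝓝 0) := by
  obtain ⟨a, ha⟩ := hφ
  have h1 : Tendsto (fun k => qk R E k φ ^ 2) atTop (𝓝 a.re) := by
    refine ((Complex.continuous_re.tendsto a).comp ha).congr fun k => ?_
    simp only [Function.comp]
    rw [gr_self, Complex.ofReal_re]
  have h2 : Tendsto (fun k => qk R E k φ) atTop (𝓝 (Real.sqrt a.re)) := by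
    refine ((Real.continuous_sqrt.tendsto _).comp h1).congr fun k => ?_
    exact Real.sqrt_sq (qk_nonneg _ _ _ _)
  have h3 := h2.mul h
  rw [mul_zero] at h3
  exact squeeze_zero_norm (fun k => gr_le _ _ _ _ _) h3

end abs

variable {d : ℕ}

theorem upd_fun (σ : ℝ) (ω : Zd d → ℝ) (y : Zd d) (t : ℝ) :
    (fun x => σ * Function.update ω y t x) = Function.update (fun x => σ * ω x) y (σ * t) := by
  funext v
  by_cases h : v = y
  · rw [h, Function.update_self, Function.update_self]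
  · rw [Function.update_of_ne h, Function.update_of_ne h]

/-- the change of a vector of zero density -/
theorem nul_upd (V : Zd d → ℝ) (E : ℝ) (y : Zd d) (t : ℝ) (ht : t ≠ V y) (ψ : L2 d)
    (h : Nul (RV V) E ψ) (l : ℝ) (hl : 0 < l)
    (hyy : Tendsto (fun k => qk (RV (Function.update V y t)) E k (dl y) ^ 2) atTop (𝓝 l))
    (hc : Cv (RV (Function.update V y t)) E (dl y) ψ) :
    ∃ u : ℂ, Tendsto (fun k => (RV V (zk E k) ψ : Zd d → ℂ) y) atTop (𝓝 u) ∧
      Nul (RV (Function.update V y t)) E (ψ + (((t - V y : ℝ) : ℂ) * u) • dl y) := by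
  obtain ⟨V', hV'⟩ : ∃ V', V' = Function.update V y t := ⟨_, rfl⟩
  rw [← hV'] at hyy hc ⊢
  obtain ⟨a, ha⟩ := hc
  obtain ⟨τ, hτ⟩ : ∃ τ : ℝ, τ = t - V y := ⟨_, rfl⟩
  have hτ0 : (τ : ℂ) ≠ 0 := by
    rw [hτ]
    exact_mod_cast sub_ne_zero.2 ht
  obtain ⟨W, hW⟩ : ∃ W : ℕ → ℂ, W = fun k => (RV V (zk E k) ψ : Zd d → ℂ) y := ⟨_, rfl⟩
  have hback : Function.update V' y (V y) = V := by
    rw [hV', Function.update_idem, Function.update_eq_self]
  have hV'y : V' y = t := by rw [hV', Function.update_self]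
  have key : ∀ k, RV V' (zk E k) (ψ + ((τ : ℂ) * W k) • dl y) = RV V (zk E k) ψ := by
    intro k
    have h1 := rv_update V' (zk E k) (zk_im_ne E k) y (V y) ψ
    rw [hback, hV'y] at h1
    rw [map_add, map_smul]
    have h2 : ((V y - t : ℝ) : ℂ) * (RV V (zk E k) ψ : Zd d → ℂ) y = -((τ : ℂ) * W k) := by
      rw [hτ, hW]
      push_cast
      ring
    rw [h2, neg_smul, sub_neg_eq_add] at h1
    exact h1.symm
  have hq : Tendsto (fun k => qk (RV V') E k (dl y)) atTop (𝓝 (Real.sqrt l)) := by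
    refine ((Real.continuous_sqrt.tendsto _).comp hyy).congr fun k => ?_
    exact Real.sqrt_sq (qk_nonneg _ _ _ _)
  have hqψ : ∀ k, qk (RV V') E k (ψ + ((τ : ℂ) * W k) • dl y) = qk (RV V) E k ψ := by
    intro k
    unfold qk
    rw [key]
  have h3 : Tendsto (fun k => gr (RV V') E k (dl y) (ψ + ((τ : ℂ) * W k) • dl y)) atTop (𝓝 0) := by
    have h4 := hq.mul h
    rw [mul_zero] at h4
    refine squeeze_zero_norm (fun k => ?_) h4
    refine (gr_le _ _ _ _ _).trans (le_of_eq ?_)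
    rw [hqψ]
  have hgl : Tendsto (fun k => gr (RV V') E k (dl y) (dl y)) atTop (𝓝 (l : ℂ)) := by
    refine ((Complex.continuous_ofReal.tendsto l).comp hyy).congr fun k => ?_
    rw [gr_self]
    rfl
  have hl0 : (l : ℂ) ≠ 0 := by exact_mod_cast hl.ne'
  have h4 : Tendsto (fun k => (τ : ℂ) * W k) atTop (𝓝 (-a / l)) := by
    have h5 : Tendsto (fun k => (gr (RV V') E k (dl y) (ψ + ((τ : ℂ) * W k) • dl y) -
        gr (RV V') E k (dl y) ψ) / gr (RV V') E k (dl y) (dl y)) atTop (𝓝 ((0 - a) / l)) :=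
      (h3.sub ha).div hgl hl0
    rw [zero_sub] at h5
    refine h5.congr' ?_
    filter_upwards [hgl.eventually_ne hl0] with k hk
    rw [gr_add_right, gr_smul_right, add_sub_cancel_left, mul_div_assoc, div_self hk, mul_one]
  refine ⟨(-a / l) / τ, ?_, ?_⟩
  · have h5 := h4.div_const (τ : ℂ)
    refine h5.congr fun k => ?_
    rw [mul_div_cancel_left₀ _ hτ0, hW]
  · rw [← hτ, mul_div_cancel₀ _ hτ0]
    have h5 : Tendsto (fun k => qk (RV V) E k ψ +
        ‖(-a / l) - (τ : ℂ) * W k‖ * qk (RV V') E k (dl y)) atTop (𝓝 0) := by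
      have h6 : Tendsto (fun k => ‖(-a / l) - (τ : ℂ) * W k‖) atTop (𝓝 0) := by
        have := (tendsto_const_nhds (x := (-a / (l : ℂ)))).sub h4
        rw [sub_self] at this
        simpa using this.norm
      have h7 := h.add (h6.mul hq)
      rw [zero_mul, add_zero] at h7
      exact h7
    refine squeeze_zero (fun k => qk_nonneg _ _ _ _) (fun k => ?_) h5
    have e : ψ + (-a / (l : ℂ)) • (dl y : L2 d) = (ψ + ((τ : ℂ) * W k) • dl y) +
        ((-a / (l : ℂ)) - (τ : ℂ) * W k) • dl y := by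
      rw [sub_smul]
      abel
    rw [e]
    refine (qk_add _ _ _ _ _).trans ?_
    rw [hqψ, qk_smul]

end Pool.Agent.L5helper74.IM
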