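import Pool.Agent.L5helper74.IM.Nu

/-!
# Independent families at an energy
-/

set_option autoImplicit false

open MeasureTheory Filter Topology
open scoped InnerProductSpace

namespace Pool.Agent.L5helper74.IM

open Pool.Agent.TH369.AN (Zd L2 dl ee inner_dl norm_dl dl_apply iid)
open Pool.Agent.TH369.MU (ep zk)

section abs

variable {X : Type} [NormedAddCommGroup X] [InnerProductSpace ℂ X] {ι : Type}

/-- no combination of the vectors `v i`, `i ∈ F`, has zero density -/
def Ind (R : ℂ → X →L[ℂ] X) (E : ℝ) (v : ι → X) (F : Finset ι) : Prop :=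
  ∀ c : ι → ℂ, Nul R E (∑ i ∈ F, c i • v i) → ∀ i ∈ F, c i = 0

/-- Gram determinant -/
noncomputable def dt [DecidableEq ι] (R : ℂ → X →L[ℂ] X) (E : ℝ) (k : ℕ) (v : ι → X)
    (F : Finset ι) : ℂ :=
  Matrix.det (Matrix.of fun i j : F => gr R E k (v i) (v j))

variable {R : ℂ → X →L[ℂ] X} {E : ℝ} {v : ι → X}

theorem gr_sum_right (R : ℂ → X →L[ℂ] X) (E : ℝ) (k : ℕ) (F : Finset ι) (c : ι → ℂ) (f : ι → X)
    (φ : X) : gr R E k φ (∑ i ∈ F, c i • f i) = ∑ i ∈ F, c i * gr R E k φ (f i) := by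
  unfold gr
  rw [map_sum, inner_sum, Finset.mul_sum]
  refine Finset.sum_congr rfl fun i _ => ?_
  rw [map_smul, inner_smul_right]
  ring

theorem gr_sum_left (R : ℂ → X →L[ℂ] X) (E : ℝ) (k : ℕ) (F : Finset ι) (c : ι → ℂ) (f : ι → X)
    (φ : X) : gr R E k (∑ i ∈ F, c i • f i) φ =
      ∑ i ∈ F, (starRingEnd ℂ) (c i) * gr R E k (f i) φ := by
  unfold gr
  rw [map_sum, sum_inner, Finset.mul_sum]
  refine Finset.sum_congr rfl fun i _ => ?_
  rw [map_smul, inner_smul_left]
  ring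

theorem dt_iff [DecidableEq ι] (F : Finset ι) (hc : ∀ i j, Cv R E (v i) (v j)) :
    ¬ Tendsto (fun k => dt R E k v F) atTop (𝓝 0) ↔ Ind R E v F := by
  choose a ha using hc
  obtain ⟨M, hM⟩ : ∃ M : Matrix F F ℂ, M = Matrix.of fun i j : F => a i j := ⟨_, rfl⟩
  have hlim : Tendsto (fun k => dt R E k v F) atTop (𝓝 M.det) := by
    unfold dt
    rw [hM]
    simp only [Matrix.det_apply, Matrix.of_apply]
    refine tendsto_finsetSum _ fun p _ => ?_
    exact (tendsto_finsetProd _ fun i _ => ha _ _).const_smul _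
  have h0 : ¬ Tendsto (fun k => dt R E k v F) atTop (𝓝 0) ↔ M.det ≠ 0 := by
    constructor
    · intro h h1
      rw [h1] at hlim
      exact h hlim
    · intro h h1
      exact h (tendsto_nhds_unique hlim h1)
  rw [h0, Ne, ← Matrix.exists_mulVec_eq_zero_iff]
  constructor
  · intro h c hc i hi
    by_contra hci
    apply h
    refine ⟨fun i => c i, fun h1 => hci (congrFun h1 ⟨i, hi⟩), ?_⟩
    funext i'
    have h2 := nul_gr hc (φ := v i') ⟨_, ha i' i'⟩
    have h3 : Tendsto (fun k => gr R E k (v i') (∑ i ∈ F, c i • v i)) atTop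
        (𝓝 (∑ j ∈ F, c j * a i' j)) := by
      simp only [gr_sum_right]
      exact tendsto_finsetSum _ fun j _ => (ha _ _).const_mul _
    have h4 := tendsto_nhds_unique h3 h2
    rw [hM, Pi.zero_apply, ← h4]
    unfold Matrix.mulVec dotProduct
    simp only [Matrix.of_apply]
    rw [← Finset.sum_coe_sort F]
    exact Finset.sum_congr rfl fun j _ => mul_comm _ _
  · rintro h ⟨w, hw, hMw⟩
    apply hw
    classical
    obtain ⟨c, hcd⟩ : ∃ c : ι → ℂ, c = fun i => if hi : i ∈ F then w ⟨i, hi⟩ else 0 := ⟨_, rfl⟩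
    have hcw : ∀ i : F, c i = w i := by
      intro i
      rw [hcd]
      simp
    have hn : Nul R E (∑ i ∈ F, c i • v i) := by
      have h1 : Tendsto (fun k => gr R E k (∑ i ∈ F, c i • v i) (∑ i ∈ F, c i • v i)) atTop
          (𝓝 (∑ i ∈ F, (starRingEnd ℂ) (c i) * ∑ j ∈ F, c j * a i j)) := by
        have e : ∀ k, gr R E k (∑ i ∈ F, c i • v i) (∑ i ∈ F, c i • v i) =
            ∑ i ∈ F, (starRingEnd ℂ) (c i) * ∑ j ∈ F, c j * gr R E k (v i) (v j) := by
          intro k
          rw [gr_sum_left]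
          exact Finset.sum_congr rfl fun i _ => by rw [gr_sum_right]
        simp only [e]
        exact tendsto_finsetSum _ fun i _ => (tendsto_finsetSum _ fun j _ =>
          (ha _ _).const_mul _).const_mul _
      have h2 : ∑ i ∈ F, (starRingEnd ℂ) (c i) * ∑ j ∈ F, c j * a i j = 0 := by
        rw [← Finset.sum_coe_sort F]
        refine Finset.sum_eq_zero fun i _ => ?_
        have h3 := congrFun hMw i
        rw [hM, Pi.zero_apply] at h3
        unfold Matrix.mulVec dotProduct at h3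
        simp only [Matrix.of_apply] at h3
        rw [← Finset.sum_coe_sort F]
        have h4 : ∑ j : F, c j * a i j = 0 := by
          rw [← h3]
          refine Finset.sum_congr rfl fun j _ => ?_
          rw [hcw, mul_comm]
        rw [h4, mul_zero]
      rw [h2] at h1
      simp only [gr_self] at h1
      have h3 := (Complex.continuous_re.tendsto 0).comp h1
      rw [Complex.zero_re] at h3
      have h4 : Tendsto (fun k => qk R E k (∑ i ∈ F, c i • v i) ^ 2) atTop (𝓝 0) :=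
        h3.congr fun k => Complex.ofReal_re _
      have h5 := (Real.continuous_sqrt.tendsto 0).comp h4
      rw [Real.sqrt_zero] at h5
      exact h5.congr fun k => Real.sqrt_sq (qk_nonneg _ _ _ _)
    funext i
    rw [← hcw i]
    exact h c hn i i.2

/-- a dependent vector is a combination of the others up to a vector of zero density -/
theorem dep_rep [DecidableEq ι] (F : Finset ι) (i : ι) (h1 : Ind R E v F)
    (h2 : ¬ Ind R E v (insert i F)) :
    ∃ c : ι → ℂ, Nul R E (v i - ∑ j ∈ F, c j • v j) := by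
  have hi : i ∉ F := by
    intro hi
    rw [Finset.insert_eq_of_mem hi] at h2
    exact h2 h1
  unfold Ind at h2
  push Not at h2
  obtain ⟨b, hb, j, hj, hbj⟩ := h2
  rw [Finset.sum_insert hi] at hb
  have hbi : b i ≠ 0 := by
    intro h0
    rw [h0, zero_smul, zero_add] at hb
    have h3 := h1 b hb
    rcases Finset.mem_insert.1 hj with h4 | h4
    · rw [h4] at hbj
      exact hbj h0
    · exact hbj (h3 j h4)
  refine ⟨fun j => -(b i)⁻¹ * b j, ?_⟩
  have h3 := nul_smul (b i)⁻¹ hb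
  rw [smul_add, smul_smul, inv_mul_cancel₀ hbi, one_smul, Finset.smul_sum] at h3
  have e : ∑ j ∈ F, (-(b i)⁻¹ * b j) • v j = -∑ j ∈ F, (b i)⁻¹ • b j • v j := by
    rw [← Finset.sum_neg_distrib]
    refine Finset.sum_congr rfl fun j _ => ?_
    rw [smul_smul, ← neg_smul, neg_mul]
  rw [e, sub_neg_eq_add]
  exact h3

end abs

variable {d : ℕ} {ι : Type}

/-- the Gram matrix converges and the densities of the sites are positive -/
def Nice (V : Zd d → ℝ) (E : ℝ) (v : ι → L2 d) : Prop :=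
  (∀ i j, Cv (RV V) E (v i) (v j)) ∧ ∀ x : Zd d, ¬ Nul (RV V) E (dl x)

theorem pos_lim {X : Type} [NormedAddCommGroup X] [InnerProductSpace ℂ X] {R : ℂ → X →L[ℂ] X}
    {E : ℝ} {φ : X} (h : Cv R E φ φ) (h0 : ¬ Nul R E φ) :
    ∃ l : ℝ, 0 < l ∧ Tendsto (fun k => qk R E k φ ^ 2) atTop (𝓝 l) := by
  obtain ⟨a, ha⟩ := h
  have h1 : Tendsto (fun k => qk R E k φ ^ 2) atTop (𝓝 a.re) := by
    refine ((Complex.continuous_re.tendsto a).comp ha).congr fun k => ?_
    simp only [Function.comp]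
    rw [gr_self, Complex.ofReal_re]
  have h2 : 0 ≤ a.re := ge_of_tendsto' h1 fun k => sq_nonneg _
  refine ⟨a.re, lt_of_le_of_ne h2 fun h3 => ?_, h1⟩
  apply h0
  rw [← h3] at h1
  have h5 := (Real.continuous_sqrt.tendsto 0).comp h1
  rw [Real.sqrt_zero] at h5
  exact h5.congr fun k => Real.sqrt_sq (qk_nonneg _ _ _ _)

theorem nice_pos {V : Zd d → ℝ} {E : ℝ} {v : ι → L2 d} {s : Zd d → ι} (hs : ∀ y, v (s y) = dl y)
    (h : Nice V E v) (y : Zd d) :
    ∃ l : ℝ, 0 < l ∧ Tendsto (fun k => qk (RV V) E k (dl y) ^ 2) atTop (𝓝 l) := by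
  refine pos_lim ?_ (h.2 y)
  have h1 := h.1 (s y) (s y)
  rw [hs y] at h1
  exact h1

/-- the change of a combination of zero density -/
theorem nice_upd {V : Zd d → ℝ} {E : ℝ} {v : ι → L2 d} {s : Zd d → ι} (hs : ∀ y, v (s y) = dl y)
    (y : Zd d) (t : ℝ) (ht : t ≠ V y) (h : Nice (Function.update V y t) E v) (F : Finset ι)
    (c : ι → ℂ) (hn : Nul (RV V) E (∑ i ∈ F, c i • v i)) :
    ∃ u : ℂ, Tendsto (fun k => (RV V (zk E k) (∑ i ∈ F, c i • v i) : Zd d → ℂ) y) atTop (𝓝 u) ∧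
      Nul (RV (Function.update V y t)) E
        ((∑ i ∈ F, c i • v i) + (((t - V y : ℝ) : ℂ) * u) • dl y) := by
  obtain ⟨l, hl, hyy⟩ := nice_pos hs h y
  refine nul_upd V E y t ht _ hn l hl hyy ?_
  refine cv_sum_right F c v fun i _ => ?_
  have h1 := h.1 (s y) i
  rw [hs y] at h1
  exact h1

theorem ind_two {V : Zd d → ℝ} {E : ℝ} {v : ι → L2 d} {s : Zd d → ι} (hs : ∀ y, v (s y) = dl y)
    (y : Zd d) (t1 t2 : ℝ) (h12 : t1 ≠ t2) (ht1 : t1 ≠ V y) (ht2 : t2 ≠ V y) (h0 : Nice V E v) (h2 : Nice (Function.update V y t2) E v)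
    (F : Finset ι) (hI : Ind (RV V) E v F) (hD1 : ¬ Ind (RV (Function.update V y t1)) E v F)
    (hD2 : ¬ Ind (RV (Function.update V y t2)) E v F) : False := by
  unfold Ind at hD1 hD2
  push Not at hD1 hD2
  obtain ⟨c1, hn1, i1, hi1, hc1⟩ := hD1
  obtain ⟨c2, hn2, i2, hi2, hc2⟩ := hD2
  -- to the base
  have back : ∀ t, Function.update (Function.update V y t) y (V y) = V := fun t => by
    rw [Function.update_idem, Function.update_eq_self]
  have base : ∀ (t : ℝ) (c : ι → ℂ), t ≠ V y →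
      Nul (RV (Function.update V y t)) E (∑ i ∈ F, c i • v i) →
      ∃ u : ℂ, Tendsto (fun k => (RV (Function.update V y t) (zk E k)
        (∑ i ∈ F, c i • v i) : Zd d → ℂ) y) atTop (𝓝 u) ∧
      Nul (RV V) E ((∑ i ∈ F, c i • v i) + (((V y - t : ℝ) : ℂ) * u) • dl y) := by
    intro t c ht hn
    have h3 : Nice (Function.update (Function.update V y t) y (V y)) E v := by
      rw [back]
      exact h0
    obtain ⟨u, hu1, hu2⟩ := nice_upd hs y (V y) (by rw [Function.update_self]; exact ht.symm) h3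
      F c hn
    rw [back, Function.update_self] at hu2
    exact ⟨u, hu1, hu2⟩
  obtain ⟨u1, hu1, hb1⟩ := base t1 c1 ht1 hn1
  obtain ⟨u2, hu2, hb2⟩ := base t2 c2 ht2 hn2
  obtain ⟨s1, hs1⟩ : ∃ s1 : ℂ, s1 = ((V y - t1 : ℝ) : ℂ) * u1 := ⟨_, rfl⟩
  obtain ⟨s2, hs2⟩ : ∃ s2 : ℂ, s2 = ((V y - t2 : ℝ) : ℂ) * u2 := ⟨_, rfl⟩
  rw [← hs1] at hb1
  rw [← hs2] at hb2
  have hs10 : s1 ≠ 0 := by
    intro h
    rw [h, zero_smul, add_zero] at hb1
    exact hc1 (hI c1 hb1 i1 hi1)
  have hs20 : s2 ≠ 0 := by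
    intro h
    rw [h, zero_smul, add_zero] at hb2
    exact hc2 (hI c2 hb2 i2 hi2)
  -- the two vectors are proportional
  have h3 := nul_sub (nul_smul s2 hb1) (nul_smul s1 hb2)
  have e : s2 • ((∑ i ∈ F, c1 i • v i) + s1 • (dl y : L2 d)) -
      s1 • ((∑ i ∈ F, c2 i • v i) + s2 • (dl y : L2 d)) =
      ∑ i ∈ F, (s2 * c1 i - s1 * c2 i) • v i := by
    simp only [sub_smul, Finset.sum_sub_distrib, mul_smul, ← Finset.smul_sum]
    rw [smul_add, smul_add, smul_comm s1 s2]
    abel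
  rw [e] at h3
  have h4 := hI _ h3
  have h5 : ∑ i ∈ F, c2 i • v i = (s2 / s1) • ∑ i ∈ F, c1 i • v i := by
    rw [Finset.smul_sum]
    refine Finset.sum_congr rfl fun i hi => ?_
    rw [smul_smul]
    congr 1
    have := h4 i hi
    field_simp
    linear_combination -this
  rw [h5] at hn2
  have hn2' := nul_of_smul (div_ne_zero hs20 hs10) hn2
  have h6 : Function.update (Function.update V y t1) y t2 = Function.update V y t2 :=
    Function.update_idem _ _ _
  have h7 : Nice (Function.update (Function.update V y t1) y t2) E v := by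
    rw [h6]
    exact h2
  obtain ⟨u3, hu3, hb3⟩ := nice_upd hs y t2 (by rw [Function.update_self]; exact h12.symm) h7
    F c1 hn1
  have hu31 : u3 = u1 := tendsto_nhds_unique hu3 hu1
  rw [h6, Function.update_self, hu31] at hb3
  have h8 := nul_sub hb3 hn2'
  rw [add_sub_cancel_left] at h8
  have hu10 : u1 ≠ 0 := by
    intro h
    rw [h, mul_zero] at hs1
    exact hs10 hs1
  have h9 : ((t2 - t1 : ℝ) : ℂ) ≠ 0 := by
    exact_mod_cast sub_ne_zero.2 h12.symm
  exact h2.2 y (nul_of_smul (mul_ne_zero h9 hu10) h8)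

end Pool.Agent.L5helper74.IM
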