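import Pool.Agent.L5helper74.IM.Nv
import Pool.Agent.L5helper74.IM.Fi

/-!
# The relations at an energy, for one potential
-/

set_option autoImplicit false

open MeasureTheory Filter Topology
open scoped InnerProductSpace

namespace Pool.Agent.L5helper74.IM

open Pool.Agent.TH369.AN (Zd L2 dl ee inner_dl norm_dl dl_apply iid)
open Pool.Agent.TH369.MU (ep zk)

variable {d : ℕ} {ι : Type}

theorem zk_tendsto (E : ℝ) : Tendsto (fun k => zk E k) atTop (𝓝 (E : ℂ)) := by
  unfold zk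
  have h1 : Tendsto (fun k => (ep k : ℂ)) atTop (𝓝 ((0 : ℝ) : ℂ)) :=
    (Complex.continuous_ofReal.tendsto 0).comp ep_tendsto
  have h2 := (h1.mul_const Complex.I).const_add (E : ℂ)
  simpa using h2

/-- a pointwise limit of the resolvents solves the equation -/
theorem lim_eq {V : Zd d → ℝ} {E : ℝ} {ψ : L2 d} {u : Zd d → ℂ}
    (h : ∀ y, Tendsto (fun k => (RV V (zk E k) ψ : Zd d → ℂ) y) atTop (𝓝 (u y))) (x : Zd d) :
    HV V u x - (E : ℂ) * u x = (ψ : Zd d → ℂ) x := by
  have h1 : Tendsto (fun k => HV V (RV V (zk E k) ψ : Zd d → ℂ) x -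
      zk E k * (RV V (zk E k) ψ : Zd d → ℂ) x) atTop (𝓝 (HV V u x - (E : ℂ) * u x)) := by
    unfold HV
    refine Tendsto.sub (Tendsto.add ?_ ((h x).const_mul _)) ((zk_tendsto E).mul (h x))
    exact tendsto_finsetSum _ fun i _ => (h _).add (h _)
  have h2 : ∀ k, HV V (RV V (zk E k) ψ : Zd d → ℂ) x -
      zk E k * (RV V (zk E k) ψ : Zd d → ℂ) x = (ψ : Zd d → ℂ) x := fun k =>
    sol_fun.1 (rv_sol V (zk E k) (zk_im_ne E k) ψ) x
  simp only [h2] at h1
  exact tendsto_nhds_unique h1 tendsto_const_nhds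

theorem hv_lin (V : Zd d → ℝ) (a b : Zd d → ℂ) (c : ℂ) (x : Zd d) :
    HV V (fun y => a y + c * b y) x = HV V a x + c * HV V b x := by
  unfold HV
  have e : ∀ i : Fin d, (a (x + Pi.single i 1) + c * b (x + Pi.single i 1) +
      (a (x - Pi.single i 1) + c * b (x - Pi.single i 1))) =
      (a (x + Pi.single i 1) + a (x - Pi.single i 1)) +
      c * (b (x + Pi.single i 1) + b (x - Pi.single i 1)) := fun i => by ring
  simp only [e]
  rw [Finset.sum_add_distrib, ← Finset.mul_sum]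
  ring

/-- coherence with a family of finite sets -/
def Coh (V : Zd d → ℝ) (E : ℝ) (v : ι → L2 d) (I : Set (Finset ι)) : Prop :=
  Nice V E v ∧ ∀ F : Finset ι, Ind (RV V) E v F ↔ F ∈ I

theorem fin_det [DecidableEq ι] {V : Zd d → ℝ} {E : ℝ} {v : ι → L2 d} {s : Zd d → ι}
    (hs : ∀ y, v (s y) = dl y) (hsi : Function.Injective s) {I : Set (Finset ι)}
    (h0 : Coh V E v I) (h1 : ∀ y, ∃ t, t ≠ V y ∧ Coh (Function.update V y t) E v I)
    (h2 : ∀ F ∈ I, {y : Zd d | insert (s y) F ∉ I}.Finite) (F : Finset ι) (c : ι → ℂ)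
    (hn : Nul (RV V) E (∑ i ∈ F, c i • v i)) :
    ∃ u : Zd d → ℂ, u.support.Finite ∧
      ∀ x, HV V u x - (E : ℂ) * u x = ((∑ i ∈ F, c i • v i : L2 d) : Zd d → ℂ) x := by
  classical
  obtain ⟨ψ, hψ⟩ : ∃ ψ : L2 d, ψ = ∑ i ∈ F, c i • v i := ⟨_, rfl⟩
  -- a maximal independent subset
  have hemp : ∅ ∈ I := (h0.2 ∅).1 fun c _ i hi => absurd hi (Finset.notMem_empty i)
  obtain ⟨F0, hF0, hmax⟩ := Finset.exists_max_image (F.powerset.filter fun G => G ∈ I)
    Finset.card ⟨∅, by simp [hemp]⟩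
  rw [Finset.mem_filter, Finset.mem_powerset] at hF0
  have hdep : ∀ x ∈ F, x ∉ F0 → insert x F0 ∉ I := by
    intro x hx hx0 hI
    have h3 := hmax (insert x F0) (by
      rw [Finset.mem_filter, Finset.mem_powerset]
      exact ⟨Finset.insert_subset hx hF0.1, hI⟩)
    rw [Finset.card_insert_of_notMem hx0] at h3
    omega
  -- the limits
  have key : ∀ y : Zd d, ∃ u : ℂ, Tendsto (fun k => (RV V (zk E k) ψ : Zd d → ℂ) y) atTop (𝓝 u) ∧
      (insert (s y) F0 ∈ I → s y ∉ F0 → u = 0) := by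
    intro y
    obtain ⟨t, ht, hco⟩ := h1 y
    obtain ⟨u, hu1, hu2⟩ := nice_upd hs y t ht hco.1 F c hn
    rw [← hψ] at hu1
    refine ⟨u, hu1, fun hy hy0 => ?_⟩
    have hrep : ∀ x : ι, ∃ b : ι → ℂ, x ∈ F →
        Nul (RV (Function.update V y t)) E (v x - ∑ j ∈ F0, b j • v j) := by
      intro x
      by_cases hx : x ∈ F
      · by_cases hx0 : x ∈ F0
        · refine ⟨Pi.single x 1, fun _ => ?_⟩
          have h3 : ∑ j ∈ F0, (Pi.single x 1 : ι → ℂ) j • v j = v x := by
            rw [Finset.sum_eq_single x]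
            · rw [Pi.single_eq_same, one_smul]
            · intro j _ hj
              rw [Pi.single_eq_of_ne hj, zero_smul]
            · intro h
              exact absurd hx0 h
          rw [h3, sub_self]
          exact nul_zero
        · obtain ⟨b, hb⟩ := dep_rep F0 x ((hco.2 F0).2 hF0.2)
            (fun h => hdep x hx hx0 ((hco.2 _).1 h))
          exact ⟨b, fun _ => hb⟩
      · exact ⟨0, fun h => absurd h hx⟩
    choose b hb using hrep
    have h3 : Nul (RV (Function.update V y t)) E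
        (∑ x ∈ F, c x • (v x - ∑ j ∈ F0, b x j • v j)) :=
      nul_sum _ _ fun x hx => nul_smul _ (hb x hx)
    have h4 := nul_sub hu2 h3
    obtain ⟨g, hg⟩ : ∃ g : ι → ℂ, g = fun i => if i = s y then ((t - V y : ℝ) : ℂ) * u else
      ∑ x ∈ F, c x * b x i := ⟨_, rfl⟩
    have e : (∑ i ∈ F, c i • v i) + (((t - V y : ℝ) : ℂ) * u) • (dl y : L2 d) -
        ∑ x ∈ F, c x • (v x - ∑ j ∈ F0, b x j • v j) = ∑ i ∈ insert (s y) F0, g i • v i := by
      rw [Finset.sum_insert hy0]
      have e1 : g (s y) • v (s y) = (((t - V y : ℝ) : ℂ) * u) • (dl y : L2 d) := by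
        rw [hg, hs y]
        simp
      have e2 : ∑ i ∈ F0, g i • v i = ∑ x ∈ F, c x • ∑ j ∈ F0, b x j • v j := by
        simp only [Finset.smul_sum, smul_smul]
        rw [Finset.sum_comm]
        refine Finset.sum_congr rfl fun i hi => ?_
        have hne : i ≠ s y := fun h => hy0 (h ▸ hi)
        rw [hg]
        simp only [if_neg hne]
        rw [Finset.sum_smul]
      rw [e1, e2]
      simp only [smul_sub, Finset.sum_sub_distrib]
      abel
    rw [e] at h4
    have h5 := (hco.2 _).2 hy g h4 (s y) (Finset.mem_insert_self _ _)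
    rw [hg] at h5
    simp only [if_true] at h5
    rcases mul_eq_zero.1 h5 with h6 | h6
    · exact absurd (by exact_mod_cast h6 : t - V y = 0) (sub_ne_zero.2 ht)
    · exact h6
  choose u hu hu0 using key
  refine ⟨u, ?_, fun x => ?_⟩
  · have hfin : ({y : Zd d | insert (s y) F0 ∉ I} ∪ s ⁻¹' (F0 : Set ι)).Finite :=
      (h2 F0 hF0.2).union (F0.finite_toSet.preimage hsi.injOn)
    refine hfin.subset fun y hy => ?_
    by_contra hcon
    rw [Set.mem_union, not_or] at hcon
    apply hy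
    refine hu0 y ?_ ?_
    · by_contra h
      exact hcon.1 h
    · intro h
      exact hcon.2 h
  · rw [← hψ]
    exact lim_eq hu x

/-- finitely supported solutions give vectors of zero density -/
theorem nul_of_fin {V : Zd d → ℝ} {E : ℝ} {ψ : L2 d} {w : L2 d}
    (h : ∀ x, HV V (w : Zd d → ℂ) x - (E : ℂ) * (w : Zd d → ℂ) x = (ψ : Zd d → ℂ) x) :
    Nul (RV V) E ψ := by
  have h1 : ∀ k, RV V (zk E k) ψ = w + ((ep k : ℂ) * Complex.I) • RV V (zk E k) w := by
    intro k
    symm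
    refine rv_uniq (zk_im_ne E k) (sol_fun.2 fun x => ?_)
    have h2 := sol_fun.1 (rv_sol V (zk E k) (zk_im_ne E k) w) x
    have h3 := hv_lin V (w : Zd d → ℂ) (RV V (zk E k) w : Zd d → ℂ) ((ep k : ℂ) * Complex.I) x
    have h4 := h x
    change HV V (fun y => (w : Zd d → ℂ) y + ((ep k : ℂ) * Complex.I) *
      (RV V (zk E k) w : Zd d → ℂ) y) x - zk E k * ((w : Zd d → ℂ) x + ((ep k : ℂ) * Complex.I) *
      (RV V (zk E k) w : Zd d → ℂ) x) = (ψ : Zd d → ℂ) x
    rw [h3, ← h4]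
    have hz : zk E k = (E : ℂ) + (ep k : ℂ) * Complex.I := rfl
    rw [hz] at h2 ⊢
    linear_combination ((ep k : ℂ) * Complex.I) * h2
  have h2 : Tendsto (fun k => Real.sqrt (ep k) * (2 * ‖w‖)) atTop (𝓝 0) := by
    have := ((Real.continuous_sqrt.tendsto 0).comp ep_tendsto).mul_const (2 * ‖w‖)
    rw [Real.sqrt_zero, zero_mul] at this
    exact this
  refine squeeze_zero (fun k => qk_nonneg _ _ _ _) (fun k => ?_) h2
  unfold qk
  refine mul_le_mul_of_nonneg_left ?_ (Real.sqrt_nonneg _)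
  rw [h1]
  refine (norm_add_le _ _).trans ?_
  rw [norm_smul, norm_mul, Complex.norm_I, mul_one, Complex.norm_real, Real.norm_eq_abs,
    abs_of_pos (ep_pos k)]
  have h4 := sy_norm (rv_sy V) (zk E k) (zk_im_ne E k) w
  rw [zk_im, abs_of_pos (ep_pos k), le_div_iff₀ (ep_pos k)] at h4
  linarith

end Pool.Agent.L5helper74.IM
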