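import Pool.Agent.L5helper74.IM.Nw

/-!
# Either all sites have a positive density or none
-/

set_option autoImplicit false

open MeasureTheory Filter Topology
open scoped InnerProductSpace

namespace Pool.Agent.L5helper74.IM

open Pool.Agent.TH369.AN (Zd L2 dl ee inner_dl norm_dl dl_apply iid)
open Pool.Agent.TH369.MU (ep zk upd_mp)

variable {d : ℕ}

namespace NX

/-- a set of sites closed under the steps is everything -/
theorem conn (P : Set (Zd d)) (hP : P.Nonempty)
    (h : ∀ v ∈ P, ∀ i : Fin d, v + ee i ∈ P ∧ v - ee i ∈ P) (x : Zd d) : x ∈ P := by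
  obtain ⟨v, hv⟩ := hP
  have h1 : ∀ (i : Fin d) (n : ℤ), ∀ w ∈ P, w + n • ee i ∈ P := by
    intro i n
    induction n using Int.induction_on with
    | zero =>
      intro w hw
      rw [zero_smul, add_zero]
      exact hw
    | succ m ih =>
      intro w hw
      have h2 := (h _ (ih w hw) i).1
      rw [add_smul, one_smul, ← add_assoc]
      exact h2
    | pred m ih =>
      intro w hw
      have h2 := (h _ (ih w hw) i).2
      rw [sub_smul, one_smul, ← add_sub_assoc]
      exact h2
  have h2 : ∀ (s : Finset (Fin d)) (w : Zd d), w ∈ P → w + ∑ i ∈ s, (x - v) i • ee i ∈ P := by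
    intro s
    induction s using Finset.induction_on with
    | empty => intro w hw; simpa using hw
    | insert i s hi ih =>
      intro w hw
      rw [Finset.sum_insert hi, ← add_assoc]
      exact ih _ (h1 i _ w hw)
  have h3 := h2 Finset.univ v hv
  have h4 : ∑ i, (x - v) i • (ee i : Zd d) = x - v := by
    funext j
    rw [Finset.sum_apply, Finset.sum_eq_single j]
    · simp [ee]
    · intro i _ hij
      simp [ee, Pi.single_eq_of_ne hij.symm]
    · intro h
      exact absurd (Finset.mem_univ j) h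
  rw [h4, add_sub_cancel] at h3
  exact h3

theorem adj (V : Zd d → ℝ) (E : ℝ)
    (hZP : ∀ x y : Zd d, Nul (RV V) E (dl x) → ¬ Nul (RV V) E (dl y) →
      Tendsto (fun k => (RV V (zk E k) (dl x) : Zd d → ℂ) y) atTop (𝓝 0))
    (v : Zd d) (hv : ¬ Nul (RV V) E (dl v)) (i0 : Fin d) (b0 : Bool)
    (hw : Nul (RV V) E (dl (if b0 then v + ee i0 else v - ee i0))) : False := by
  classical
  obtain ⟨N, hN⟩ : ∃ N : Fin d × Bool → Zd d, N = fun p => if p.2 then v + ee p.1 else v - ee p.1 :=
    ⟨_, rfl⟩
  have hN0 : N (i0, b0) = if b0 then v + ee i0 else v - ee i0 := by rw [hN]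
  rw [← hN0] at hw
  obtain ⟨c, hc⟩ : ∃ c : Fin d × Bool → ℂ, c = fun p => if Nul (RV V) E (dl (N p)) then 1 else 0 :=
    ⟨_, rfl⟩
  obtain ⟨a, ha⟩ : ∃ a : L2 d, a = ∑ p, c p • (dl (N p) : L2 d) := ⟨_, rfl⟩
  have hR : ∀ k (y : Zd d), (RV V (zk E k) a : Zd d → ℂ) y =
      ∑ p, c p * (RV V (zk E k) (dl (N p)) : Zd d → ℂ) y := by
    intro k y
    rw [ha, map_sum, Pool.Agent.TH369.AN.OP.coe_sum]
    refine Finset.sum_congr rfl fun p _ => ?_
    rw [map_smul, lp.coeFn_smul, Pi.smul_apply, smul_eq_mul]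
  have hlim : ∀ y : Zd d, Tendsto (fun k => (RV V (zk E k) a : Zd d → ℂ) y) atTop (𝓝 0) := by
    intro y
    simp only [hR]
    by_cases hy : Nul (RV V) E (dl y)
    · -- symmetry and the equation at `v`
      have hsym : ∀ k p, (RV V (zk E k) (dl (N p)) : Zd d → ℂ) y =
          (RV V (zk E k) (dl y) : Zd d → ℂ) (N p) := by
        intro k p
        rw [← inner_dl, ← inner_dl]
        exact rv_symm V (zk E k) (zk_im_ne E k) y (N p)
      simp only [hsym]
      have hne : v ≠ y := fun h => hv (h ▸ hy)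
      have h1 : ∀ k, ∑ p, (RV V (zk E k) (dl y) : Zd d → ℂ) (N p) =
          (zk E k - (V v : ℂ)) * (RV V (zk E k) (dl y) : Zd d → ℂ) v := by
        intro k
        have h2 := rv_sol V (zk E k) (zk_im_ne E k) (dl y) v
        rw [Ad_apply, dl_apply, if_neg hne] at h2
        rw [Fintype.sum_prod_type]
        simp only [Fintype.sum_bool, hN, if_true]
        have h3 : ∀ i : Fin d, ((RV V (zk E k) (dl y) : Zd d → ℂ) (v + ee i) +
          (RV V (zk E k) (dl y) : Zd d → ℂ) (if false = true then v + ee i else v - ee i)) =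
          (RV V (zk E k) (dl y) : Zd d → ℂ) (v + ee i) +
          (RV V (zk E k) (dl y) : Zd d → ℂ) (v - ee i) := fun i => by simp
        simp only [h3]
        linear_combination h2
      have h2 : Tendsto (fun k => ∑ p, (RV V (zk E k) (dl y) : Zd d → ℂ) (N p)) atTop (𝓝 0) := by
        simp only [h1]
        have h3 := ((zk_tendsto E).sub_const (V v : ℂ)).mul (hZP y v hy hv)
        rw [mul_zero] at h3
        exact h3
      have h3 : Tendsto (fun k => ∑ p, (1 - c p) * (RV V (zk E k) (dl y) : Zd d → ℂ) (N p)) atTop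
          (𝓝 0) := by
        have h4 : Tendsto (fun k => ∑ p, (1 - c p) * (RV V (zk E k) (dl y) : Zd d → ℂ) (N p)) atTop
            (𝓝 (∑ p : Fin d × Bool, (0 : ℂ))) := by
          refine tendsto_finsetSum _ fun p _ => ?_
          by_cases hp : Nul (RV V) E (dl (N p))
          · have : (1 : ℂ) - c p = 0 := by
              rw [hc]
              simp [hp]
            simp only [this, zero_mul]
            exact tendsto_const_nhds
          · have := (hZP y (N p) hy hp).const_mul (1 - c p)
            rw [mul_zero] at this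
            exact this
        rw [Finset.sum_const_zero] at h4
        exact h4
      have h5 := h2.sub h3
      rw [sub_zero] at h5
      refine h5.congr fun k => ?_
      rw [← Finset.sum_sub_distrib]
      exact Finset.sum_congr rfl fun p _ => by ring
    · have h4 : Tendsto (fun k => ∑ p, c p * (RV V (zk E k) (dl (N p)) : Zd d → ℂ) y) atTop
            (𝓝 (∑ p : Fin d × Bool, (0 : ℂ))) := by
        refine tendsto_finsetSum _ fun p _ => ?_
        by_cases hp : Nul (RV V) E (dl (N p))
        · have := (hZP (N p) y hp hy).const_mul (c p)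
          rw [mul_zero] at this
          exact this
        · have : c p = 0 := by
            rw [hc]
            simp [hp]
          simp only [this, zero_mul]
          exact tendsto_const_nhds
      rw [Finset.sum_const_zero] at h4
      exact h4
  have h1 := lim_eq (u := fun _ => (0 : ℂ)) hlim (N (i0, b0))
  have h2 : HV V (fun _ => (0 : ℂ)) (N (i0, b0)) = 0 := by
    unfold HV
    simp
  rw [h2, mul_zero, sub_zero, ha, Pool.Agent.TH369.AN.OP.coe_sum] at h1
  have h3 := congrArg Complex.re h1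
  rw [Complex.zero_re, Complex.re_sum] at h3
  have h4 : ∀ p : Fin d × Bool, 0 ≤ (((c p • (dl (N p) : L2 d) : L2 d) : Zd d → ℂ)
      (N (i0, b0))).re := by
    intro p
    rw [lp.coeFn_smul, Pi.smul_apply, smul_eq_mul, dl_apply, hc]
    simp only
    split_ifs <;> simp
  have h5 := Finset.single_le_sum (f := fun p : Fin d × Bool =>
    (((c p • (dl (N p) : L2 d) : L2 d) : Zd d → ℂ) (N (i0, b0))).re) (fun p _ => h4 p)
    (Finset.mem_univ (i0, b0))
  simp only at h5
  rw [← h3, lp.coeFn_smul, Pi.smul_apply, smul_eq_mul, dl_apply, if_pos rfl, hc] at h5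
  simp only [if_pos hw] at h5
  norm_num at h5

end NX

/-- if some site has a positive density then all have, provided the Green functions between the
two kinds of sites vanish -/
theorem all_pos (V : Zd d → ℝ) (E : ℝ)
    (hZP : ∀ x y : Zd d, Nul (RV V) E (dl x) → ¬ Nul (RV V) E (dl y) →
      Tendsto (fun k => (RV V (zk E k) (dl x) : Zd d → ℂ) y) atTop (𝓝 0))
    (hex : ∃ y : Zd d, ¬ Nul (RV V) E (dl y)) (x : Zd d) : ¬ Nul (RV V) E (dl x) := by
  refine NX.conn {y : Zd d | ¬ Nul (RV V) E (dl y)} hex (fun v hv i => ⟨fun h => ?_, fun h => ?_⟩) x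
  · exact NX.adj V E hZP v hv i true (by simpa using h)
  · exact NX.adj V E hZP v hv i false (by simpa using h)

/-! ### null sets by sections -/

theorem sec_null (μ : Measure ℝ) [IsProbabilityMeasure μ] [NullSingletonClass μ] (A : Set (Zd d → ℝ))
    (hA : MeasurableSet A) (G : (Zd d → ℝ) → Prop) (hG : ∀ᵐ ω ∂(iid d μ), G ω) (y : Zd d)
    (h : ∀ (ω : Zd d → ℝ) (t1 t2 : ℝ), t1 ≠ t2 → Function.update ω y t1 ∈ A →
      G (Function.update ω y t1) → Function.update ω y t2 ∈ A → G (Function.update ω y t2) →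
      False) : iid d μ A = 0 := by
  have : IsProbabilityMeasure (iid d μ) := by unfold iid; infer_instance
  have hm := upd_mp (d := d) μ y
  rw [← hm.measure_preimage hA.nullMeasurableSet,
    Measure.measure_prod_null (hm.measurable hA)]
  have h1 := Measure.ae_ae_of_ae_prod (hm.quasiMeasurePreserving.ae hG)
  filter_upwards [h1] with ω hω
  have h2 : Prod.mk ω ⁻¹' ((fun p : (Zd d → ℝ) × ℝ => Function.update p.1 y p.2) ⁻¹' A) ⊆
      {t | Function.update ω y t ∈ A ∧ G (Function.update ω y t)} ∪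
        {t | ¬ G (Function.update ω y t)} := by
    intro t ht
    by_cases hg : G (Function.update ω y t)
    · exact Or.inl ⟨ht, hg⟩
    · exact Or.inr hg
  refine measure_mono_null h2 (measure_union_null ?_ hω)
  refine Set.Subsingleton.measure_zero (fun t1 ht1 t2 ht2 => ?_) μ
  by_contra hne
  exact h ω t1 t2 hne ht1.1 ht1.2 ht2.1 ht2.2

theorem om_cont (σ : ℝ) (E : ℝ) (k : ℕ) (g : L2 d) :
    Continuous fun ω : Zd d → ℝ => RV (fun x => σ * ω x) (zk E k) g := by
  have h : Continuous fun ω : Zd d → ℝ => fun x => σ * ω x :=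
    continuous_pi fun x => continuous_const.mul (continuous_apply x)
  exact (rv_cont (zk E k) (zk_im_ne E k) g).comp h

theorem qk_meas (σ : ℝ) (E : ℝ) (k : ℕ) (g : L2 d) :
    Measurable fun ω : Zd d → ℝ => qk (RV (fun x => σ * ω x)) E k g := by
  unfold qk
  exact ((om_cont σ E k g).norm.const_mul _).measurable

/-- Green's function between a site of zero density and a site of positive density vanishes -/
theorem zp_ae (σ : ℝ) (hσ : σ ≠ 0) (μ : Measure ℝ) [IsProbabilityMeasure μ] [NullSingletonClass μ] (E : ℝ)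
    (hcv : ∀ᵐ ω ∂(iid d μ), ∀ x y : Zd d, Cv (RV (fun x => σ * ω x)) E (dl x) (dl y)) :
    ∀ᵐ ω ∂(iid d μ), ∀ x y : Zd d, Nul (RV (fun x => σ * ω x)) E (dl x) →
      ¬ Nul (RV (fun x => σ * ω x)) E (dl y) →
      Tendsto (fun k => (RV (fun x => σ * ω x) (zk E k) (dl x) : Zd d → ℂ) y) atTop (𝓝 0) := by
  rw [ae_all_iff]
  intro x
  rw [ae_all_iff]
  intro y
  have hmeas : ∀ x : Zd d, MeasurableSet {ω : Zd d → ℝ | Nul (RV (fun x => σ * ω x)) E (dl x)} :=
    fun x => measurableSet_tendsto _ fun k => qk_meas σ E k (dl x)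
  have hA : MeasurableSet {ω : Zd d → ℝ | ¬ (Nul (RV (fun x => σ * ω x)) E (dl x) →
      ¬ Nul (RV (fun x => σ * ω x)) E (dl y) →
      Tendsto (fun k => (RV (fun x => σ * ω x) (zk E k) (dl x) : Zd d → ℂ) y) atTop (𝓝 0))} := by
    have h1 : MeasurableSet {ω : Zd d → ℝ | Tendsto (fun k =>
        (RV (fun x => σ * ω x) (zk E k) (dl x) : Zd d → ℂ) y) atTop (𝓝 0)} := by
      refine measurableSet_tendsto _ fun k => ?_
      have h2 := gk_meas σ E k y x
      unfold Gk at h2
      simp only [inner_dl] at h2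
      exact h2
    have e : {ω : Zd d → ℝ | ¬ (Nul (RV (fun x => σ * ω x)) E (dl x) →
      ¬ Nul (RV (fun x => σ * ω x)) E (dl y) →
      Tendsto (fun k => (RV (fun x => σ * ω x) (zk E k) (dl x) : Zd d → ℂ) y) atTop (𝓝 0))} =
      {ω : Zd d → ℝ | Nul (RV (fun x => σ * ω x)) E (dl x)} ∩
      ({ω : Zd d → ℝ | Nul (RV (fun x => σ * ω x)) E (dl y)}ᶜ ∩ {ω : Zd d → ℝ | Tendsto (fun k =>
        (RV (fun x => σ * ω x) (zk E k) (dl x) : Zd d → ℂ) y) atTop (𝓝 0)}ᶜ) := by
      ext ω
      simp only [Set.mem_inter_iff, Set.mem_compl_iff, Set.mem_ofPred_eq]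
      tauto
    rw [e]
    exact (hmeas x).inter ((hmeas y).compl.inter h1.compl)
  rw [ae_iff]
  refine sec_null μ _ hA _ hcv y fun ω t1 t2 h12 h1 g1 h2 g2 => ?_
  simp only [Set.mem_ofPred_eq] at h1 h2
  push Not at h1 h2
  obtain ⟨a1, b1, c1⟩ := h1
  obtain ⟨a2, b2, -⟩ := h2
  apply c1
  have hup : (fun x => σ * Function.update ω y t2 x) =
      Function.update (fun x => σ * Function.update ω y t1 x) y (σ * t2) := by
    rw [← upd_fun, Function.update_idem]
  rw [hup] at a2 b2 g2
  obtain ⟨l, hl, hyy⟩ := pos_lim (g2 y y) b2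
  have ht : σ * t2 ≠ (fun x => σ * Function.update ω y t1 x) y := by
    simp only [Function.update_self]
    intro h
    exact h12 (mul_left_cancel₀ hσ h).symm
  obtain ⟨u, hu1, hu2⟩ := nul_upd _ E y (σ * t2) ht (dl x) a1 l hl hyy (g2 y x)
  have h3 := nul_sub hu2 a2
  rw [add_sub_cancel_left] at h3
  have hu0 : u = 0 := by
    by_contra hne
    refine b2 (nul_of_smul (mul_ne_zero ?_ hne) h3)
    exact_mod_cast sub_ne_zero.2 ht
  rw [hu0] at hu1
  exact hu1

end Pool.Agent.L5helper74.IM
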