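import Pool.Agent.L5helper74.IM.Nx

/-!
# Zero-one law for independence of a finite family
-/

set_option autoImplicit false

open MeasureTheory Filter Topology
open scoped InnerProductSpace

namespace Pool.Agent.L5helper74.IM

open Pool.Agent.TH369.AN (Zd L2 dl ee inner_dl norm_dl dl_apply iid)
open Pool.Agent.TH369.MU (ep zk upd_mp)

variable {d : ℕ}

/-- an event which is stable when a single coordinate is resampled has probability zero or one -/
theorem res_zero_one (μ : Measure ℝ) [IsProbabilityMeasure μ] (A : Set (Zd d → ℝ))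
    (hA : MeasurableSet A)
    (h : ∀ y : Zd d, ∀ᵐ p ∂((iid d μ).prod μ), p.1 ∈ A → Function.update p.1 y p.2 ∈ A) :
    iid d μ A = 0 ∨ iid d μ A = 1 := by
  classical
  obtain ⟨P, hP⟩ : ∃ P : Measure (Zd d → ℝ), P = iid d μ := ⟨_, rfl⟩
  have hPp : IsProbabilityMeasure P := by rw [hP]; unfold iid; infer_instance
  rw [← hP] at h ⊢
  by_cases h0 : P A = 0
  · exact Or.inl h0
  right
  have hmp : ∀ y : Zd d, MeasurePreserving
      (fun p : (Zd d → ℝ) × ℝ => Function.update p.1 y p.2) (P.prod μ) P := fun y => by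
    rw [hP]
    exact upd_mp (d := d) μ y
  have hfst : (P.prod μ) (Prod.fst ⁻¹' A) = P A := by
    rw [← Set.prod_univ, Measure.prod_prod, measure_univ, mul_one]
  have hae : ∀ y : Zd d, (Prod.fst ⁻¹' A : Set ((Zd d → ℝ) × ℝ)) =ᵐ[P.prod μ]
      ((fun p : (Zd d → ℝ) × ℝ => Function.update p.1 y p.2) ⁻¹' A) := by
    intro y
    refine ae_eq_of_ae_subset_of_measure_ge (h y) ?_ (measurable_fst hA).nullMeasurableSet
      (measure_ne_top _ _)
    rw [hfst, (hmp y).measure_preimage hA.nullMeasurableSet]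
  have key : ∀ (s : Finset (Zd d)) (t : Zd d → Set ℝ), (∀ i, MeasurableSet (t i)) →
      P (A ∩ Set.pi s t) = P A * ∏ i ∈ s, μ (t i) := by
    intro s t ht
    induction s using Finset.induction_on with
    | empty => simp
    | insert y s hy ih =>
      have hpi : MeasurableSet (Set.pi (insert y s : Finset (Zd d)) t) :=
        MeasurableSet.pi (Set.to_countable _) fun i _ => ht i
      rw [← (hmp y).measure_preimage (hA.inter hpi).nullMeasurableSet, Set.preimage_inter]
      have e1 : (fun p : (Zd d → ℝ) × ℝ => Function.update p.1 y p.2) ⁻¹'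
          (Set.pi (insert y s : Finset (Zd d)) t) = (Set.pi s t) ×ˢ (t y) := by
        ext p
        simp only [Set.mem_preimage, Set.mem_pi, Finset.coe_insert, Set.mem_insert_iff,
          Finset.mem_coe, Set.mem_prod]
        constructor
        · intro h1
          refine ⟨fun i hi => ?_, ?_⟩
          · have h2 := h1 i (Or.inr hi)
            have hne : i ≠ y := fun h => hy (by rw [← h]; exact hi)
            rw [Function.update_of_ne hne] at h2
            exact h2
          · have h2 := h1 y (Or.inl rfl)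
            rw [Function.update_self] at h2
            exact h2
        · rintro ⟨h1, h2⟩ i (hi | hi)
          · rw [hi, Function.update_self]
            exact h2
          · have hne : i ≠ y := fun h => hy (by rw [← h]; exact hi)
            rw [Function.update_of_ne hne]
            exact h1 i hi
      have e2 : (P.prod μ) ((fun p : (Zd d → ℝ) × ℝ => Function.update p.1 y p.2) ⁻¹' A ∩
          (Set.pi s t) ×ˢ (t y)) = (P.prod μ) (Prod.fst ⁻¹' A ∩ (Set.pi s t) ×ˢ (t y)) :=
        measure_congr ((hae y).symm.inter (ae_eq_refl _))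
      have e3 : (Prod.fst ⁻¹' A ∩ (Set.pi s t) ×ˢ (t y) : Set ((Zd d → ℝ) × ℝ)) =
          (A ∩ Set.pi s t) ×ˢ (t y) := by
        ext p
        simp only [Set.mem_inter_iff, Set.mem_preimage, Set.mem_prod]
        tauto
      rw [e1, e2, e3, Measure.prod_prod, ih, Finset.prod_insert hy]
      ring
  have hfin : P A ≠ ⊤ := measure_ne_top _ _
  have h1 : (P A)⁻¹ • P.restrict A = P := by
    conv_rhs => rw [hP]
    unfold iid
    refine Measure.eq_infinitePi (fun _ : Zd d => μ) fun s t ht => ?_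
    have hpi : MeasurableSet (Set.pi (s : Set (Zd d)) t) :=
      MeasurableSet.pi (Set.to_countable _) fun i _ => ht i
    rw [Measure.smul_apply, smul_eq_mul, Measure.restrict_apply hpi, Set.inter_comm, key s t ht,
      ← mul_assoc, ENNReal.inv_mul_cancel h0 hfin, one_mul]
  have h2 := congrArg (fun m : Measure (Zd d → ℝ) => m A) h1
  simp only at h2
  rw [Measure.smul_apply, smul_eq_mul, Measure.restrict_apply hA, Set.inter_self,
    ENNReal.inv_mul_cancel h0 hfin] at h2
  exact h2.symm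

/-! ### measurability -/

theorem rv_meas2 (σ : ℝ) (k : ℕ) (φ ψ : L2 d) :
    Measurable fun p : (Zd d → ℝ) × ℝ => ⟪φ, RV (fun x => σ * p.1 x) (zk p.2 k) ψ⟫_ℂ := by
  refine Pool.Agent.TH369.MU.MJ.cara
    (fun (ω : Zd d → ℝ) (E : ℝ) => ⟪φ, RV (fun x => σ * ω x) (zk E k) ψ⟫_ℂ) (fun ω => ?_)
    (fun E => (continuous_const.inner (om_cont σ E k ψ)).measurable)
  rw [continuous_iff_continuousAt]
  intro E
  have h1 := sy_cont (rv_sy (fun x => σ * ω x)) φ ψ (zk E k) (zk_im_ne E k)
  have h2 : ContinuousAt (fun E : ℝ => zk E k) E := by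
    unfold zk
    fun_prop
  exact ContinuousAt.comp (f := fun E : ℝ => zk E k) h1 h2

theorem gr_meas2 (σ : ℝ) (k : ℕ) (φ ψ : L2 d) :
    Measurable fun p : (Zd d → ℝ) × ℝ => gr (RV (fun x => σ * p.1 x)) p.2 k φ ψ := by
  unfold gr
  have h : (fun p : (Zd d → ℝ) × ℝ => (ep k : ℂ) * ⟪RV (fun x => σ * p.1 x) (zk p.2 k) φ,
      RV (fun x => σ * p.1 x) (zk p.2 k) ψ⟫_ℂ) = fun p =>
      (⟪φ, RV (fun x => σ * p.1 x) (zk p.2 k) ψ⟫_ℂ -
        (starRingEnd ℂ) ⟪ψ, RV (fun x => σ * p.1 x) (zk p.2 k) φ⟫_ℂ) / (2 * Complex.I) := by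
    funext p
    exact inner_rz (rv_sy _) p.2 k φ ψ
  rw [h]
  exact ((rv_meas2 σ k φ ψ).sub
    (Complex.continuous_conj.measurable.comp (rv_meas2 σ k ψ φ))).div_const _

theorem qk_meas2 (σ : ℝ) (k : ℕ) (φ : L2 d) :
    Measurable fun p : (Zd d → ℝ) × ℝ => qk (RV (fun x => σ * p.1 x)) p.2 k φ := by
  have h : (fun p : (Zd d → ℝ) × ℝ => qk (RV (fun x => σ * p.1 x)) p.2 k φ) = fun p =>
      Real.sqrt (gr (RV (fun x => σ * p.1 x)) p.2 k φ φ).re := by
    funext p
    rw [gr_self, Complex.ofReal_re, Real.sqrt_sq (qk_nonneg _ _ _ _)]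
  rw [h]
  exact (Complex.measurable_re.comp (gr_meas2 σ k φ φ)).sqrt

variable {ι : Type} [DecidableEq ι]

theorem dt_meas2 (σ : ℝ) (k : ℕ) (v : ι → L2 d) (F : Finset ι) :
    Measurable fun p : (Zd d → ℝ) × ℝ => dt (RV (fun x => σ * p.1 x)) p.2 k v F := by
  unfold dt
  simp only [Matrix.det_apply, Matrix.of_apply]
  refine Finset.measurable_sum _ fun q _ => ?_
  refine Measurable.const_smul ?_ _
  exact Finset.measurable_prod _ fun i _ => gr_meas2 σ k _ _

/-- the event that a finite family is independent -/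
def IA (σ E : ℝ) (v : ι → L2 d) (F : Finset ι) : Set (Zd d → ℝ) :=
  {ω | ¬ Tendsto (fun k => dt (RV (fun x => σ * ω x)) E k v F) atTop (𝓝 0)}

theorem ia_meas2 (σ : ℝ) (v : ι → L2 d) (F : Finset ι) :
    MeasurableSet {p : (Zd d → ℝ) × ℝ | p.1 ∈ IA σ p.2 v F} := by
  have h : {p : (Zd d → ℝ) × ℝ | p.1 ∈ IA σ p.2 v F} = {p : (Zd d → ℝ) × ℝ |
      Tendsto (fun k => dt (RV (fun x => σ * p.1 x)) p.2 k v F) atTop (𝓝 0)}ᶜ := rfl
  rw [h]
  exact (measurableSet_tendsto _ fun k => dt_meas2 σ k v F).compl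

theorem ia_meas (σ E : ℝ) (v : ι → L2 d) (F : Finset ι) : MeasurableSet (IA σ E v F) :=
  (measurable_id.prodMk (measurable_const (a := E))) (ia_meas2 σ v F)

/-- independence is stable when a coordinate is resampled -/
theorem ia_res (σ : ℝ) (hσ : σ ≠ 0) (μ : Measure ℝ) [IsProbabilityMeasure μ]
    [NullSingletonClass μ] (E : ℝ) {v : ι → L2 d} {s : Zd d → ι} (hs : ∀ y, v (s y) = dl y)
    (hN : ∀ᵐ ω ∂(iid d μ), Nice (fun x => σ * ω x) E v) (F : Finset ι) (y : Zd d) :
    ∀ᵐ p ∂((iid d μ).prod μ), p.1 ∈ IA σ E v F → Function.update p.1 y p.2 ∈ IA σ E v F := by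
  have hPp : IsProbabilityMeasure (iid d μ) := by unfold iid; infer_instance
  have hm := upd_mp (d := d) μ y
  have hI := ia_meas σ E v F
  have hset : MeasurableSet {p : (Zd d → ℝ) × ℝ | p.1 ∈ IA σ E v F →
      Function.update p.1 y p.2 ∈ IA σ E v F} := by
    have e : {p : (Zd d → ℝ) × ℝ | p.1 ∈ IA σ E v F → Function.update p.1 y p.2 ∈ IA σ E v F} =
        (Prod.fst ⁻¹' IA σ E v F)ᶜ ∪
        ((fun p : (Zd d → ℝ) × ℝ => Function.update p.1 y p.2) ⁻¹' IA σ E v F) := by
      ext p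
      simp only [Set.mem_union, Set.mem_compl_iff, Set.mem_preimage, Set.mem_ofPred_eq]
      tauto
    rw [e]
    exact (measurable_fst hI).compl.union (hm.measurable hI)
  rw [Measure.ae_prod_iff_ae_ae hset]
  filter_upwards [hN, Measure.ae_ae_of_ae_prod (hm.quasiMeasurePreserving.ae hN)] with ω h0 h1
  have h2 : {t | ¬ (ω ∈ IA σ E v F → Function.update ω y t ∈ IA σ E v F)} ⊆
      {t | ω ∈ IA σ E v F ∧ Function.update ω y t ∉ IA σ E v F ∧
        Nice (fun x => σ * Function.update ω y t x) E v} ∪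
        {t | ¬ Nice (fun x => σ * Function.update ω y t x) E v} := by
    intro t ht
    simp only [Set.mem_ofPred_eq] at ht
    push Not at ht
    by_cases hg : Nice (fun x => σ * Function.update ω y t x) E v
    · exact Or.inl ⟨ht.1, ht.2, hg⟩
    · exact Or.inr hg
  rw [ae_iff]
  refine measure_mono_null h2 (measure_union_null ?_ h1)
  refine Set.Subsingleton.measure_zero (fun t1 ht1 t2 ht2 => ?_) μ
  by_contra hne
  have key : ∀ t, Function.update ω y t ∉ IA σ E v F → ω ∈ IA σ E v F → σ * t ≠ σ * ω y := by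
    intro t ht1 ht2 h
    have h3 := mul_left_cancel₀ hσ h
    rw [h3, Function.update_eq_self] at ht1
    exact ht1 ht2
  have e1 := ht1.2.2
  have e2 := ht2.2.2
  have d1 := ht1.2.1
  have d2 := ht2.2.1
  have i1 := ht1.1
  unfold IA at d1 d2 i1
  simp only [Set.mem_ofPred_eq] at d1 d2 i1
  rw [dt_iff F e1.1] at d1
  rw [dt_iff F e2.1] at d2
  rw [dt_iff F h0.1] at i1
  rw [upd_fun] at d1 d2 e2
  exact ind_two hs y (σ * t1) (σ * t2) (fun h => hne (mul_left_cancel₀ hσ h))
    (key t1 ht1.2.1 ht1.1) (key t2 ht2.2.1 ht2.1) h0 e2 F i1 d1 d2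

theorem ia_01 (σ : ℝ) (hσ : σ ≠ 0) (μ : Measure ℝ) [IsProbabilityMeasure μ]
    [NullSingletonClass μ] (E : ℝ) {v : ι → L2 d} {s : Zd d → ι} (hs : ∀ y, v (s y) = dl y)
    (hN : ∀ᵐ ω ∂(iid d μ), Nice (fun x => σ * ω x) E v) (F : Finset ι) :
    iid d μ (IA σ E v F) = 0 ∨ iid d μ (IA σ E v F) = 1 :=
  res_zero_one μ _ (ia_meas σ E v F) fun y => ia_res σ hσ μ E hs hN F y

end Pool.Agent.L5helper74.IM
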