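import Pool.Agent.L5helper74.IM.Ny

/-!
# Only finitely many sites depend on a finite family
-/

set_option autoImplicit false

open MeasureTheory Filter Topology
open scoped InnerProductSpace

namespace Pool.Agent.L5helper74.IM

open Pool.Agent.TH369.AN (Zd L2 dl ee inner_dl norm_dl dl_apply iid)
open Pool.Agent.TH369.MU (ep zk upd_mp sh sh_mp)

variable {d : ℕ}

namespace NZ

theorem ep_anti {m n : ℕ} (h : m ≤ n) : ep n ≤ ep m := by
  unfold ep
  apply one_div_le_one_div_of_le (by positivity)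
  have : (m : ℝ) ≤ n := by exact_mod_cast h
  linarith

theorem thr0 (σ : ℝ) (μ : Measure ℝ) [IsProbabilityMeasure μ] (E : ℝ)
    (hk : ∀ᵐ ω ∂(iid d μ), ∀ x : Zd d, 0 < kap σ E x ω) (η : ℝ) (hη : 0 < η) :
    ∃ m : ℕ, iid d μ {ω : Zd d → ℝ | ¬ ENNReal.ofReal (2 * ep m) < kap σ E 0 ω} ≤
      ENNReal.ofReal η := by
  have hPp : IsProbabilityMeasure (iid d μ) := by unfold iid; infer_instance
  obtain ⟨A, hA⟩ : ∃ A : ℕ → Set (Zd d → ℝ), A = fun m =>
      {ω | ¬ ENNReal.ofReal (2 * ep m) < kap σ E 0 ω} := ⟨_, rfl⟩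
  have hAm : ∀ m, MeasurableSet (A m) := fun m => by
    rw [hA]
    exact (measurableSet_lt measurable_const (SE.kap_meas σ E 0)).compl
  have hanti : Antitone A := by
    intro a b hab ω hω
    rw [hA] at hω ⊢
    simp only [Set.mem_ofPred_eq, not_lt] at hω ⊢
    refine hω.trans (ENNReal.ofReal_le_ofReal ?_)
    have := ep_anti hab
    linarith
  have hint : iid d μ (⋂ m, A m) = 0 := by
    have h1 : ∀ᵐ ω ∂(iid d μ), ω ∉ ⋂ m, A m := by
      filter_upwards [hk] with ω hω hcon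
      rw [Set.mem_iInter] at hcon
      have hlim : Tendsto (fun m : ℕ => ENNReal.ofReal (2 * ep m)) atTop (𝓝 0) := by
        have h2 : Tendsto (fun m : ℕ => 2 * ep m) atTop (𝓝 (2 * 0)) := ep_tendsto.const_mul 2
        rw [mul_zero] at h2
        have h3 := (ENNReal.continuous_ofReal.tendsto 0).comp h2
        rwa [ENNReal.ofReal_zero] at h3
      obtain ⟨m, hm⟩ := (hlim.eventually (gt_mem_nhds (hω 0))).exists
      have h3 := hcon m
      rw [hA] at h3
      exact h3 hm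
    have h2 := ae_iff.1 h1
    simp only [not_not] at h2
    exact h2
  have hlim := tendsto_measure_iInter_atTop (μ := iid d μ) (s := A)
      (fun N => (hAm N).nullMeasurableSet) hanti ⟨0, measure_ne_top _ _⟩
  rw [hint] at hlim
  obtain ⟨m, hm⟩ := (hlim.eventually (gt_mem_nhds (ENNReal.ofReal_pos.2 hη))).exists
  refine ⟨m, ?_⟩
  rw [hA] at hm
  exact hm.le

/-- far apart points of an infinite set -/
theorem far (Y : Set (Zd d)) (hY : Y.Infinite) (B : Finset (Zd d)) (n : ℕ) :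
    ∃ y : Fin n → Zd d, (∀ i, y i ∈ Y) ∧ ∀ i j, i ≠ j → y j - y i ∉ B := by
  classical
  induction n with
  | zero => exact ⟨fun i => i.elim0, fun i => i.elim0, fun i => i.elim0⟩
  | succ n ih =>
    obtain ⟨y, hy, hyB⟩ := ih
    obtain ⟨z, hz, hz2⟩ := hY.exists_notMem_finset
      ((Finset.univ ×ˢ B).image (fun p : Fin n × Zd d => y p.1 + p.2) ∪
        (Finset.univ ×ˢ B).image (fun p : Fin n × Zd d => y p.1 - p.2))
    rw [Finset.mem_union, not_or] at hz2
    obtain ⟨hz3, hz4⟩ := hz2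
    refine ⟨Fin.cons z y, fun i => ?_, fun i j hij => ?_⟩
    · refine Fin.cases ?_ (fun i => ?_) i
      · simpa using hz
      · simpa using hy i
    · revert hij
      refine Fin.cases ?_ (fun i => ?_) i <;> refine Fin.cases ?_ (fun j => ?_) j
      · intro h
        exact absurd rfl h
      · intro _ h
        simp only [Fin.cons_succ, Fin.cons_zero] at h
        apply hz4
        rw [Finset.mem_image]
        exact ⟨(j, y j - z), Finset.mem_product.2 ⟨Finset.mem_univ _, h⟩, by simp⟩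
      · intro _ h
        simp only [Fin.cons_succ, Fin.cons_zero] at h
        apply hz3
        rw [Finset.mem_image]
        exact ⟨(i, z - y i), Finset.mem_product.2 ⟨Finset.mem_univ _, h⟩, by simp⟩
      · intro hij h
        simp only [Fin.cons_succ] at h
        exact hyB i j (fun h' => hij (by rw [h'])) h

/-- more vectors than generators -/
theorem comb {X ι : Type} [NormedAddCommGroup X] [InnerProductSpace ℂ X] {R : ℂ → X →L[ℂ] X}
    {E : ℝ} {v : ι → X} (F : Finset ι) (w : Fin (F.card + 1) → X)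
    (h : ∀ i, ∃ c : ι → ℂ, Nul R E (w i - ∑ j ∈ F, c j • v j)) :
    ∃ a : Fin (F.card + 1) → ℂ, ∑ i, ‖a i‖ ^ 2 = 1 ∧ Nul R E (∑ i, a i • w i) := by
  choose c hc using h
  obtain ⟨a, ha, ha0⟩ := Pool.Agent.TH369.MU.RK1.exists_coeff F.card
    (fun j i => c i (F.equivFin.symm j))
  refine ⟨a, ha, ?_⟩
  have h1 : Nul R E (∑ i, a i • (w i - ∑ j ∈ F, c i j • v j)) :=
    nul_sum _ _ fun i _ => nul_smul _ (hc i)
  have e : ∑ i, a i • (w i - ∑ j ∈ F, c i j • v j) = ∑ i, a i • w i := by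
    simp only [smul_sub, Finset.sum_sub_distrib]
    have h0 : ∑ i, a i • ∑ j ∈ F, c i j • v j = 0 := by
      simp only [Finset.smul_sum, smul_smul]
      rw [Finset.sum_comm]
      refine Finset.sum_eq_zero fun j hj => ?_
      rw [← Finset.sum_smul]
      have h2 := ha0 (F.equivFin ⟨j, hj⟩)
      rw [Equiv.symm_apply_apply] at h2
      rw [h2, zero_smul]
    rw [h0, sub_zero]
  rw [e] at h1
  exact h1

end NZ

variable {ι : Type} [DecidableEq ι]

theorem fin_dep (σ : ℝ) (hσ : σ ≠ 0) (μ : Measure ℝ) [IsProbabilityMeasure μ]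
    [NullSingletonClass μ] (E : ℝ) {v : ι → L2 d} {s : Zd d → ι} (hs : ∀ y, v (s y) = dl y)
    (hE : ∀ᵐ ω ∂(iid d μ), Good σ E ω)
    (hN : ∀ᵐ ω ∂(iid d μ), Nice (fun x => σ * ω x) E v)
    (hk : ∀ᵐ ω ∂(iid d μ), ∀ x : Zd d, 0 < kap σ E x ω) (F : Finset ι)
    (hF : iid d μ (IA σ E v F) ≠ 0) :
    {y : Zd d | iid d μ (IA σ E v (insert (s y) F)) = 0}.Finite := by
  classical
  have hPp : IsProbabilityMeasure (iid d μ) := by unfold iid; infer_instance
  by_contra hinf
  have hinf' : {y : Zd d | iid d μ (IA σ E v (insert (s y) F)) = 0}.Infinite := hinf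
  have hF1 : iid d μ (IA σ E v F) = 1 := (ia_01 σ hσ μ E hs hN F).resolve_left hF
  have hFae : ∀ᵐ ω ∂(iid d μ), ω ∈ IA σ E v F :=
    (prob_compl_eq_zero_iff (ia_meas σ E v F)).2 hF1
  obtain ⟨n, hn⟩ : ∃ n : ℕ, n = F.card + 1 := ⟨_, rfl⟩
  have hn0 : (0 : ℝ) < n := by
    rw [hn]
    positivity
  obtain ⟨m, hm⟩ := NZ.thr0 σ μ E hk (1 / (4 * n)) (by positivity)
  have hep := SE.ep_pos m
  obtain ⟨δ, hδ⟩ : ∃ δ : ℝ, δ = min (ep m / (2 * ((n : ℝ) + 1))) (1 / (4 * n ^ 2)) := ⟨_, rfl⟩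
  have hδ0 : 0 < δ := by
    rw [hδ]
    exact lt_min (by positivity) (by positivity)
  have hnd : ∀ x : ℝ, μ {x} ≠ 1 := fun x => by
    rw [measure_singleton]
    exact zero_ne_one
  obtain ⟨B, hB⟩ := decay σ hσ μ hnd E hE δ hδ0
  obtain ⟨y, hyY, hyB⟩ := NZ.far _ hinf' B n
  obtain ⟨S1, hS1⟩ : ∃ S1 : Fin n → Set (Zd d → ℝ), S1 = fun i =>
    {ω | ¬ ENNReal.ofReal (2 * ep m) < kap σ E (y i) ω} := ⟨_, rfl⟩
  obtain ⟨S2, hS2⟩ : ∃ S2 : Fin n × Fin n → Set (Zd d → ℝ), S2 = fun q =>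
    {ω | 0 < kap σ E (y q.1) ω ∧ 0 < kap σ E (y q.2) ω ∧
      ¬ ∀ᶠ k in atTop, ‖Gk σ ω E k (y q.1) (y q.2)‖ ≤ δ} := ⟨_, rfl⟩
  have h1 : ∀ i, iid d μ (S1 i) ≤ ENNReal.ofReal (1 / (4 * n)) := by
    intro i
    have : S1 i = sh (y i) ⁻¹' {ω | ¬ ENNReal.ofReal (2 * ep m) < kap σ E 0 ω} := by
      rw [hS1]
      ext ω
      simp only [Set.mem_preimage, Set.mem_ofPred_eq, SE.kap_shift, zero_add]
    rw [this]
    exact (SE.shift_le μ (y i) _).trans hm
  have h2 : ∀ q : Fin n × Fin n, q.1 ≠ q.2 → iid d μ (S2 q) ≤ ENNReal.ofReal δ := by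
    intro q hq
    rw [hS2]
    exact SE.decay_pair σ μ E δ B hB _ _ (hyB _ _ hq)
  have hnull : ∀ i, ∀ᵐ ω ∂(iid d μ), ω ∉ IA σ E v (insert (s (y i)) F) := by
    intro i
    have h3 : iid d μ (IA σ E v (insert (s (y i)) F)) = 0 := hyY i
    rw [ae_iff]
    simpa using h3
  have hcov : ∀ᵐ ω ∂(iid d μ), ω ∈ (⋃ i ∈ (Finset.univ : Finset (Fin n)), S1 i) ∪
      ⋃ q ∈ (Finset.univ.filter fun q : Fin n × Fin n => q.1 ≠ q.2), S2 q := by
    filter_upwards [hN, hk, hFae, ae_all_iff.2 hnull] with ω w1 w2 w3 w4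
    by_contra hcon
    rw [Set.mem_union, not_or] at hcon
    obtain ⟨hc1, hc2⟩ := hcon
    simp only [Set.mem_iUnion, not_exists] at hc1 hc2
    have hgood : ∀ᶠ k in atTop, (∀ i, ep m ≤ (Gk σ ω E k (y i) (y i)).im) ∧
        ∀ i j, i ≠ j → ‖Gk σ ω E k (y i) (y j)‖ ≤ ep m / (2 * ((n : ℝ) + 1)) := by
      refine Filter.Eventually.and ?_ ?_
      · rw [eventually_all]
        intro i
        have h3 := hc1 i (Finset.mem_univ i)
        rw [hS1] at h3
        simp only [Set.mem_ofPred_eq, not_not] at h3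
        filter_upwards [eventually_lt_of_lt_liminf h3] with k hk3
        have h4 := (ENNReal.ofReal_lt_ofReal_iff_of_nonneg (by positivity)).1 hk3
        linarith
      · rw [eventually_all]
        intro i
        rw [eventually_all]
        intro j
        rw [eventually_imp_distrib_left]
        intro hij
        have h5 := hc2 (i, j) (Finset.mem_filter.2 ⟨Finset.mem_univ _, hij⟩)
        rw [hS2] at h5
        simp only [Set.mem_ofPred_eq, not_and, not_not] at h5
        filter_upwards [h5 (w2 _) (w2 _)] with k hk6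
        refine hk6.trans ?_
        rw [hδ]
        exact min_le_left _ _
    have hIF : Ind (RV (fun x => σ * ω x)) E v F := (dt_iff F w1.1).1 w3
    subst hn
    have hrep : ∀ i, ∃ c : ι → ℂ, Nul (RV (fun x => σ * ω x)) E
        ((dl (y i) : L2 d) - ∑ j ∈ F, c j • v j) := by
      intro i
      have h3 : ¬ Ind (RV (fun x => σ * ω x)) E v (insert (s (y i)) F) := by
        intro h
        exact w4 i ((dt_iff _ w1.1).2 h)
      obtain ⟨c, hc⟩ := dep_rep F (s (y i)) hIF h3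
      rw [hs] at hc
      exact ⟨c, hc⟩
    obtain ⟨a, ha, han⟩ := NZ.comb F (fun i => (dl (y i) : L2 d)) hrep
    have h6 := gersh σ ω E (F.card + 1) y m hgood a ha
    have h7 : Tendsto (fun k => qk (RV (fun x => σ * ω x)) E k (∑ i, a i • dl (y i)) ^ 2) atTop
        (𝓝 (0 ^ 2)) := han.pow 2
    have h8 : (0 : ℝ) ^ 2 < ep m / 2 := by
      norm_num
      exact hep
    obtain ⟨k, hk1, hk2⟩ := (h6.and (h7.eventually (gt_mem_nhds h8))).exists
    exact absurd hk1 (not_le.2 hk2)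
  have hone : 1 ≤ iid d μ ((⋃ i ∈ (Finset.univ : Finset (Fin n)), S1 i) ∪
      ⋃ q ∈ (Finset.univ.filter fun q : Fin n × Fin n => q.1 ≠ q.2), S2 q) := by
    have h3 : iid d μ Set.univ = 1 := measure_univ
    rw [← h3]
    refine measure_mono_ae ?_
    filter_upwards [hcov] with ω hω _
    exact hω
  have hA : iid d μ (⋃ i ∈ (Finset.univ : Finset (Fin n)), S1 i) ≤ ENNReal.ofReal (1 / 4) := by
    refine (measure_biUnion_finset_le _ _).trans ?_
    refine (Finset.sum_le_sum fun i _ => h1 i).trans ?_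
    rw [Finset.sum_const, Finset.card_univ, Fintype.card_fin, nsmul_eq_mul,
      ← ENNReal.ofReal_natCast, ← ENNReal.ofReal_mul (by positivity)]
    apply ENNReal.ofReal_le_ofReal
    apply le_of_eq
    field_simp
  have hBd : iid d μ (⋃ q ∈ (Finset.univ.filter fun q : Fin n × Fin n => q.1 ≠ q.2), S2 q) ≤
      ENNReal.ofReal (1 / 4) := by
    refine (measure_biUnion_finset_le _ _).trans ?_
    refine (Finset.sum_le_sum fun q hq => h2 q (Finset.mem_filter.1 hq).2).trans ?_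
    rw [Finset.sum_const, nsmul_eq_mul, ← ENNReal.ofReal_natCast, ← ENNReal.ofReal_mul
      (by positivity)]
    apply ENNReal.ofReal_le_ofReal
    have hcard : ((Finset.univ.filter fun q : Fin n × Fin n => q.1 ≠ q.2).card : ℝ) ≤ n ^ 2 := by
      have h7 : (Finset.univ.filter fun q : Fin n × Fin n => q.1 ≠ q.2).card ≤ n ^ 2 := by
        refine (Finset.card_filter_le _ _).trans ?_
        rw [sq]
        simp
      exact_mod_cast h7
    have hδ2 : δ ≤ 1 / (4 * n ^ 2) := by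
      rw [hδ]
      exact min_le_right _ _
    calc ((Finset.univ.filter fun q : Fin n × Fin n => q.1 ≠ q.2).card : ℝ) * δ
        ≤ n ^ 2 * (1 / (4 * n ^ 2)) := mul_le_mul hcard hδ2 hδ0.le (by positivity)
      _ = 1 / 4 := by field_simp
  have htot := hone.trans ((measure_union_le _ _).trans (add_le_add hA hBd))
  rw [← ENNReal.ofReal_add (by norm_num) (by norm_num), ← ENNReal.ofReal_one,
    ENNReal.ofReal_le_ofReal_iff (by norm_num)] at htot
  norm_num at htot

end Pool.Agent.L5helper74.IM
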