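import Pool.Agent.L5helper74.IM.Nz

/-!
# All relations at almost all energies, almost surely
-/

set_option autoImplicit false

open MeasureTheory Filter Topology
open scoped InnerProductSpace

namespace Pool.Agent.L5helper74.IM

open Pool.Agent.TH369.AN (Zd L2 dl ee inner_dl norm_dl dl_apply iid)
open Pool.Agent.TH369.MU (ep zk upd_mp sh sh_mp zero_one)

variable {d : ℕ}

theorem gr_pol {X : Type} [NormedAddCommGroup X] [InnerProductSpace ℂ X] (R : ℂ → X →L[ℂ] X)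
    (E : ℝ) (k : ℕ) (φ ψ : X) :
    gr R E k φ ψ = (1 / 4) * (((qk R E k (φ + ψ) ^ 2 : ℝ) : ℂ) -
      ((qk R E k (φ + (-1 : ℂ) • ψ) ^ 2 : ℝ) : ℂ) -
      Complex.I * ((qk R E k (φ + Complex.I • ψ) ^ 2 : ℝ) : ℂ) +
      Complex.I * ((qk R E k (φ + (-Complex.I) • ψ) ^ 2 : ℝ) : ℂ)) := by
  simp only [← gr_self, gr_add_left, gr_add_right, gr_smul_left, gr_smul_right, map_neg, map_one,
    Complex.conj_I]
  have h := Complex.I_mul_I
  linear_combination (gr R E k φ ψ / 2 - gr R E k ψ φ / 2) * h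

theorem cv_ae {X : Type} [NormedAddCommGroup X] [InnerProductSpace ℂ X] [CompleteSpace X]
    {R : ℂ → X →L[ℂ] X} (hR : Sy R) (φ ψ : X) : ∀ᵐ E : ℝ, Cv R E φ ψ := by
  have key : ∀ χ : X, ∀ᵐ E : ℝ, ∃ l : ℝ, Tendsto (fun k => qk R E k χ ^ 2) atTop (𝓝 l) := by
    intro χ
    obtain ⟨m, hm, -⟩ := spm_exists hR χ
    filter_upwards [qk_ae hR χ m hm] with E hE
    exact ⟨_, hE⟩
  filter_upwards [key (φ + ψ), key (φ + (-1 : ℂ) • ψ), key (φ + Complex.I • ψ),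
    key (φ + (-Complex.I) • ψ)] with E h1 h2 h3 h4
  obtain ⟨l1, h1⟩ := h1
  obtain ⟨l2, h2⟩ := h2
  obtain ⟨l3, h3⟩ := h3
  obtain ⟨l4, h4⟩ := h4
  have c : ∀ {f : ℕ → ℝ} {l : ℝ}, Tendsto f atTop (𝓝 l) →
      Tendsto (fun k => ((f k : ℝ) : ℂ)) atTop (𝓝 (l : ℂ)) := fun h =>
    (Complex.continuous_ofReal.tendsto _).comp h
  refine ⟨(1 / 4) * ((l1 : ℂ) - l2 - Complex.I * l3 + Complex.I * l4), ?_⟩
  simp only [gr_pol]
  exact ((((c h1).sub (c h2)).sub ((c h3).const_mul _)).add ((c h4).const_mul _)).const_mul _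

theorem kap_iff (σ E : ℝ) (ω : Zd d → ℝ) (x : Zd d)
    (h : Cv (RV (fun x => σ * ω x)) E (dl x) (dl x)) :
    0 < kap σ E x ω ↔ ¬ Nul (RV (fun x => σ * ω x)) E (dl x) := by
  have him : ∀ k, (Gk σ ω E k x x).im = qk (RV (fun x => σ * ω x)) E k (dl x) ^ 2 :=
    fun k => (qk_sq (rv_sy _) E k (dl x)).symm
  have hka : ∀ l : ℝ, Tendsto (fun k => qk (RV (fun x => σ * ω x)) E k (dl x) ^ 2) atTop (𝓝 l) →
      kap σ E x ω = ENNReal.ofReal l := by
    intro l hl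
    unfold kap
    simp_rw [him]
    exact ((ENNReal.continuous_ofReal.tendsto l).comp hl).liminf_eq
  constructor
  · intro h1 h2
    have h3 : Tendsto (fun k => qk (RV (fun x => σ * ω x)) E k (dl x) ^ 2) atTop (𝓝 0) := by
      have := h2.pow 2
      rw [zero_pow two_ne_zero] at this
      exact this
    rw [hka 0 h3, ENNReal.ofReal_zero] at h1
    exact lt_irrefl _ h1
  · intro h1
    obtain ⟨l, hl, hlim⟩ := pos_lim h h1
    rw [hka l hlim]
    exact ENNReal.ofReal_pos.2 hl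

/-- the energies at which some site has a positive density with positive probability -/
def Sp (d : ℕ) (σ : ℝ) (μ : Measure ℝ) : Set ℝ :=
  {E | iid d μ {ω : Zd d → ℝ | ∃ x, 0 < kap σ E x ω} ≠ 0}

theorem ex_meas (σ : ℝ) : MeasurableSet {p : (Zd d → ℝ) × ℝ | ∃ x, 0 < kap σ p.2 x p.1} := by
  have e : {p : (Zd d → ℝ) × ℝ | ∃ x, 0 < kap σ p.2 x p.1} =
      ⋃ x : Zd d, {p : (Zd d → ℝ) × ℝ | 0 < kap σ p.2 x p.1} := by
    ext p
    simp
  rw [e]
  exact MeasurableSet.iUnion fun x => measurableSet_lt measurable_const (GA.meas_kap σ x)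

theorem sec_meas (μ : Measure ℝ) [IsProbabilityMeasure μ] (A : ℝ → Set (Zd d → ℝ))
    (hA : MeasurableSet {p : (Zd d → ℝ) × ℝ | p.1 ∈ A p.2}) :
    MeasurableSet {E : ℝ | iid d μ (A E) ≠ 0} := by
  have : IsProbabilityMeasure (iid d μ) := by unfold iid; infer_instance
  have h1 : Measurable fun E : ℝ => iid d μ (A E) :=
    measurable_measure_prodMk_right (μ := iid d μ) hA
  exact (h1 (measurableSet_singleton 0)).compl

theorem sp_meas (σ : ℝ) (μ : Measure ℝ) [IsProbabilityMeasure μ] : MeasurableSet (Sp d σ μ) :=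
  sec_meas μ (fun E => {ω : Zd d → ℝ | ∃ x, 0 < kap σ E x ω}) (ex_meas σ)

/-- at an energy of `Sp` everything is positive almost surely -/
theorem sp_pos (hd : 0 < d) (σ : ℝ) (hσ : σ ≠ 0) (μ : Measure ℝ) [IsProbabilityMeasure μ]
    [NullSingletonClass μ] (E : ℝ)
    (hcv : ∀ᵐ ω ∂(iid d μ), ∀ x y : Zd d, Cv (RV (fun x => σ * ω x)) E (dl x) (dl y))
    (hE : E ∈ Sp d σ μ) :
    ∀ᵐ ω ∂(iid d μ), ∀ x : Zd d, ¬ Nul (RV (fun x => σ * ω x)) E (dl x) := by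
  have : IsProbabilityMeasure (iid d μ) := by unfold iid; infer_instance
  have hm : MeasurableSet {ω : Zd d → ℝ | ∃ x, 0 < kap σ E x ω} :=
    (measurable_id.prodMk (measurable_const (a := E))) (ex_meas σ)
  have hinv : ∀ a : Zd d, sh a ⁻¹' {ω : Zd d → ℝ | ∃ x, 0 < kap σ E x ω} =
      {ω : Zd d → ℝ | ∃ x, 0 < kap σ E x ω} := by
    intro a
    ext ω
    simp only [Set.mem_preimage, Set.mem_ofPred_eq, SE.kap_shift]
    constructor
    · rintro ⟨x, hx⟩; exact ⟨x + a, hx⟩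
    · rintro ⟨x, hx⟩; exact ⟨x - a, by rwa [sub_add_cancel]⟩
  have h1 := (zero_one hd μ _ hm hinv).resolve_left hE
  have h2 : ∀ᵐ ω ∂(iid d μ), ∃ x, 0 < kap σ E x ω := (prob_compl_eq_zero_iff hm).2 h1
  filter_upwards [h2, hcv, zp_ae σ hσ μ E hcv] with ω w1 w2 w3
  obtain ⟨y, hy⟩ := w1
  exact all_pos (fun x => σ * ω x) E w3 ⟨y, (kap_iff σ E ω y (w2 y y)).1 hy⟩

variable {ι : Type} [DecidableEq ι]

omit [DecidableEq ι] in
/-- a fixed vector of zero density vanishes -/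
theorem fix_det {V : Zd d → ℝ} {E : ℝ} {v : ι → L2 d} {s : Zd d → ι}
    (hs : ∀ y, v (s y) = dl y) {I : Set (Finset ι)}
    (h0 : Coh V E v I) (h1 : ∀ y, ∃ t, t ≠ V y ∧ Coh (Function.update V y t) E v I) (i : ι)
    (hn : Nul (RV V) E (v i)) : v i = 0 := by
  have hI : ({i} : Finset ι) ∉ I := by
    intro h
    have h2 := (h0.2 {i}).2 h (fun _ => 1) (by simpa using hn) i (Finset.mem_singleton_self i)
    exact one_ne_zero h2
  have hlim : ∀ y : Zd d, Tendsto (fun k => (RV V (zk E k) (v i) : Zd d → ℂ) y) atTop (𝓝 0) := by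
    intro y
    obtain ⟨t, ht, hco⟩ := h1 y
    obtain ⟨u, hu1, hu2⟩ := nice_upd hs y t ht hco.1 {i} (fun _ => 1) (by simpa using hn)
    have h2 : ¬ Ind (RV (Function.update V y t)) E v {i} := fun h => hI ((hco.2 _).1 h)
    unfold Ind at h2
    push Not at h2
    obtain ⟨c, hc, j, hj, hcj⟩ := h2
    rw [Finset.mem_singleton] at hj
    rw [hj] at hcj
    rw [Finset.sum_singleton] at hc
    have h3 := nul_of_smul hcj hc
    simp only [Finset.sum_singleton, one_smul] at hu1 hu2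
    have h4 := nul_sub hu2 h3
    rw [add_sub_cancel_left] at h4
    have hu0 : u = 0 := by
      by_contra hne
      refine hco.1.2 y (nul_of_smul (mul_ne_zero ?_ hne) h4)
      exact_mod_cast sub_ne_zero.2 ht
    rw [hu0] at hu1
    exact hu1
  refine lp.ext (funext fun x => ?_)
  have h2 := lim_eq (u := fun _ => (0 : ℂ)) hlim x
  have h3 : HV V (fun _ => (0 : ℂ)) x = 0 := by
    unfold HV
    simp
  rw [h3, mul_zero, sub_zero] at h2
  rw [← h2]
  rfl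

omit [DecidableEq ι] in
theorem nice_meas [Countable ι] (σ : ℝ) (v : ι → L2 d) :
    MeasurableSet {p : (Zd d → ℝ) × ℝ | Nice (fun x => σ * p.1 x) p.2 v} := by
  have e : {p : (Zd d → ℝ) × ℝ | Nice (fun x => σ * p.1 x) p.2 v} =
      (⋂ i, ⋂ j, {p : (Zd d → ℝ) × ℝ | Cv (RV (fun x => σ * p.1 x)) p.2 (v i) (v j)}) ∩
      ⋂ x : Zd d, {p : (Zd d → ℝ) × ℝ | Nul (RV (fun x => σ * p.1 x)) p.2 (dl x)}ᶜ := by
    ext p
    simp only [Nice, Set.mem_inter_iff, Set.mem_iInter, Set.mem_ofPred_eq, Set.mem_compl_iff]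
  rw [e]
  refine (MeasurableSet.iInter fun i => MeasurableSet.iInter fun j => ?_).inter
    (MeasurableSet.iInter fun x => MeasurableSet.compl ?_)
  · exact measurableSet_exists_tendsto fun k => gr_meas2 σ k (v i) (v j)
  · exact measurableSet_tendsto _ fun k => qk_meas2 σ k (dl x)

/-- the typical pairs of a potential and an energy -/
def Fl (σ : ℝ) (μ : Measure ℝ) (v : ι → L2 d) : Set ((Zd d → ℝ) × ℝ) :=
  {p | Nice (fun x => σ * p.1 x) p.2 v} ∩
    ⋂ F : Finset ι, ({p | p.1 ∈ IA σ p.2 v F} ∩ {p | iid d μ (IA σ p.2 v F) ≠ 0}) ∪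
      ({p | p.1 ∈ IA σ p.2 v F}ᶜ ∩ {p | iid d μ (IA σ p.2 v F) ≠ 0}ᶜ)

theorem fl_coh {σ : ℝ} {μ : Measure ℝ} {v : ι → L2 d} {ω : Zd d → ℝ} {E : ℝ}
    (h : (ω, E) ∈ Fl σ μ v) :
    Coh (fun x => σ * ω x) E v {F | iid d μ (IA σ E v F) ≠ 0} := by
  obtain ⟨h1, h2⟩ := h
  have h1' : Nice (fun x => σ * ω x) E v := h1
  refine ⟨h1', fun F => ?_⟩
  rw [← dt_iff F h1'.1]
  rcases Set.mem_iInter.1 h2 F with h3 | h3
  · exact ⟨fun _ => h3.2, fun _ => h3.1⟩
  · exact ⟨fun h => absurd h h3.1, fun h => absurd h h3.2⟩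

theorem fl_meas [Countable ι] (σ : ℝ) (μ : Measure ℝ) [IsProbabilityMeasure μ] (v : ι → L2 d) :
    MeasurableSet (Fl σ μ v) := by
  refine (nice_meas σ v).inter (MeasurableSet.iInter fun F => ?_)
  have h1 := ia_meas2 σ v F
  have h2 : MeasurableSet {p : (Zd d → ℝ) × ℝ | iid d μ (IA σ p.2 v F) ≠ 0} :=
    measurable_snd (sec_meas μ (fun E => IA σ E v F) h1)
  exact (h1.inter h2).union (h1.compl.inter h2.compl)

theorem fl_ae [Countable ι] (σ : ℝ) (hσ : σ ≠ 0) (μ : Measure ℝ) [IsProbabilityMeasure μ]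
    [NullSingletonClass μ] (E : ℝ) {v : ι → L2 d} {s : Zd d → ι} (hs : ∀ y, v (s y) = dl y)
    (hN : ∀ᵐ ω ∂(iid d μ), Nice (fun x => σ * ω x) E v) :
    ∀ᵐ ω ∂(iid d μ), (ω, E) ∈ Fl σ μ v := by
  have : IsProbabilityMeasure (iid d μ) := by unfold iid; infer_instance
  have h1 : ∀ F : Finset ι, ∀ᵐ ω ∂(iid d μ), (ω ∈ IA σ E v F ∧ iid d μ (IA σ E v F) ≠ 0) ∨
      (ω ∉ IA σ E v F ∧ ¬ iid d μ (IA σ E v F) ≠ 0) := by
    intro F
    rcases ia_01 σ hσ μ E hs hN F with h | h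
    · have h2 : ∀ᵐ ω ∂(iid d μ), ω ∉ IA σ E v F := by
        rw [ae_iff]
        simpa using h
      filter_upwards [h2] with ω hω
      exact Or.inr ⟨hω, not_not.2 h⟩
    · have h2 : ∀ᵐ ω ∂(iid d μ), ω ∈ IA σ E v F :=
        (prob_compl_eq_zero_iff (ia_meas σ E v F)).2 h
      filter_upwards [h2] with ω hω
      refine Or.inl ⟨hω, ?_⟩
      rw [h]
      exact one_ne_zero
  filter_upwards [hN, ae_all_iff.2 h1] with ω w1 w2
  exact ⟨w1, Set.mem_iInter.2 fun F => w2 F⟩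

end Pool.Agent.L5helper74.IM
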