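import Pool.Agent.L5helper74.IM.Re1

/-!
# All relations at almost all energies, almost surely: exchange of the null sets
-/

set_option autoImplicit false

open MeasureTheory Filter Topology
open scoped InnerProductSpace

namespace Pool.Agent.L5helper74.IM

open Pool.Agent.TH369.AN (Zd L2 dl ee inner_dl norm_dl dl_apply iid)
open Pool.Agent.TH369.MU (ep zk upd_mp sh sh_mp zero_one)

variable {d : ℕ}

/-- typical, and typical after resampling any coordinate -/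
def Fl2 {ι : Type} [DecidableEq ι] (σ : ℝ) (μ : Measure ℝ) (v : ι → L2 d) :
    Set ((Zd d → ℝ) × ℝ) :=
  Fl σ μ v ∩ ⋂ y : Zd d, {p | μ (Prod.mk p ⁻¹'
    {q : ((Zd d → ℝ) × ℝ) × ℝ | (Function.update q.1.1 y q.2, q.1.2) ∈ (Fl σ μ v)ᶜ}) = 0}

theorem fl2_meas {ι : Type} [DecidableEq ι] [Countable ι] (σ : ℝ) (μ : Measure ℝ)
    [IsProbabilityMeasure μ] (v : ι → L2 d) : MeasurableSet (Fl2 σ μ v) := by
  refine (fl_meas σ μ v).inter (MeasurableSet.iInter fun y => ?_)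
  have h1 : Measurable fun q : ((Zd d → ℝ) × ℝ) × ℝ =>
      ((Function.update q.1.1 y q.2, q.1.2) : (Zd d → ℝ) × ℝ) := by
    have h2 := (upd_mp (d := d) (Measure.dirac 0) y).measurable
    have h3 : Measurable fun q : ((Zd d → ℝ) × ℝ) × ℝ => ((q.1.1, q.2) : (Zd d → ℝ) × ℝ) := by
      fun_prop
    exact (h2.comp h3).prodMk (measurable_snd.comp measurable_fst)
  have h2 : MeasurableSet {q : ((Zd d → ℝ) × ℝ) × ℝ |
      (Function.update q.1.1 y q.2, q.1.2) ∈ (Fl σ μ v)ᶜ} := h1 (fl_meas σ μ v).compl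
  exact (measurable_measure_prodMk_left h2) (measurableSet_singleton 0)

theorem fl2_ae {ι : Type} [DecidableEq ι] (σ : ℝ) (μ : Measure ℝ)
    [IsProbabilityMeasure μ] (E : ℝ) (v : ι → L2 d)
    (h : ∀ᵐ ω ∂(iid d μ), (ω, E) ∈ Fl σ μ v) : ∀ᵐ ω ∂(iid d μ), (ω, E) ∈ Fl2 σ μ v := by
  have : IsProbabilityMeasure (iid d μ) := by unfold iid; infer_instance
  have h1 : ∀ y : Zd d, ∀ᵐ ω ∂(iid d μ), ∀ᵐ t ∂μ, (Function.update ω y t, E) ∈ Fl σ μ v := by
    intro y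
    obtain ⟨Q, hQ⟩ : ∃ Q : (Zd d → ℝ) → Prop, Q = fun ω => (ω, E) ∈ Fl σ μ v := ⟨_, rfl⟩
    have h0 : ∀ᵐ ω ∂(iid d μ), Q ω := by
      rw [hQ]
      exact h
    have h2 := Measure.ae_ae_of_ae_prod ((upd_mp (d := d) μ y).quasiMeasurePreserving.ae h0)
    rw [hQ] at h2
    exact h2
  filter_upwards [h, ae_all_iff.2 h1] with ω w1 w2
  unfold Fl2
  refine Set.mem_inter w1 (Set.mem_iInter.2 fun y => ?_)
  have h3 := ae_iff.1 (w2 y)
  have h4 : Prod.mk (ω, E) ⁻¹' {q : ((Zd d → ℝ) × ℝ) × ℝ |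
      (Function.update q.1.1 y q.2, q.1.2) ∈ (Fl σ μ v)ᶜ} =
      {t : ℝ | ¬ (Function.update ω y t, E) ∈ Fl σ μ v} := by
    ext t
    simp only [Set.mem_preimage, Set.mem_ofPred_eq, Set.mem_compl_iff]
  rw [Set.mem_ofPred_eq, h4]
  exact h3

theorem fl2_coh {ι : Type} [DecidableEq ι] {σ : ℝ} (hσ : σ ≠ 0) {μ : Measure ℝ}
    [IsProbabilityMeasure μ] [NullSingletonClass μ] {v : ι → L2 d} {ω : Zd d → ℝ} {E : ℝ}
    (h : (ω, E) ∈ Fl2 σ μ v) :
    Coh (fun x => σ * ω x) E v {F | iid d μ (IA σ E v F) ≠ 0} ∧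
    ∀ y, ∃ t, t ≠ (fun x => σ * ω x) y ∧ Coh (Function.update (fun x => σ * ω x) y t) E v
      {F | iid d μ (IA σ E v F) ≠ 0} := by
  refine ⟨fl_coh h.1, fun y => ?_⟩
  have h1 : ∀ᵐ t ∂μ, (Function.update ω y t, E) ∈ Fl σ μ v := by
    rw [ae_iff]
    exact Set.mem_iInter.1 h.2 y
  have h2 : ∀ᵐ t ∂μ, t ≠ ω y := by
    rw [ae_iff]
    simp only [ne_eq, not_not]
    exact measure_singleton (ω y)
  obtain ⟨t, ht1, ht2⟩ := (h1.and h2).exists
  refine ⟨σ * t, fun h => ht2 (mul_left_cancel₀ hσ h), ?_⟩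
  have h3 := fl_coh ht1
  rw [upd_fun] at h3
  exact h3

theorem imp_meas {p q : (Zd d → ℝ) × ℝ → Prop} (hp : MeasurableSet {x | p x})
    (hq : MeasurableSet {x | q x}) : MeasurableSet {x | p x → q x} := by
  have e : {x | p x → q x} = {x | p x}ᶜ ∪ {x | q x} := by
    ext x
    simp only [Set.mem_union, Set.mem_compl_iff, Set.mem_ofPred_eq]
    tauto
  rw [e]
  exact hp.compl.union hq

/-- **the structure theorem** -/
theorem rel_main (hd : 0 < d) (σ : ℝ) (hσ : σ ≠ 0) (μ : Measure ℝ) [IsProbabilityMeasure μ]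
    [NullSingletonClass μ] {ι : Type} [DecidableEq ι] [Countable ι] (v : ι → L2 d)
    (s : Zd d → ι) (hs : ∀ y, v (s y) = dl y) (hsi : Function.Injective s) :
    ∀ᵐ ω ∂(iid d μ),
      (∀ᵐ E : ℝ, E ∈ (Sp d σ μ)ᶜ → ∀ x : Zd d, Nul (RV (fun x => σ * ω x)) E (dl x)) ∧
      ∀ᵐ E : ℝ, E ∈ Sp d σ μ →
        (∀ i j, Cv (RV (fun x => σ * ω x)) E (v i) (v j)) ∧
        (∀ i, Nul (RV (fun x => σ * ω x)) E (v i) → v i = 0) ∧
        ∀ (F : Finset ι) (c : ι → ℂ), Nul (RV (fun x => σ * ω x)) E (∑ i ∈ F, c i • v i) →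
          ∃ u : Zd d → ℂ, u.support.Finite ∧ ∀ x, HV (fun x => σ * ω x) u x - (E : ℂ) * u x =
            ((∑ i ∈ F, c i • v i : L2 d) : Zd d → ℂ) x := by
  have hP : IsProbabilityMeasure (iid d μ) := by unfold iid; infer_instance
  have hnd : ∀ x : ℝ, μ {x} ≠ 1 := fun x => by
    rw [measure_singleton]
    exact zero_ne_one
  -- the Gram matrix converges
  have hc0 : ∀ᵐ ω ∂(iid d μ), ∀ᵐ E : ℝ, ∀ i j, Cv (RV (fun x => σ * ω x)) E (v i) (v j) :=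
    Eventually.of_forall fun ω => ae_all_iff.2 fun i => ae_all_iff.2 fun j =>
      cv_ae (rv_sy _) (v i) (v j)
  have hcm : MeasurableSet {p : (Zd d → ℝ) × ℝ |
      ∀ i j, Cv (RV (fun x => σ * p.1 x)) p.2 (v i) (v j)} := by
    have e : {p : (Zd d → ℝ) × ℝ | ∀ i j, Cv (RV (fun x => σ * p.1 x)) p.2 (v i) (v j)} =
        ⋂ i, ⋂ j, {p : (Zd d → ℝ) × ℝ | Cv (RV (fun x => σ * p.1 x)) p.2 (v i) (v j)} := by
      ext p
      simp only [Set.mem_iInter, Set.mem_ofPred_eq]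
    rw [e]
    exact MeasurableSet.iInter fun i => MeasurableSet.iInter fun j =>
      measurableSet_exists_tendsto fun k => gr_meas2 σ k (v i) (v j)
  have hc1 : ∀ᵐ E : ℝ, ∀ᵐ ω ∂(iid d μ), ∀ i j, Cv (RV (fun x => σ * ω x)) E (v i) (v j) :=
    (Measure.ae_ae_comm (μ := iid d μ) (ν := (volume : Measure ℝ))
      (p := fun ω E => ∀ i j, Cv (RV (fun x => σ * ω x)) E (v i) (v j)) hcm).1 hc0
  have hsite : ∀ {ω : Zd d → ℝ} {E : ℝ}, (∀ i j, Cv (RV (fun x => σ * ω x)) E (v i) (v j)) →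
      ∀ x y : Zd d, Cv (RV (fun x => σ * ω x)) E (dl x) (dl y) := by
    intro ω E h x y
    have h1 := h (s x) (s y)
    rw [hs, hs] at h1
    exact h1
  -- at the energies of `Sp`
  have hin : ∀ᵐ E : ℝ, E ∈ Sp d σ μ → (∀ᵐ ω ∂(iid d μ), (ω, E) ∈ Fl2 σ μ v) ∧
      ∀ F ∈ {F : Finset ι | iid d μ (IA σ E v F) ≠ 0},
        {y : Zd d | insert (s y) F ∉ {F : Finset ι | iid d μ (IA σ E v F) ≠ 0}}.Finite := by
    filter_upwards [hc1, good_ae (d := d) σ μ] with E e1 e2 hE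
    have e3 : ∀ᵐ ω ∂(iid d μ), ∀ x y : Zd d, Cv (RV (fun x => σ * ω x)) E (dl x) (dl y) := by
      filter_upwards [e1] with ω hω
      exact hsite hω
    have e4 := sp_pos hd σ hσ μ E e3 hE
    have hN : ∀ᵐ ω ∂(iid d μ), Nice (fun x => σ * ω x) E v := by
      filter_upwards [e1, e4] with ω w1 w2
      exact ⟨w1, w2⟩
    have hk : ∀ᵐ ω ∂(iid d μ), ∀ x : Zd d, 0 < kap σ E x ω := by
      filter_upwards [e3, e4] with ω w1 w2 x
      exact (kap_iff σ E ω x (w1 x x)).2 (w2 x)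
    refine ⟨fl2_ae σ μ E v (fl_ae σ hσ μ E hs hN), fun F hF => ?_⟩
    refine (fin_dep σ hσ μ E hs e2 hN hk F hF).subset fun y hy => ?_
    simp only [Set.mem_ofPred_eq, ne_eq, not_not] at hy ⊢
    exact hy
  have hin2 : ∀ᵐ ω ∂(iid d μ), ∀ᵐ E : ℝ, E ∈ Sp d σ μ → (ω, E) ∈ Fl2 σ μ v := by
    refine (Measure.ae_ae_comm (μ := iid d μ) (ν := (volume : Measure ℝ))
      (p := fun ω E => E ∈ Sp d σ μ → (ω, E) ∈ Fl2 σ μ v)
      (imp_meas (measurable_snd (sp_meas σ μ)) (fl2_meas σ μ v))).2 ?_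
    filter_upwards [hin] with E hE
    by_cases h : E ∈ Sp d σ μ
    · filter_upwards [(hE h).1] with ω hω _
      exact hω
    · exact Eventually.of_forall fun ω h1 => absurd h1 h
  -- outside of `Sp`
  have hout : ∀ᵐ ω ∂(iid d μ), ∀ᵐ E : ℝ, E ∈ (Sp d σ μ)ᶜ → ¬ ∃ x, 0 < kap σ E x ω := by
    refine (Measure.ae_ae_comm (μ := iid d μ) (ν := (volume : Measure ℝ))
      (p := fun ω E => E ∈ (Sp d σ μ)ᶜ → ¬ ∃ x, 0 < kap σ E x ω)
      (imp_meas (measurable_snd (sp_meas σ μ).compl) (ex_meas σ).compl)).2 ?_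
    refine Eventually.of_forall fun E => ?_
    by_cases h : E ∈ Sp d σ μ
    · exact Eventually.of_forall fun ω h1 => absurd h h1
    · have h1 : iid d μ {ω : Zd d → ℝ | ∃ x, 0 < kap σ E x ω} = 0 := by
        by_contra h2
        exact h h2
      have h2 : ∀ᵐ ω ∂(iid d μ), ¬ ∃ x, 0 < kap σ E x ω := by
        rw [ae_iff]
        simp only [not_not]
        exact h1
      filter_upwards [h2] with ω hω _
      exact hω
  filter_upwards [hc0, hin2, hout] with ω w1 w2 w3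
  refine ⟨?_, ?_⟩
  · filter_upwards [w1, w3] with E e1 e2 hE x
    by_contra h
    exact e2 hE ⟨x, (kap_iff σ E ω x (hsite e1 x x)).2 h⟩
  · filter_upwards [w1, w2, hin] with E e1 e2 e3 hE
    obtain ⟨c1, c2⟩ := fl2_coh hσ (e2 hE)
    exact ⟨e1, fun i hi => fix_det hs c1 c2 i hi,
      fun F c hn => fin_det hs hsi c1 c2 (e3 hE).2 F c hn⟩

end Pool.Agent.L5helper74.IM
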