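import Pool.Agent.L5helper74.IM.Re2

/-!
# Every solution of the eigenvalue equation is locally a boundary value
-/

set_option autoImplicit false

open MeasureTheory Filter Topology
open scoped InnerProductSpace

namespace Pool.Agent.L5helper74.IM

open Pool.Agent.TH369.AN (Zd L2 dl ee inner_dl norm_dl dl_apply iid)
open Pool.Agent.TH369.MU (ep zk)

variable {d : ℕ}

namespace RE

theorem fred {n : Type} [Fintype n] [DecidableEq n] (M : Matrix n n ℂ) (hM : M.transpose = M)
    (w : n → ℂ) (h : ∀ b, M.mulVec b = 0 → ∑ i, b i * w i = 0) : ∃ a, M.mulVec a = w := by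
  obtain ⟨φ, hφ⟩ : ∃ φ : Module.Dual ℂ (n → ℂ), ∀ b, φ b = ∑ i, b i * w i :=
    ⟨∑ i, w i • LinearMap.proj i, fun b => by
      simp only [LinearMap.sum_apply, LinearMap.smul_apply, LinearMap.proj_apply, smul_eq_mul]
      exact Finset.sum_congr rfl fun i _ => mul_comm _ _⟩
  have h1 : φ ∈ (LinearMap.ker M.mulVecLin).dualAnnihilator := by
    rw [Submodule.mem_dualAnnihilator]
    intro b hb
    rw [hφ]
    exact h b (by simpa using hb)
  rw [← LinearMap.range_dualMap_eq_dualAnnihilator_ker] at h1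
  obtain ⟨g, hg⟩ := h1
  refine ⟨fun i => g (Pi.single i 1), ?_⟩
  funext j
  have h2 := congrArg (fun f : Module.Dual ℂ (n → ℂ) => f (Pi.single j 1)) hg
  simp only [LinearMap.dualMap_apply, hφ] at h2
  have h3 : ∑ i, (Pi.single j 1 : n → ℂ) i * w i = w j := by
    rw [Finset.sum_eq_single j]
    · simp
    · intro i _ hi
      rw [Pi.single_eq_of_ne hi, zero_mul]
    · intro h
      exact absurd (Finset.mem_univ j) h
  rw [h3] at h2
  rw [← h2, Matrix.mulVecLin_apply, Matrix.mulVec_single_one]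
  have h4 : ∀ y : n → ℂ, g y = ∑ i, y i * g (Pi.single i 1) := by
    intro y
    conv_lhs => rw [pi_eq_sum_univ' y]
    rw [map_sum]
    refine Finset.sum_congr rfl fun i _ => ?_
    rw [map_smul, smul_eq_mul]
  rw [h4]
  unfold Matrix.mulVec dotProduct
  refine Finset.sum_congr rfl fun i _ => ?_
  have h5 : M i j = M j i := by
    conv_lhs => rw [← hM]
    rfl
  rw [Matrix.col_apply, h5]

/-- summation by parts -/
theorem parts (V : Zd d → ℝ) (E : ℝ) (u w : Zd d → ℂ) (hu : u.support.Finite)
    (hw : ∀ x, HV V w x = (E : ℂ) * w x) : ∑' x, (HV V u x - (E : ℂ) * u x) * w x = 0 := by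
  have hfin : ∀ a : Zd d, (fun x => u (x + a) * w x).support.Finite := by
    intro a
    refine (hu.preimage (f := fun x => x + a) (add_left_injective a).injOn).subset fun x hx => ?_
    intro h
    apply hx
    simp only [h, zero_mul]
  have hsh : ∀ a : Zd d, ∑' x, u (x + a) * w x = ∑' x, u x * w (x - a) := by
    intro a
    have h := (Equiv.addRight a).tsum_eq (fun x => u x * w (x - a))
    rw [← h]
    refine tsum_congr fun x => ?_
    simp
  have hs : ∀ a : Zd d, Summable fun x => u (x + a) * w x := fun a =>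
    summable_of_hasFiniteSupport (hfin a)
  have hs2 : ∀ f : Zd d → ℂ, Summable fun x => u x * f x := fun f =>
    summable_of_hasFiniteSupport (hu.subset fun x hx h => hx (by simp [h]))
  have e1 : ∀ x, (HV V u x - (E : ℂ) * u x) * w x =
      (∑ i : Fin d, (u (x + Pi.single i 1) * w x + u (x + -Pi.single i 1) * w x)) +
        u x * (((V x : ℂ) - E) * w x) := by
    intro x
    unfold HV
    simp only [← add_mul, ← Finset.sum_mul, ← sub_eq_add_neg]
    ring
  have e2 : ∀ x, u x * (∑ i : Fin d, (w (x - Pi.single i 1) + w (x - -Pi.single i 1))) +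
      u x * (((V x : ℂ) - E) * w x) = 0 := by
    intro x
    have h := hw x
    unfold HV at h
    have h1 : ∑ i : Fin d, (w (x - Pi.single i 1) + w (x - -Pi.single i 1)) =
        ∑ i : Fin d, (w (x + Pi.single i 1) + w (x - Pi.single i 1)) := by
      refine Finset.sum_congr rfl fun i _ => ?_
      rw [sub_neg_eq_add, add_comm]
    rw [h1]
    linear_combination u x * h
  simp only [e1]
  have hsum : Summable fun x => ∑ i : Fin d, (u (x + Pi.single i 1) * w x +
      u (x + -Pi.single i 1) * w x) := summable_sum fun i _ => (hs _).add (hs _)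
  rw [hsum.tsum_add (hs2 _), Summable.tsum_finsetSum fun i _ => (hs _).add (hs _)]
  have e3 : ∑ i : Fin d, ∑' x, (u (x + Pi.single i 1) * w x + u (x + -Pi.single i 1) * w x) =
      ∑' x, u x * (∑ i : Fin d, (w (x - Pi.single i 1) + w (x - -Pi.single i 1))) := by
    have h1 : ∀ x, u x * (∑ i : Fin d, (w (x - Pi.single i 1) + w (x - -Pi.single i 1))) =
        ∑ i : Fin d, (u x * w (x - Pi.single i 1) + u x * w (x - -Pi.single i 1)) := by
      intro x
      rw [Finset.mul_sum]
      exact Finset.sum_congr rfl fun i _ => mul_add _ _ _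
    simp only [h1]
    have hs3 : ∀ a : Zd d, Summable fun x => u x * w (x - a) := fun a => hs2 fun x => w (x - a)
    rw [Summable.tsum_finsetSum fun i _ => (hs3 _).add (hs3 _)]
    refine Finset.sum_congr rfl fun i _ => ?_
    rw [(hs _).tsum_add (hs _), (hs3 _).tsum_add (hs3 _), hsh, hsh]
  rw [e3, ← (hs2 _).tsum_add (hs2 _)]
  simp only [e2, tsum_zero]

theorem gr_sym (V : Zd d → ℝ) (E : ℝ) (k : ℕ) (x y : Zd d) :
    gr (RV V) E k (dl x) (dl y) = gr (RV V) E k (dl y) (dl x) := by
  unfold gr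
  rw [inner_rz (rv_sy V), inner_rz (rv_sy V), rv_symm V (zk E k) (zk_im_ne E k) x y]

end RE

/-- every solution of the eigenvalue equation is locally a boundary value -/
theorem sol_range (V : Zd d → ℝ) (E : ℝ) (hcv : ∀ x y : Zd d, Cv (RV V) E (dl x) (dl y))
    (hrel : ∀ (F : Finset (Zd d)) (c : Zd d → ℂ), Nul (RV V) E (∑ x ∈ F, c x • dl x) →
      ∃ u : Zd d → ℂ, u.support.Finite ∧
        ∀ x, HV V u x - (E : ℂ) * u x = ((∑ x ∈ F, c x • dl x : L2 d) : Zd d → ℂ) x)
    (w : Zd d → ℂ) (hw : ∀ x, HV V w x = (E : ℂ) * w x) (F : Finset (Zd d)) :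
    ∃ a : Zd d → ℂ, ∀ x ∈ F,
      Tendsto (fun k => gr (RV V) E k (dl x) (∑ y ∈ F, a y • dl y)) atTop (𝓝 (w x)) := by
  classical
  choose m hm using hcv
  obtain ⟨M, hM⟩ : ∃ M : Matrix F F ℂ, M = Matrix.of fun x y : F => m x y := ⟨_, rfl⟩
  have hsym : M.transpose = M := by
    ext x y
    rw [Matrix.transpose_apply, hM, Matrix.of_apply, Matrix.of_apply]
    refine tendsto_nhds_unique (hm y x) ?_
    simp only [RE.gr_sym V E _ (y : Zd d) x]
    exact hm x y
  have key : ∀ b : F → ℂ, M.mulVec b = 0 → ∑ i, b i * w i = 0 := by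
    intro b hb
    obtain ⟨c, hcd⟩ : ∃ c : Zd d → ℂ, c = fun i => if hi : i ∈ F then b ⟨i, hi⟩ else 0 := ⟨_, rfl⟩
    have hcw : ∀ i : F, c i = b i := by
      intro i
      rw [hcd]
      simp
    have hn : Nul (RV V) E (∑ x ∈ F, c x • dl x) := by
      have h1 : Tendsto (fun k => gr (RV V) E k (∑ i ∈ F, c i • dl i) (∑ i ∈ F, c i • dl i)) atTop
          (𝓝 (∑ i ∈ F, (starRingEnd ℂ) (c i) * ∑ j ∈ F, c j * m i j)) := by
        have e : ∀ k, gr (RV V) E k (∑ i ∈ F, c i • dl i) (∑ i ∈ F, c i • dl i) =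
            ∑ i ∈ F, (starRingEnd ℂ) (c i) * ∑ j ∈ F, c j * gr (RV V) E k (dl i) (dl j) := by
          intro k
          rw [gr_sum_left]
          exact Finset.sum_congr rfl fun i _ => by rw [gr_sum_right]
        simp only [e]
        exact tendsto_finsetSum _ fun i _ => (tendsto_finsetSum _ fun j _ =>
          (hm _ _).const_mul _).const_mul _
      have h2 : ∑ i ∈ F, (starRingEnd ℂ) (c i) * ∑ j ∈ F, c j * m i j = 0 := by
        rw [← Finset.sum_coe_sort F]
        refine Finset.sum_eq_zero fun i _ => ?_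
        have h3 := congrFun hb i
        rw [hM, Pi.zero_apply] at h3
        unfold Matrix.mulVec dotProduct at h3
        simp only [Matrix.of_apply] at h3
        rw [← Finset.sum_coe_sort F]
        have h4 : ∑ j : F, c j * m i j = 0 := by
          rw [← h3]
          refine Finset.sum_congr rfl fun j _ => ?_
          rw [hcw, mul_comm]
        rw [h4, mul_zero]
      rw [h2] at h1
      simp only [gr_self] at h1
      have h3 := (Complex.continuous_re.tendsto 0).comp h1
      rw [Complex.zero_re] at h3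
      have h4 : Tendsto (fun k => qk (RV V) E k (∑ i ∈ F, c i • dl i) ^ 2) atTop (𝓝 0) :=
        h3.congr fun k => Complex.ofReal_re _
      have h5 := (Real.continuous_sqrt.tendsto 0).comp h4
      rw [Real.sqrt_zero] at h5
      exact h5.congr fun k => Real.sqrt_sq (qk_nonneg _ _ _ _)
    obtain ⟨u, hu, hue⟩ := hrel F c hn
    have h1 := RE.parts V E u w hu hw
    have h2 : ∀ x, (HV V u x - (E : ℂ) * u x) * w x = if x ∈ F then c x * w x else 0 := by
      intro x
      rw [hue, Pool.Agent.TH369.AN.OP.coe_sum]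
      have h3 : ∀ y ∈ F, ((c y • (dl y : L2 d) : L2 d) : Zd d → ℂ) x =
          if x = y then c y else 0 := by
        intro y _
        rw [lp.coeFn_smul, Pi.smul_apply, smul_eq_mul, dl_apply]
        split_ifs <;> simp
      rw [Finset.sum_congr rfl h3, Finset.sum_ite_eq]
      split_ifs <;> simp
    simp only [h2] at h1
    rw [tsum_eq_sum (s := F) (fun x hx => if_neg hx)] at h1
    rw [← h1, ← Finset.sum_coe_sort F]
    refine Finset.sum_congr rfl fun i _ => ?_
    rw [if_pos i.2, hcw]
  obtain ⟨a, ha⟩ := RE.fred M hsym (fun i => w i) key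
  obtain ⟨c, hcd⟩ : ∃ c : Zd d → ℂ, c = fun i => if hi : i ∈ F then a ⟨i, hi⟩ else 0 := ⟨_, rfl⟩
  have hcw : ∀ i : F, c i = a i := by
    intro i
    rw [hcd]
    simp
  refine ⟨c, fun x hx => ?_⟩
  simp only [gr_sum_right]
  have h1 := congrFun ha ⟨x, hx⟩
  rw [hM] at h1
  unfold Matrix.mulVec dotProduct at h1
  simp only [Matrix.of_apply] at h1
  rw [← h1]
  have h2 : ∑ y : F, m x y * a y = ∑ y ∈ F, c y * m x y := by
    rw [← Finset.sum_coe_sort F]
    refine Finset.sum_congr rfl fun j _ => ?_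
    rw [hcw, mul_comm]
  rw [h2]
  exact tendsto_finsetSum _ fun y _ => (hm x y).const_mul _

end Pool.Agent.L5helper74.IM
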