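import Pool.Agent.TH369.MU.PO2
import Pool.Agent.TH369.MU.W3
import Pool.Agent.TH369.MU.QA
import Pool.Agent.Helper345.SM.spec

/-!
# Resolvent families of symmetric operators

An abstract version, for unbounded operators, of the first files of the project MU of helper369
(`Pool/Agent/TH369/MU`), which treats bounded self-adjoint operators.
-/

set_option autoImplicit false

open MeasureTheory Filter Topology
open scoped InnerProductSpace

namespace Pool.Agent.L5helper74.IM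

open Pool.Agent.TH369.MU (ep zk)

section defs

variable {X : Type} [NormedAddCommGroup X] [InnerProductSpace ℂ X]

/-- `R z = (H - z)⁻¹` for a symmetric operator `H` -/
def Sy (R : ℂ → X →L[ℂ] X) : Prop :=
  ∀ z w : ℂ, z.im ≠ 0 → w.im ≠ 0 → ∀ φ ψ : X,
    ⟪φ + z • R z φ, R w ψ⟫_ℂ = ⟪R z φ, ψ + w • R w ψ⟫_ℂ

/-- `√ε_k ‖(H - z_k)⁻¹ φ‖` -/
noncomputable def qk (R : ℂ → X →L[ℂ] X) (E : ℝ) (k : ℕ) (φ : X) : ℝ :=
  Real.sqrt (ep k) * ‖R (zk E k) φ‖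

/-- `⟨φ, (H - z_k)⁻¹ φ⟩` -/
noncomputable def Fk (R : ℂ → X →L[ℂ] X) (E : ℝ) (k : ℕ) (φ : X) : ℂ := ⟪φ, R (zk E k) φ⟫_ℂ

/-- `m` is the spectral measure of `φ` -/
def SpM (R : ℂ → X →L[ℂ] X) (φ : X) (m : Measure ℝ) : Prop :=
  IsFiniteMeasure m ∧ ∀ z : ℂ, z.im ≠ 0 → ⟪φ, R z φ⟫_ℂ = ∫ x : ℝ, ((x : ℂ) - z)⁻¹ ∂m

/-- the span of the vectors `(H - w)⁻¹ f_i` -/
def cyc (R : ℂ → X →L[ℂ] X) {n : ℕ} (f : Fin n → X) : Submodule ℂ X :=
  Submodule.span ℂ {v | ∃ (i : Fin n) (w : ℂ), w.im ≠ 0 ∧ v = R w (f i)}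

end defs

theorem ep_pos (k : ℕ) : 0 < ep k := by
  unfold ep
  positivity

theorem ep_tendsto : Tendsto ep atTop (𝓝 0) := by
  have := tendsto_one_div_add_atTop_nhds_zero_nat (𝕜 := ℝ)
  exact this

theorem zk_im (E : ℝ) (k : ℕ) : (zk E k).im = ep k := by
  unfold zk
  simp

theorem zk_im_ne (E : ℝ) (k : ℕ) : (zk E k).im ≠ 0 := by
  rw [zk_im]
  exact (ep_pos k).ne'

theorem zk_sub_conj (E : ℝ) (k : ℕ) :
    zk E k - (starRingEnd ℂ) (zk E k) = 2 * Complex.I * (ep k : ℂ) := by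
  unfold zk
  simp only [map_add, map_mul, Complex.conj_ofReal, Complex.conj_I]
  ring

variable {X : Type} [NormedAddCommGroup X] [InnerProductSpace ℂ X]

/-! ### basic identities -/

theorem sy_adj {R : ℂ → X →L[ℂ] X} (hR : Sy R) (z : ℂ) (hz : z.im ≠ 0) (φ ψ : X) :
    ⟪R z φ, ψ⟫_ℂ = ⟪φ, R ((starRingEnd ℂ) z) ψ⟫_ℂ := by
  have hz' : ((starRingEnd ℂ) z).im ≠ 0 := by
    rw [Complex.conj_im]
    exact neg_ne_zero.2 hz
  have h := hR z ((starRingEnd ℂ) z) hz hz' φ ψ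
  rw [inner_add_left, inner_add_right, inner_smul_left, inner_smul_right] at h
  exact (add_right_cancel h).symm

theorem sy_res {R : ℂ → X →L[ℂ] X} (hR : Sy R) (z w : ℂ) (hz : z.im ≠ 0) (hw : w.im ≠ 0) (ψ : X) :
    R w ψ - R z ψ = (w - z) • R z (R w ψ) := by
  have hz' : ((starRingEnd ℂ) z).im ≠ 0 := by
    rw [Complex.conj_im]
    exact neg_ne_zero.2 hz
  refine ext_inner_left ℂ fun φ => ?_
  have h := hR ((starRingEnd ℂ) z) w hz' hw φ ψ
  have h1 := sy_adj hR _ hz' φ ψ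
  have h2 := sy_adj hR _ hz' φ (R w ψ)
  rw [Complex.conj_conj] at h1 h2
  rw [inner_add_left, inner_add_right, inner_smul_left, inner_smul_right, Complex.conj_conj, h1,
    h2] at h
  rw [inner_sub_right, inner_smul_right]
  linear_combination h

theorem sy_inner {R : ℂ → X →L[ℂ] X} (hR : Sy R) (z : ℂ) (hz : z.im ≠ 0) (φ ψ : X) :
    ⟪φ, R z ψ⟫_ℂ - (starRingEnd ℂ) ⟪ψ, R z φ⟫_ℂ = (z - (starRingEnd ℂ) z) * ⟪R z φ, R z ψ⟫_ℂ := by
  have h := hR z z hz hz φ ψ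
  rw [inner_add_left, inner_add_right, inner_smul_left, inner_smul_right] at h
  rw [inner_conj_symm]
  linear_combination h

theorem sy_im {R : ℂ → X →L[ℂ] X} (hR : Sy R) (z : ℂ) (hz : z.im ≠ 0) (φ : X) :
    (⟪φ, R z φ⟫_ℂ).im = z.im * ‖R z φ‖ ^ 2 := by
  have h := congrArg Complex.im (sy_inner hR z hz φ φ)
  rw [inner_self_eq_norm_sq_to_K, Complex.sub_conj, Complex.sub_conj] at h
  have h1 : (((2 * (⟪φ, R z φ⟫_ℂ).im : ℝ) : ℂ) * Complex.I).im = 2 * (⟪φ, R z φ⟫_ℂ).im := by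
    rw [Complex.im_ofReal_mul, Complex.I_im, mul_one]
  have h2 : (((2 * z.im : ℝ) : ℂ) * Complex.I * (((‖R z φ‖ : ℝ) : ℂ) ^ 2)).im =
      2 * z.im * ‖R z φ‖ ^ 2 := by
    have : ((2 * z.im : ℝ) : ℂ) * Complex.I * (((‖R z φ‖ : ℝ) : ℂ) ^ 2) =
        ((2 * z.im * ‖R z φ‖ ^ 2 : ℝ) : ℂ) * Complex.I := by
      push_cast
      ring
    rw [this, Complex.im_ofReal_mul, Complex.I_im, mul_one]
  have h3 := (h1.symm.trans h).trans h2
  linarith

theorem sy_norm {R : ℂ → X →L[ℂ] X} (hR : Sy R) (z : ℂ) (hz : z.im ≠ 0) (φ : X) :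
    ‖R z φ‖ ≤ ‖φ‖ / |z.im| := by
  have h := sy_im hR z hz φ
  obtain ⟨u, hu⟩ : ∃ u : X, u = R z φ := ⟨_, rfl⟩
  rw [← hu] at h ⊢
  have hz0 : 0 < |z.im| := abs_pos.2 hz
  have h2 : |z.im| * ‖u‖ ^ 2 ≤ ‖φ‖ * ‖u‖ := by
    have h3 : |z.im * ‖u‖ ^ 2| = |z.im| * ‖u‖ ^ 2 := by
      rw [abs_mul, abs_of_nonneg (by positivity : 0 ≤ ‖u‖ ^ 2)]
    rw [← h3, ← h]
    exact (Complex.abs_im_le_norm _).trans (norm_inner_le_norm _ _)
  rw [le_div_iff₀ hz0]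
  rcases eq_or_lt_of_le (norm_nonneg u) with h0 | h0
  · rw [← h0, zero_mul]; exact norm_nonneg _
  · have h3 : ‖u‖ * |z.im| * ‖u‖ ≤ ‖φ‖ * ‖u‖ := by
      calc ‖u‖ * |z.im| * ‖u‖ = |z.im| * ‖u‖ ^ 2 := by ring
        _ ≤ _ := h2
    exact le_of_mul_le_mul_right h3 h0

/-- continuity in the spectral parameter -/
theorem sy_cont {R : ℂ → X →L[ℂ] X} (hR : Sy R) (φ ψ : X) (z : ℂ) (hz : z.im ≠ 0) :
    ContinuousAt (fun w => ⟪φ, R w ψ⟫_ℂ) z := by
  rw [ContinuousAt, tendsto_iff_norm_sub_tendsto_zero]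
  have h1 : Tendsto (fun w : ℂ => ‖φ‖ * (‖w - z‖ * ((‖ψ‖ / |w.im|) / |z.im|))) (𝓝 z)
      (𝓝 (‖φ‖ * (‖z - z‖ * ((‖ψ‖ / |z.im|) / |z.im|)))) := by
    have h2 : Tendsto (fun w : ℂ => |w.im|) (𝓝 z) (𝓝 |z.im|) :=
      (Complex.continuous_im.abs).tendsto z
    have h3 : Tendsto (fun w : ℂ => ‖w - z‖) (𝓝 z) (𝓝 ‖z - z‖) :=
      ((continuous_id.sub continuous_const).norm).tendsto z
    exact (h3.mul ((tendsto_const_nhds.div h2 (abs_pos.2 hz).ne').div_const _)).const_mul _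
  rw [sub_self, norm_zero, zero_mul, mul_zero] at h1
  have hne : ∀ᶠ w in 𝓝 z, w.im ≠ 0 :=
    (Complex.continuous_im.continuousAt (x := z)).eventually_ne hz
  refine squeeze_zero' (Eventually.of_forall fun _ => norm_nonneg _) ?_ h1
  filter_upwards [hne] with w hw
  rw [← inner_sub_right, sy_res hR z w hz hw ψ]
  refine (norm_inner_le_norm _ _).trans ?_
  refine mul_le_mul_of_nonneg_left ?_ (norm_nonneg _)
  rw [norm_smul]
  refine mul_le_mul_of_nonneg_left ?_ (norm_nonneg _)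
  refine (sy_norm hR z hz _).trans ?_
  exact div_le_div_of_nonneg_right (sy_norm hR w hw ψ) (abs_nonneg _)

/-! ### the seminorms -/

theorem qk_nonneg (R : ℂ → X →L[ℂ] X) (E : ℝ) (k : ℕ) (φ : X) : 0 ≤ qk R E k φ := by
  unfold qk
  positivity

theorem qk_add (R : ℂ → X →L[ℂ] X) (E : ℝ) (k : ℕ) (φ ψ : X) :
    qk R E k (φ + ψ) ≤ qk R E k φ + qk R E k ψ := by
  unfold qk
  rw [map_add, ← mul_add]
  exact mul_le_mul_of_nonneg_left (norm_add_le _ _) (Real.sqrt_nonneg _)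

theorem qk_smul (R : ℂ → X →L[ℂ] X) (E : ℝ) (k : ℕ) (a : ℂ) (φ : X) :
    qk R E k (a • φ) = ‖a‖ * qk R E k φ := by
  unfold qk
  rw [map_smul, norm_smul]
  ring

theorem qk_sum (R : ℂ → X →L[ℂ] X) (E : ℝ) (k : ℕ) {ι : Type} (s : Finset ι) (a : ι → ℂ)
    (g : ι → X) : qk R E k (∑ j ∈ s, a j • g j) ≤ ∑ j ∈ s, ‖a j‖ * qk R E k (g j) := by
  classical
  induction s using Finset.induction_on with
  | empty => simp [qk]
  | insert i s hi ih =>
    rw [Finset.sum_insert hi, Finset.sum_insert hi]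
    refine (qk_add R E k _ _).trans ?_
    rw [qk_smul]
    linarith

theorem qk_sq {R : ℂ → X →L[ℂ] X} (hR : Sy R) (E : ℝ) (k : ℕ) (φ : X) :
    qk R E k φ ^ 2 = (Fk R E k φ).im := by
  unfold qk Fk
  rw [mul_pow, Real.sq_sqrt (ep_pos k).le, sy_im hR _ (zk_im_ne E k), zk_im]

theorem inner_rz {R : ℂ → X →L[ℂ] X} (hR : Sy R) (E : ℝ) (k : ℕ) (φ ψ : X) :
    (ep k : ℂ) * ⟪R (zk E k) φ, R (zk E k) ψ⟫_ℂ =
      (⟪φ, R (zk E k) ψ⟫_ℂ - (starRingEnd ℂ) ⟪ψ, R (zk E k) φ⟫_ℂ) / (2 * Complex.I) := by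
  rw [sy_inner hR _ (zk_im_ne E k) φ ψ, zk_sub_conj, eq_div_iff (by simp)]
  ring

/-- `(H - w)⁻¹ f` is like `(E - w)⁻¹ f` at the energy `E` -/
theorem qk_cyc {R : ℂ → X →L[ℂ] X} (hR : Sy R) (E : ℝ) (w : ℂ) (hw : w.im ≠ 0) (f : X) :
    Tendsto (fun k => qk R E k (R w f - ((E : ℂ) - w)⁻¹ • f)) atTop (𝓝 0) := by
  have hEw : (E : ℂ) - w ≠ 0 := by
    intro h
    have := congrArg Complex.im h
    rw [Complex.sub_im, Complex.ofReal_im, Complex.zero_im, zero_sub, neg_eq_zero] at this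
    exact hw this
  -- the points `z_k` stay away from `w`
  have h0 : Tendsto (fun k => zk E k - w) atTop (𝓝 ((E : ℂ) - w)) := by
    unfold zk
    have h1 : Tendsto (fun k => (ep k : ℂ)) atTop (𝓝 ((0 : ℝ) : ℂ)) :=
      (Complex.continuous_ofReal.tendsto 0).comp ep_tendsto
    have h2 := ((h1.mul_const Complex.I).const_add (E : ℂ)).sub_const w
    simpa using h2
  have h1 : Tendsto (fun k => ‖(zk E k - w)⁻¹‖) atTop (𝓝 ‖((E : ℂ) - w)⁻¹‖) := (h0.inv₀ hEw).norm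
  have hsq : Tendsto (fun k => Real.sqrt (ep k)) atTop (𝓝 0) := by
    have := (Real.continuous_sqrt.tendsto 0).comp ep_tendsto
    rw [Real.sqrt_zero] at this
    exact this
  have hne : ∀ᶠ k in atTop, zk E k - w ≠ 0 := h0.eventually_ne hEw
  have hbd : Tendsto (fun k => Real.sqrt (ep k) * (‖(zk E k - w)⁻¹‖ *
      (‖((E : ℂ) - w)⁻¹‖ * ‖f‖ + ‖R w f‖))) atTop (𝓝 0) := by
    have := hsq.mul (h1.mul_const (‖((E : ℂ) - w)⁻¹‖ * ‖f‖ + ‖R w f‖))
    rw [zero_mul] at this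
    exact this
  refine squeeze_zero' (Eventually.of_forall fun k => qk_nonneg _ _ _ _) ?_ hbd
  filter_upwards [hne] with k hk
  unfold qk
  refine mul_le_mul_of_nonneg_left ?_ (Real.sqrt_nonneg _)
  have hz := zk_im_ne E k
  set z := zk E k with hzdef
  have e1 := sy_res hR z w hz hw f
  have e2 : R z (R w f) = (z - w)⁻¹ • (R z f - R w f) := by
    have h3 : (z - w) • R z (R w f) = R z f - R w f := by
      have : (z - w) • R z (R w f) = -((w - z) • R z (R w f)) := by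
        rw [← neg_smul]
        congr 1
        ring
      rw [this, ← e1]
      abel
    rw [← h3, smul_smul, inv_mul_cancel₀ hk, one_smul]
  have hzE : z - (E : ℂ) = (ep k : ℂ) * Complex.I := by
    rw [hzdef]
    unfold zk
    ring
  have e3 : R z (R w f - ((E : ℂ) - w)⁻¹ • f) =
      (z - w)⁻¹ • ((-(((E : ℂ) - w)⁻¹ * ((ep k : ℂ) * Complex.I))) • R z f - R w f) := by
    rw [map_sub, map_smul, e2, smul_sub, smul_sub, smul_smul, sub_right_comm, ← sub_smul]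
    congr 2
    field_simp
    rw [← hzE]
    ring
  rw [e3, norm_smul]
  refine mul_le_mul_of_nonneg_left ?_ (norm_nonneg _)
  refine (norm_sub_le _ _).trans (add_le_add ?_ le_rfl)
  rw [norm_smul, norm_neg, norm_mul, norm_mul, Complex.norm_I, mul_one, Complex.norm_real,
    Real.norm_eq_abs, abs_of_pos (ep_pos k), mul_assoc]
  refine mul_le_mul_of_nonneg_left ?_ (norm_nonneg _)
  have h4 := sy_norm hR z hz f
  rw [hzdef, zk_im, abs_of_pos (ep_pos k), ← hzdef, le_div_iff₀ (ep_pos k)] at h4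
  linarith

end Pool.Agent.L5helper74.IM
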