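import Pool.Agent.L5helper74.IM.Se

/-!
The statement of `star_one` for almost all energies, almost surely: exchange of the null sets.
-/

set_option autoImplicit false
open MeasureTheory Filter Topology
open scoped InnerProductSpace
namespace Pool.Agent.L5helper74.IM
open Pool.Agent.TH369.AN (Zd L2 dl ee inner_dl norm_dl dl_apply iid)
open Pool.Agent.TH369.MU (ep zk sh sh_mp upd_mp influence zero_one)
variable {d : ℕ}

namespace SA

theorem kap_meas (σ : ℝ) (x : Zd d) :
    Measurable fun p : (Zd d → ℝ) × ℝ => kap σ p.2 x p.1 := by
  unfold kap
  refine Measurable.liminf fun k => ?_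
  exact (Complex.measurable_im.comp (gk_meas2 σ k x x)).ennreal_ofReal

theorem star_meas (σ : ℝ) :
    MeasurableSet {p : (Zd d → ℝ) × ℝ | Star σ p.2 p.1} := by
  rw [measurableSet_setOfPred]
  unfold Star
  refine Measurable.imp ?_ ?_
  · refine Measurable.exists fun x => ?_
    exact measurableSet_setOfPred.1 (measurableSet_lt measurable_const (kap_meas σ x))
  · refine Measurable.forall fun n => ?_
    refine Measurable.exists fun x => ?_
    refine Measurable.exists fun m => ?_
    simp only [Filter.eventually_atTop]
    refine Measurable.exists fun k₀ => ?_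
    refine Measurable.forall fun k => ?_
    refine Measurable.imp measurable_const ?_
    refine Measurable.and ?_ ?_
    · refine Measurable.forall fun i => ?_
      exact measurableSet_setOfPred.1 (measurableSet_le measurable_const
        (Complex.measurable_im.comp (gk_meas2 σ k (x i) (x i))))
    · refine Measurable.forall fun i => ?_
      refine Measurable.forall fun j => ?_
      refine Measurable.imp measurable_const ?_
      exact measurableSet_setOfPred.1 (measurableSet_le (gk_meas2 σ k (x i) (x j)).norm
        measurable_const)

end SA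

theorem star_ae (hd : 0 < d) (σ : ℝ) (μ : Measure ℝ) [IsProbabilityMeasure μ]
    (hσ : σ ≠ 0) (hnd : ∀ x : ℝ, μ {x} ≠ 1) :
    ∀ᵐ ω ∂(iid d μ), ∀ᵐ E : ℝ, Star σ E ω := by
  have : IsProbabilityMeasure (iid d μ) := by unfold iid; infer_instance
  rw [Measure.ae_ae_comm (SA.star_meas σ)]
  filter_upwards [good_ae (d := d) σ μ] with E hE
  exact star_one hd σ μ hσ hnd E hE

end Pool.Agent.L5helper74.IM
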