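import Pool.Agent.L5helper74.IM.Res

/-!
# Spectral measures for a resolvent family, by the Cayley transform
-/

set_option autoImplicit false

open MeasureTheory Filter Topology
open scoped InnerProductSpace

namespace Pool.Agent.L5helper74.IM

open Pool.Agent.TH369.MU (ep zk)
open SM345.SPA (TT)

variable {X : Type} [NormedAddCommGroup X] [InnerProductSpace ℂ X] [CompleteSpace X]

namespace Spm

theorem I_im : (Complex.I).im ≠ 0 := by simp

theorem nI_im : (-Complex.I).im ≠ 0 := by simp

/-- the Cayley transform `(H + i) (H - i)⁻¹` -/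
noncomputable def U (R : ℂ → X →L[ℂ] X) : X →L[ℂ] X := 1 + (2 * Complex.I) • R Complex.I

/-- its inverse -/
noncomputable def V (R : ℂ → X →L[ℂ] X) : X →L[ℂ] X := 1 - (2 * Complex.I) • R (-Complex.I)

omit [CompleteSpace X] in
theorem U_apply (R : ℂ → X →L[ℂ] X) (φ : X) : U R φ = φ + (2 * Complex.I) • R Complex.I φ := rfl

omit [CompleteSpace X] in
theorem V_apply (R : ℂ → X →L[ℂ] X) (φ : X) : V R φ = φ - (2 * Complex.I) • R (-Complex.I) φ := rfl

omit [CompleteSpace X] in
theorem UV {R : ℂ → X →L[ℂ] X} (hR : Sy R) : U R * V R = 1 := by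
  refine ContinuousLinearMap.ext fun φ => ?_
  show U R (V R φ) = φ
  have h := sy_res hR Complex.I (-Complex.I) I_im nI_im φ
  rw [U_apply, V_apply, map_sub, map_smul]
  have e : R Complex.I (R (-Complex.I) φ) =
      (1 / (2 * Complex.I)) • (R Complex.I φ - R (-Complex.I) φ) := by
    have h1 : R Complex.I φ - R (-Complex.I) φ =
        (2 * Complex.I) • R Complex.I (R (-Complex.I) φ) := by
      have : R Complex.I φ - R (-Complex.I) φ = -(R (-Complex.I) φ - R Complex.I φ) := by abel
      rw [this, h, ← neg_smul]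
      congr 1
      ring
    rw [h1, smul_smul, one_div, inv_mul_cancel₀ (by simp), one_smul]
  rw [e, smul_sub, smul_smul, smul_smul]
  have h2 : 2 * Complex.I * (2 * Complex.I) * (1 / (2 * Complex.I)) = 2 * Complex.I := by
    field_simp
  rw [h2, smul_sub]
  abel

omit [CompleteSpace X] in
theorem VU {R : ℂ → X →L[ℂ] X} (hR : Sy R) : V R * U R = 1 := by
  refine ContinuousLinearMap.ext fun φ => ?_
  show V R (U R φ) = φ
  have h := sy_res hR (-Complex.I) Complex.I nI_im I_im φ
  rw [V_apply, U_apply, map_add, map_smul]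
  have e : R (-Complex.I) (R Complex.I φ) =
      (1 / (2 * Complex.I)) • (R Complex.I φ - R (-Complex.I) φ) := by
    have h1 : R Complex.I φ - R (-Complex.I) φ =
        (2 * Complex.I) • R (-Complex.I) (R Complex.I φ) := by
      rw [h]
      congr 1
      ring
    rw [h1, smul_smul, one_div, inv_mul_cancel₀ (by simp), one_smul]
  rw [e, smul_add, smul_smul, smul_smul]
  have h2 : 2 * Complex.I * (2 * Complex.I) * (1 / (2 * Complex.I)) = 2 * Complex.I := by
    field_simp
  rw [h2, smul_sub]
  abel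

theorem star_U {R : ℂ → X →L[ℂ] X} (hR : Sy R) : star (U R) = V R := by
  rw [ContinuousLinearMap.star_eq_adjoint]
  symm
  rw [ContinuousLinearMap.eq_adjoint_iff]
  intro φ ψ
  rw [V_apply, U_apply, inner_sub_left, inner_add_right, inner_smul_left, inner_smul_right]
  have h := sy_adj hR (-Complex.I) nI_im φ ψ
  rw [map_neg, Complex.conj_I, neg_neg] at h
  rw [h]
  simp only [map_mul, Complex.conj_I, map_ofNat]
  ring

theorem U_mem {R : ℂ → X →L[ℂ] X} (hR : Sy R) : U R ∈ unitary (X →L[ℂ] X) := by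
  rw [Unitary.mem_iff, star_U hR]
  exact ⟨VU hR, UV hR⟩

/-! ### the functions on the circle -/

theorem norm_four (t : TT) : ‖(fourier 1 t : ℂ)‖ = 1 := by
  rw [fourier_apply]
  exact Circle.norm_coe _

theorem lt_norm {z : ℂ} (hz : 0 < z.im) : ‖z - Complex.I‖ < ‖z + Complex.I‖ := by
  have h : ‖z - Complex.I‖ ^ 2 < ‖z + Complex.I‖ ^ 2 := by
    rw [Complex.sq_norm, Complex.sq_norm, Complex.normSq_apply, Complex.normSq_apply]
    simp only [Complex.sub_re, Complex.sub_im, Complex.add_re, Complex.add_im, Complex.I_re,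
      Complex.I_im]
    nlinarith
  exact lt_of_pow_lt_pow_left₀ 2 (norm_nonneg _) h

theorem den_ne {z : ℂ} (hz : 0 < z.im) (t : TT) :
    (z + Complex.I) - (z - Complex.I) * fourier 1 t ≠ 0 := by
  intro h
  have h1 : z + Complex.I = (z - Complex.I) * fourier 1 t := sub_eq_zero.1 h
  have h2 := congrArg norm h1
  rw [norm_mul, norm_four, mul_one] at h2
  exact (lt_norm hz).ne h2.symm

/-- the inverse of the denominator -/
noncomputable def dinv (z : ℂ) (hz : 0 < z.im) : C(TT, ℂ) :=
  ⟨fun t => ((z + Complex.I) - (z - Complex.I) * fourier 1 t)⁻¹,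
    ((continuous_const.sub (continuous_const.mul (fourier 1 : C(TT, ℂ)).continuous))).inv₀
      (den_ne hz)⟩

theorem dinv_mul (z : ℂ) (hz : 0 < z.im) :
    dinv z hz * ((z + Complex.I) • (1 : C(TT, ℂ)) - (z - Complex.I) • (fourier 1 : C(TT, ℂ))) =
      1 := by
  ext t
  show ((z + Complex.I) - (z - Complex.I) * fourier 1 t)⁻¹ *
    ((z + Complex.I) * 1 - (z - Complex.I) * fourier 1 t) = 1
  rw [mul_one]
  exact inv_mul_cancel₀ (den_ne hz t)

/-- the point of the line corresponding to a point of the circle -/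
noncomputable def pt (t : TT) : ℝ :=
  (Complex.I * (fourier 1 t + 1) / (fourier 1 t - 1)).re

theorem pt_meas : Measurable pt := by
  have h : Measurable fun t : TT => (fourier 1 t : ℂ) := (fourier 1 : C(TT, ℂ)).continuous.measurable
  unfold pt
  exact Complex.measurable_re.comp (((h.add_const 1).const_mul _).div (h.sub_const 1))

theorem pt_eq {t : TT} (ht : (fourier 1 t : ℂ) ≠ 1) :
    ((pt t : ℝ) : ℂ) = Complex.I * (fourier 1 t + 1) / (fourier 1 t - 1) := by
  unfold pt
  rw [← Complex.conj_eq_iff_re]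
  have h1 := norm_four t
  set u : ℂ := fourier 1 t with hu
  have hu0 : u ≠ 0 := by
    intro h
    rw [h, norm_zero] at h1
    exact zero_ne_one h1
  have hc : (starRingEnd ℂ) u = u⁻¹ := by
    rw [Complex.inv_def, Complex.normSq_eq_norm_sq, h1]
    simp
  have hne : u - 1 ≠ 0 := sub_ne_zero.2 ht
  have hne2 : u⁻¹ - 1 ≠ 0 := by
    rw [sub_ne_zero]
    intro h
    exact ht (inv_eq_one.1 h)
  rw [map_div₀, map_mul, map_add, map_sub, map_one, Complex.conj_I, hc]
  rw [div_eq_div_iff hne2 hne]
  field_simp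
  ring

theorem fun_eq (z : ℂ) (hz : 0 < z.im) (t : TT) (ht : (fourier 1 t : ℂ) ≠ 1) :
    (dinv z hz * ((fourier 1 : C(TT, ℂ)) - 1)) t = (((pt t : ℝ) : ℂ) - z)⁻¹ := by
  rw [pt_eq ht]
  show ((z + Complex.I) - (z - Complex.I) * fourier 1 t)⁻¹ * (fourier 1 t - 1) = _
  have hd := den_ne hz t
  set u : ℂ := fourier 1 t with hu
  have hne : u - 1 ≠ 0 := sub_ne_zero.2 ht
  have e : Complex.I * (u + 1) / (u - 1) - z = ((z + Complex.I) - (z - Complex.I) * u) / (u - 1) := by
    rw [eq_div_iff hne, sub_mul, div_mul_cancel₀ _ hne]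
    ring
  rw [e, inv_div, div_eq_mul_inv, mul_comm]

theorem fun_zero (z : ℂ) (hz : 0 < z.im) (t : TT) (ht : (fourier 1 t : ℂ) = 1) :
    (dinv z hz * ((fourier 1 : C(TT, ℂ)) - 1)) t = 0 := by
  show _ * (fourier 1 t - 1 : ℂ) = 0
  rw [ht, sub_self, mul_zero]

end Spm

open Spm

theorem spm_exists {R : ℂ → X →L[ℂ] X} (hR : Sy R) (φ : X) :
    ∃ m : Measure ℝ, SpM R φ m ∧ m Set.univ ≤ ENNReal.ofReal (‖φ‖ ^ 2) := by
  obtain ⟨T, hT⟩ := SM345.SPA.exists_T (⟨U R, U_mem hR⟩ : unitary (X →L[ℂ] X))
  obtain ⟨σ, hσ, hf⟩ := SM345.SPA.herglotz_T T φ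
  have hTU : T (fourier 1) = U R := hT
  set S : Set TT := {t | (fourier 1 t : ℂ) ≠ 1} with hS
  have hSm : MeasurableSet S := by
    have h : Measurable fun t : TT => (fourier 1 t : ℂ) :=
      (fourier 1 : C(TT, ℂ)).continuous.measurable
    exact (measurableSet_singleton (1 : ℂ)).compl.preimage h
  refine ⟨(σ.restrict S).map pt, ⟨inferInstance, ?_⟩, ?_⟩
  · -- the upper half plane
    have key : ∀ z : ℂ, 0 < z.im → ⟪φ, R z φ⟫_ℂ =
        ∫ x : ℝ, ((x : ℂ) - z)⁻¹ ∂((σ.restrict S).map pt) := by
      intro z hz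
      have h1 : T (dinv z hz * ((fourier 1 : C(TT, ℂ)) - 1)) = R z := by
        have h2 : ((z + Complex.I) • (1 : X →L[ℂ] X) - (z - Complex.I) • U R) * R z = U R - 1 := by
          refine ContinuousLinearMap.ext fun ψ => ?_
          show (z + Complex.I) • R z ψ - (z - Complex.I) • U R (R z ψ) = U R ψ - ψ
          have h3 := sy_res hR Complex.I z I_im hz.ne' ψ
          rw [U_apply, U_apply, smul_add, smul_smul, mul_comm (z - Complex.I) (2 * Complex.I),
            ← smul_smul, ← h3, smul_sub]
          module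
        have h3 := congrArg T (dinv_mul z hz)
        rw [map_mul, map_sub, map_smul, map_smul, map_one, hTU] at h3
        calc T (dinv z hz * ((fourier 1 : C(TT, ℂ)) - 1))
            = T (dinv z hz) * (U R - 1) := by rw [map_mul, map_sub, map_one, hTU]
          _ = (T (dinv z hz) * ((z + Complex.I) • (1 : X →L[ℂ] X) - (z - Complex.I) • U R)) *
              R z := by rw [← h2, mul_assoc]
          _ = R z := by rw [h3, one_mul]
      have h2 := hf (dinv z hz * ((fourier 1 : C(TT, ℂ)) - 1))
      rw [h1] at h2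
      rw [← h2, integral_map pt_meas.aemeasurable]
      · rw [← setIntegral_eq_integral_of_forall_compl_eq_zero (s := S)]
        · refine setIntegral_congr_fun hSm fun t ht => ?_
          exact fun_eq z hz t ht
        · intro t ht
          have ht' : (fourier 1 t : ℂ) = 1 := not_not.1 ht
          exact fun_zero z hz t ht'
      · exact (by fun_prop : Measurable fun x : ℝ => ((x : ℂ) - z)⁻¹).aestronglyMeasurable
    intro z hz
    rcases lt_or_gt_of_ne hz with h | h
    · have hz' : 0 < ((starRingEnd ℂ) z).im := by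
        rw [Complex.conj_im]
        linarith
      have h1 := key _ hz'
      have h2 := sy_adj hR z hz φ φ
      rw [← h2] at h1
      have h3 := congrArg (starRingEnd ℂ) h1
      rw [inner_conj_symm, ← integral_conj] at h3
      rw [h3]
      refine integral_congr_ae (Eventually.of_forall fun x => ?_)
      simp only [map_inv₀, map_sub, Complex.conj_ofReal, Complex.conj_conj]
    · exact key z h
  · rw [Measure.map_apply pt_meas MeasurableSet.univ, Set.preimage_univ, Measure.restrict_apply_univ]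
    refine (measure_mono (Set.subset_univ S)).trans ?_
    have h1 := hf 1
    rw [map_one] at h1
    have h2 : (1 : X →L[ℂ] X) φ = φ := rfl
    rw [h2, inner_self_eq_norm_sq_to_K] at h1
    have h3 : σ.real Set.univ = ‖φ‖ ^ 2 := by
      apply Complex.ofReal_injective
      have h4 : ∫ z, (1 : C(TT, ℂ)) z ∂σ = ((σ.real Set.univ : ℝ) : ℂ) := by
        simp
      rw [← h4, h1]
      push_cast
      rfl
    rw [← h3, measureReal_def, ENNReal.ofReal_toReal (measure_ne_top σ _)]

end Pool.Agent.L5helper74.IM
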